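import Pool.Agent.Y183.TS.C
set_option autoImplicit false

/-! The kernel of the free Schroedinger group. -/

namespace Pool.Agent.Helper969.TS

open MeasureTheory Set Filter Topology Complex
open scoped ENNReal NNReal
open Pool.Agent.W771.MD (qe em em_norm em_enorm em_cont em_meas planchM)

variable {m : ℕ}

/-- the one dimensional kernel -/
noncomputable def g1 (z : ℂ) (v : ℝ) : ℂ := (1 / z) ^ (1 / 2 : ℂ) * cexp (-(Real.pi * v ^ 2) / z)

/-- the kernel -/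
noncomputable def gm (z : ℂ) (v : Fin m → ℝ) : ℂ := ∏ i, g1 z (v i)

theorem gauss1 (ε t v : ℝ) (hε : 0 < ε) :
    ∫ ξ : ℝ, (Real.exp (-(Real.pi * ε * ξ ^ 2)) : ℂ) * qe v t ξ = g1 (ε - 2 * t * I) v := by
  have hz : ((ε : ℂ) - 2 * t * I) ≠ 0 := by
    intro h
    have := congrArg Complex.re h
    simp at this
    linarith
  have h := fourierIntegral_gaussian (b := Real.pi * ((ε : ℂ) - 2 * t * I)) (by
    simp
    positivity) (2 * Real.pi * v)
  have hpi : (Real.pi : ℂ) ≠ 0 := by exact_mod_cast Real.pi_ne_zero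
  rw [g1]
  have e1 : (Real.pi : ℂ) / (Real.pi * ((ε : ℂ) - 2 * t * I)) = 1 / ((ε : ℂ) - 2 * t * I) := by
    field_simp
  have e2 : -(2 * Real.pi * (v : ℂ)) ^ 2 / (4 * (Real.pi * ((ε : ℂ) - 2 * t * I))) =
      -(Real.pi * v ^ 2) / ((ε : ℂ) - 2 * t * I) := by
    field_simp
    ring
  rw [e1, e2] at h
  rw [← h]
  congr 1
  ext ξ
  unfold Pool.Agent.W771.MD.qe
  rw [Complex.ofReal_exp, ← Complex.exp_add, ← Complex.exp_add]
  congr 1
  push_cast
  ring

theorem g1_norm (ε t v : ℝ) (hε : 0 ≤ ε) (ht : t ≠ 0) :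
    ‖g1 (ε - 2 * t * I) v‖ ≤ |2 * t| ^ (-(1 / 2) : ℝ) := by
  set z : ℂ := (ε : ℂ) - 2 * t * I with hz
  have hz0 : z ≠ 0 := by
    intro h
    have := congrArg Complex.im h
    rw [hz] at this
    simp at this
    exact ht this
  have h2t : 0 < |2 * t| := abs_pos.2 (by simpa using ht)
  have hzn : |2 * t| ≤ ‖z‖ := by
    have h1 := Complex.abs_im_le_norm z
    have h2 : z.im = -(2 * t) := by
      rw [hz]
      simp
    rwa [h2, abs_neg] at h1
  rw [g1, norm_mul]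
  have h1 : ‖(1 / z) ^ (1 / 2 : ℂ)‖ ≤ |2 * t| ^ (-(1 / 2) : ℝ) := by
    have e1 : ((1 / 2 : ℂ)) = ((1 / 2 : ℝ) : ℂ) := by push_cast; ring
    rw [e1, Complex.norm_cpow_real, norm_div, norm_one, Real.rpow_neg h2t.le, one_div,
      ← Real.inv_rpow h2t.le]
    exact Real.rpow_le_rpow (by positivity) (inv_anti₀ h2t hzn) (by norm_num)
  have h2 : ‖cexp (-(Real.pi * v ^ 2) / z)‖ ≤ 1 := by
    rw [Complex.norm_exp]
    apply Real.exp_le_one_iff.2
    have e2 : (-(Real.pi * (v : ℂ) ^ 2) / z).re = -(Real.pi * v ^ 2) * (ε / normSq z) := by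
      have : -(Real.pi * (v : ℂ) ^ 2) / z = ((-(Real.pi * v ^ 2) : ℝ) : ℂ) * z⁻¹ := by
        push_cast
        ring
      rw [this, Complex.re_ofReal_mul, Complex.inv_re]
      congr 2
      rw [hz]
      simp
    rw [e2]
    have h3 : 0 ≤ ε / normSq z := div_nonneg hε (normSq_nonneg _)
    have h4 : 0 ≤ Real.pi * v ^ 2 := by positivity
    nlinarith [mul_nonneg h4 h3]
  calc _ ≤ |2 * t| ^ (-(1 / 2) : ℝ) * 1 := mul_le_mul h1 h2 (norm_nonneg _) (by positivity)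
    _ = _ := mul_one _

theorem gm_norm (ε t : ℝ) (v : Fin m → ℝ) (hε : 0 ≤ ε) (ht : t ≠ 0) :
    ‖gm (ε - 2 * t * I) v‖ ≤ |2 * t| ^ (-((m : ℝ) / 2)) := by
  rw [gm, norm_prod]
  calc ∏ i, ‖g1 (ε - 2 * t * I) (v i)‖ ≤ ∏ _i : Fin m, |2 * t| ^ (-(1 / 2) : ℝ) :=
        Finset.prod_le_prod (fun i _ => norm_nonneg _) fun i _ => g1_norm _ _ _ hε ht
    _ = _ := by
        rw [Finset.prod_const, Finset.card_univ, Fintype.card_fin, ← Real.rpow_natCast,
          ← Real.rpow_mul (abs_nonneg _)]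
        congr 1
        ring

theorem g1_lim (t v : ℝ) (ht : t ≠ 0) : Tendsto (fun k : ℕ => g1 (((1 / ((k : ℝ) + 1) : ℝ) : ℂ) - 2 * t * I) v)
    atTop (𝓝 (g1 (((0 : ℝ) : ℂ) - 2 * t * I) v)) := by
  have h0 : Tendsto (fun k : ℕ => ((1 / ((k : ℝ) + 1) : ℝ) : ℂ) - 2 * t * I) atTop
      (𝓝 (((0 : ℝ) : ℂ) - 2 * t * I)) := by
    refine Tendsto.sub_const ?_ _
    exact (Complex.continuous_ofReal.tendsto 0).comp tendsto_one_div_add_atTop_nhds_zero_nat
  have hz0 : (((0 : ℝ) : ℂ) - 2 * t * I) ≠ 0 := by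
    intro h
    have := congrArg Complex.im h
    simp at this
    exact ht this
  have hcont : ContinuousAt (fun z : ℂ => g1 z v) (((0 : ℝ) : ℂ) - 2 * t * I) := by
    unfold g1
    refine ContinuousAt.mul ?_ ?_
    · refine ContinuousAt.cpow ?_ continuousAt_const ?_
      · exact continuousAt_const.div continuousAt_id hz0
      · rw [Complex.mem_slitPlane_iff]
        right
        rw [one_div, Complex.inv_im]
        have : (((0 : ℝ) : ℂ) - 2 * t * I).im = -(2 * t) := by simp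
        rw [this, neg_neg]
        refine div_ne_zero (by simpa using ht) ?_
        rwa [Ne, normSq_eq_zero]
    · exact (continuousAt_const.div continuousAt_id hz0).cexp
  exact hcont.tendsto.comp h0

theorem gm_lim (t : ℝ) (v : Fin m → ℝ) (ht : t ≠ 0) :
    Tendsto (fun k : ℕ => gm (((1 / ((k : ℝ) + 1) : ℝ) : ℂ) - 2 * t * I) v)
    atTop (𝓝 (gm (((0 : ℝ) : ℂ) - 2 * t * I) v)) :=
  tendsto_finsetProd _ fun i _ => g1_lim t (v i) ht

/-- the Gaussian damping factor -/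
noncomputable def dm (ε : ℝ) (ξ : Fin m → ℝ) : ℝ := ∏ i, Real.exp (-(Real.pi * ε * ξ i ^ 2))

theorem dm_le (ε : ℝ) (hε : 0 ≤ ε) (ξ : Fin m → ℝ) : ‖(dm ε ξ : ℂ)‖ ≤ 1 := by
  have h0 : 0 ≤ dm ε ξ := Finset.prod_nonneg fun i _ => (Real.exp_pos _).le
  rw [Complex.norm_real, Real.norm_of_nonneg h0]
  unfold dm
  refine Finset.prod_le_one (fun i _ => (Real.exp_pos _).le) fun i _ => ?_
  apply Real.exp_le_one_iff.2
  have : 0 ≤ Real.pi * ε * ξ i ^ 2 := by positivity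
  linarith

theorem dm_meas (ε : ℝ) : Measurable (dm ε : (Fin m → ℝ) → ℝ) := by
  apply Continuous.measurable
  unfold dm
  fun_prop

theorem dm_int (ε : ℝ) (hε : 0 < ε) : Integrable (fun ξ : Fin m → ℝ => (dm ε ξ : ℂ)) := by
  have h1 : Integrable fun x : ℝ => (Real.exp (-(Real.pi * ε * x ^ 2)) : ℂ) := by
    have h2 := (integrable_exp_neg_mul_sq (b := Real.pi * ε) (by positivity)).ofReal (𝕜 := ℂ)
    refine h2.congr (ae_of_all _ fun x => ?_)
    have e : -(Real.pi * ε * x ^ 2) = -(Real.pi * ε) * x ^ 2 := by ring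
    simp only [e]
    rfl
  have h3 := Integrable.fintype_prod (𝕜 := ℂ) (μ := fun _ : Fin m => (volume : Measure ℝ))
    (f := fun (_ : Fin m) (x : ℝ) => (Real.exp (-(Real.pi * ε * x ^ 2)) : ℂ)) fun _ => h1
  rw [← volume_pi] at h3
  refine h3.congr (ae_of_all _ fun x => ?_)
  simp only [dm]
  push_cast
  rfl

theorem gaussm (ε t : ℝ) (v : Fin m → ℝ) (hε : 0 < ε) :
    ∫ ξ : Fin m → ℝ, (dm ε ξ : ℂ) * em v t ξ = gm (ε - 2 * t * I) v := by
  have e1 : ∀ ξ : Fin m → ℝ, (dm ε ξ : ℂ) * em v t ξ =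
      ∏ i, ((Real.exp (-(Real.pi * ε * ξ i ^ 2)) : ℂ) * qe (v i) t (ξ i)) := by
    intro ξ
    rw [Finset.prod_mul_distrib]
    simp only [dm]
    push_cast
    rfl
  simp only [e1]
  rw [volume_pi, integral_fintype_prod_eq_prod (𝕜 := ℂ)
    (fun i x => (Real.exp (-(Real.pi * ε * x ^ 2)) : ℂ) * qe (v i) t x)]
  unfold gm
  exact Finset.prod_congr rfl fun i _ => gauss1 ε t (v i) hε

end Pool.Agent.Helper969.TS
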