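import Pool.Agent.Helper969.TS.A1
set_option autoImplicit false

/-! The pseudoconformal formula. -/

namespace Pool.Agent.Helper969.TS

open MeasureTheory Set Filter Topology Complex
open scoped ENNReal NNReal
open Pool.Agent.W771.MD (qe em em_norm em_enorm em_cont em_meas planchM)

variable {m : ℕ}

/-- the extension operator -/
noncomputable def W (f : (Fin m → ℝ) → ℂ) (a : ℝ) (x : Fin m → ℝ) : ℂ := ∫ y, f y * em x a y

/-- the Fourier transform of the cut-off -/
noncomputable def ch (φ : (Fin m → ℝ) → ℂ) (ξ : Fin m → ℝ) : ℂ := ∫ z, φ z * em (-z) 0 ξ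

theorem em_exp (x : Fin m → ℝ) (t : ℝ) (y : Fin m → ℝ) :
    em x t y = cexp (2 * Real.pi * I * ((∑ i, (y i * x i + y i ^ 2 * t) : ℝ) : ℂ)) := by
  unfold Pool.Agent.W771.MD.em Pool.Agent.W771.MD.qe
  rw [← Complex.exp_sum]
  congr 1
  push_cast
  rw [Finset.mul_sum]

theorem em_mul (x x' : Fin m → ℝ) (t t' : ℝ) (y : Fin m → ℝ) :
    em x t y * em x' t' y = em (x + x') (t + t') y := by
  rw [em_exp, em_exp, em_exp, ← Complex.exp_add]
  congr 1
  rw [← mul_add, ← Complex.ofReal_add, ← Finset.sum_add_distrib]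
  congr 3
  ext i
  simp only [Pi.add_apply]
  ring

theorem em_swap' (ξ y x : Fin m → ℝ) (a t : ℝ) :
    em ξ a y * em x t ξ = em 0 a y * em (x + y) t ξ := by
  rw [em_exp, em_exp, em_exp, em_exp, ← Complex.exp_add, ← Complex.exp_add]
  congr 1
  rw [← mul_add, ← mul_add, ← Complex.ofReal_add, ← Complex.ofReal_add, ← Finset.sum_add_distrib,
    ← Finset.sum_add_distrib]
  congr 3
  ext i
  simp only [Pi.add_apply, Pi.zero_apply]
  ring

theorem int_em {f : (Fin m → ℝ) → ℂ} (hf : Integrable f) (x : Fin m → ℝ) (t : ℝ) :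
    Integrable fun y => f y * em x t y :=
  hf.mono (hf.1.mul (em_meas x t).aestronglyMeasurable)
    (ae_of_all _ fun v => by rw [norm_mul, em_norm, mul_one])

theorem em_c3 {f1 f3 : ((Fin m → ℝ) × (Fin m → ℝ)) → (Fin m → ℝ)}
    {g : ((Fin m → ℝ) × (Fin m → ℝ)) → ℝ} (h1 : Continuous f1) (h2 : Continuous g)
    (h3 : Continuous f3) : Continuous fun w => em (f1 w) (g w) (f3 w) :=
  em_cont.comp ((h1.prodMk h2).prodMk h3)

/-- the kernel as the transform of the cut-off -/
theorem kernel {φ : (Fin m → ℝ) → ℂ} (hφ : Integrable φ) (hχ : Integrable (ch φ)) (t : ℝ)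
    (ht : t ≠ 0) (w : Fin m → ℝ) :
    ∫ ξ, ch φ ξ * em w t ξ = ∫ z, φ z * gm (((0 : ℝ) : ℂ) - 2 * t * I) (w - z) := by
  have h1 : Tendsto (fun k : ℕ => ∫ ξ, (dm (1 / ((k : ℝ) + 1)) ξ : ℂ) * (ch φ ξ * em w t ξ)) atTop
      (𝓝 (∫ ξ, ch φ ξ * em w t ξ)) := by
    refine tendsto_integral_of_dominated_convergence (fun ξ => ‖ch φ ξ‖) (fun k => ?_) hχ.norm
      (fun k => ae_of_all _ fun ξ => ?_) (ae_of_all _ fun ξ => ?_)
    · exact (Complex.measurable_ofReal.comp (dm_meas _)).aestronglyMeasurable.mul (int_em hχ w t).1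
    · rw [norm_mul, norm_mul, em_norm, mul_one]
      calc _ ≤ 1 * ‖ch φ ξ‖ := mul_le_mul_of_nonneg_right (dm_le _ (by positivity) ξ) (norm_nonneg _)
        _ = _ := one_mul _
    · have h2 : Tendsto (fun k : ℕ => (dm (1 / ((k : ℝ) + 1)) ξ : ℂ)) atTop (𝓝 1) := by
        have hc : Continuous fun ε : ℝ => (dm ε ξ : ℂ) := by
          unfold dm
          fun_prop
        have h3 := (hc.tendsto 0).comp tendsto_one_div_add_atTop_nhds_zero_nat
        have h4 : (dm 0 ξ : ℂ) = 1 := by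
          unfold dm
          simp
        rw [h4] at h3
        exact h3
      have h5 := h2.mul_const (ch φ ξ * em w t ξ)
      rw [one_mul] at h5
      exact h5
  have h2 : Tendsto (fun k : ℕ => ∫ z, φ z * gm (((1 / ((k : ℝ) + 1) : ℝ) : ℂ) - 2 * t * I) (w - z))
      atTop (𝓝 (∫ z, φ z * gm (((0 : ℝ) : ℂ) - 2 * t * I) (w - z))) := by
    have hgmm : ∀ c : ℂ, Measurable fun z : Fin m → ℝ => gm c (w - z) := by
      intro c
      apply Continuous.measurable
      unfold gm g1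
      fun_prop
    refine tendsto_integral_of_dominated_convergence (fun z => ‖φ z‖ * |2 * t| ^ (-((m : ℝ) / 2)))
      (fun k => hφ.1.mul (hgmm _).aestronglyMeasurable) (hφ.norm.mul_const _)
      (fun k => ae_of_all _ fun z => ?_) (ae_of_all _ fun z => ?_)
    · rw [norm_mul]
      exact mul_le_mul_of_nonneg_left (gm_norm _ t _ (by positivity) ht) (norm_nonneg _)
    · exact (gm_lim t (w - z) ht).const_mul _
  refine tendsto_nhds_unique h1 (h2.congr fun k => ?_)
  have hk : (0 : ℝ) < 1 / ((k : ℝ) + 1) := by positivity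
  set ε : ℝ := 1 / ((k : ℝ) + 1) with hε
  have e1 : ∀ ξ, (dm ε ξ : ℂ) * (ch φ ξ * em w t ξ) = ∫ z, φ z * ((dm ε ξ : ℂ) * em (w - z) t ξ) := by
    intro ξ
    rw [ch, ← integral_mul_const, ← integral_const_mul]
    congr 1
    ext z
    have e2 : em (-z) 0 ξ * em w t ξ = em (w - z) t ξ := by
      rw [em_mul]
      congr 1
      · rw [neg_add_eq_sub]
      · rw [zero_add]
    rw [← e2]
    ring
  simp only [e1]
  rw [integral_integral_swap]
  · congr 1
    ext z
    rw [integral_const_mul, gaussm ε t (w - z) hk]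
  · have h3 : Integrable (fun p : (Fin m → ℝ) × (Fin m → ℝ) => (dm ε p.1 : ℂ) * φ p.2)
        ((volume : Measure (Fin m → ℝ)).prod volume) := (dm_int ε hk).mul_prod hφ
    have h4 := h3.1.mul (em_c3 (f1 := fun p : (Fin m → ℝ) × (Fin m → ℝ) => w - p.2)
      (g := fun _ => t) (f3 := fun p => p.1) (by fun_prop) continuous_const
          (by fun_prop)).aestronglyMeasurable
    refine h3.mono (h4.congr (ae_of_all _ fun p => ?_)) (ae_of_all _ fun p => ?_)
    · simp only [Pi.mul_apply, Function.uncurry]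
      ring
    · simp only [Function.uncurry, norm_mul, em_norm]
      apply le_of_eq
      ring

theorem gm_add (t : ℝ) (ht : t ≠ 0) (v y : Fin m → ℝ) :
    gm (((0 : ℝ) : ℂ) - 2 * t * I) (v + y) =
      gm (((0 : ℝ) : ℂ) - 2 * t * I) v * em ((-(2 * t)⁻¹) • v) (-(4 * t)⁻¹) y := by
  unfold gm g1 Pool.Agent.W771.MD.em Pool.Agent.W771.MD.qe
  rw [← Finset.prod_mul_distrib]
  refine Finset.prod_congr rfl fun i _ => ?_
  set c : ℂ := ((0 : ℝ) : ℂ) - 2 * t * I with hc
  rw [mul_assoc, ← Complex.exp_add]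
  congr 2
  rw [hc]
  have ht' : (t : ℂ) ≠ 0 := by exact_mod_cast ht
  simp only [Pi.add_apply, Pi.smul_apply, smul_eq_mul]
  push_cast
  rw [zero_sub]
  field_simp
  ring_nf
  simp only [I_sq]
  ring

/-- **the pseudoconformal formula** -/
theorem pc {f φ : (Fin m → ℝ) → ℂ} (hf : Integrable f) (hφ : Integrable φ)
    (hχ : Integrable (ch φ)) (a t : ℝ) (ht : t ≠ 0) (x : Fin m → ℝ) :
    ∫ ξ, ch φ ξ * W f a ξ * em x t ξ = ∫ z, φ z * (gm (((0 : ℝ) : ℂ) - 2 * t * I) (x - z) *
      W f (a - (4 * t)⁻¹) ((-(2 * t)⁻¹) • (x - z))) := by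
  have e1 : ∀ ξ, ch φ ξ * W f a ξ * em x t ξ =
      ∫ y, (f y * em 0 a y) * (ch φ ξ * em (x + y) t ξ) := by
    intro ξ
    rw [W, ← integral_const_mul, ← integral_mul_const]
    congr 1
    ext y
    have := em_swap' ξ y x a t
    calc ch φ ξ * (f y * em ξ a y) * em x t ξ = ch φ ξ * f y * (em ξ a y * em x t ξ) := by ring
      _ = _ := by
          rw [this]
          ring
  simp only [e1]
  rw [integral_integral_swap]
  · have e2 : ∀ y, ∫ ξ, (f y * em 0 a y) * (ch φ ξ * em (x + y) t ξ) =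
        ∫ z, (f y * em 0 a y) * (φ z * gm (((0 : ℝ) : ℂ) - 2 * t * I) (x + y - z)) := by
      intro y
      rw [integral_const_mul, kernel hφ hχ t ht, ← integral_const_mul]
    simp only [e2]
    rw [integral_integral_swap]
    · congr 1
      ext z
      rw [W, ← integral_const_mul, ← integral_const_mul]
      congr 1
      ext y
      have e3 : x + y - z = (x - z) + y := by abel
      rw [e3, gm_add t ht]
      have e4 : em 0 a y * em ((-(2 * t)⁻¹) • (x - z)) (-(4 * t)⁻¹) y =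
          em ((-(2 * t)⁻¹) • (x - z)) (a - (4 * t)⁻¹) y := by
        rw [em_mul, zero_add, ← sub_eq_add_neg]
      rw [← e4]
      ring
    · have h3 : Integrable (fun p : (Fin m → ℝ) × (Fin m → ℝ) => f p.1 * φ p.2 *
          ((|2 * t| ^ (-((m : ℝ) / 2)) : ℝ) : ℂ))
          ((volume : Measure (Fin m → ℝ)).prod volume) := (hf.mul_prod hφ).mul_const _
      have h5 : Continuous fun p : (Fin m → ℝ) × (Fin m → ℝ) =>
          em 0 a p.1 * gm (((0 : ℝ) : ℂ) - 2 * t * I) (x + p.1 - p.2) := by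
        refine Continuous.mul (em_c3 (f1 := fun _ => 0) (g := fun _ => a) (f3 := fun p => p.1)
          continuous_const continuous_const (by fun_prop)) ?_
        unfold gm g1
        fun_prop
      have h4 := (hf.mul_prod hφ).1.mul h5.aestronglyMeasurable
      refine h3.mono (h4.congr (ae_of_all _ fun p => ?_)) (ae_of_all _ fun p => ?_)
      · simp only [Pi.mul_apply, Function.uncurry]
        ring
      · simp only [Function.uncurry, norm_mul, em_norm, mul_one]
        rw [Complex.norm_real, Real.norm_of_nonneg (by positivity), mul_assoc ‖f p.1‖]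
        refine mul_le_mul_of_nonneg_left ?_ (norm_nonneg _)
        exact mul_le_mul_of_nonneg_left (gm_norm _ _ _ le_rfl ht) (norm_nonneg _)
  · have h3 : Integrable (fun p : (Fin m → ℝ) × (Fin m → ℝ) => ch φ p.1 * f p.2)
        ((volume : Measure (Fin m → ℝ)).prod volume) := hχ.mul_prod hf
    have h5 : Continuous fun p : (Fin m → ℝ) × (Fin m → ℝ) =>
        em 0 a p.2 * em (x + p.2) t p.1 :=
      (em_c3 (f1 := fun _ => 0) (g := fun _ => a) (f3 := fun p => p.2)
        continuous_const continuous_const (by fun_prop)).mul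
        (em_c3 (f1 := fun p : (Fin m → ℝ) × (Fin m → ℝ) => x + p.2) (g := fun _ => t)
        (f3 := fun p => p.1) (by fun_prop) continuous_const (by fun_prop))
    have h4 := h3.1.mul h5.aestronglyMeasurable
    refine h3.mono (h4.congr (ae_of_all _ fun p => ?_)) (ae_of_all _ fun p => ?_)
    · simp only [Pi.mul_apply, Function.uncurry]
      ring
    · simp only [Function.uncurry, norm_mul, em_norm, mul_one]
      apply le_of_eq
      ring

/-- the pointwise inequality -/
theorem pc_le {f φ : (Fin m → ℝ) → ℂ} (hf : Integrable f) (hφ : Integrable φ)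
    (hχ : Integrable (ch φ)) (a t : ℝ) (ht : t ≠ 0) (x : Fin m → ℝ) :
    ‖∫ ξ, ch φ ξ * W f a ξ * em x t ξ‖ₑ ≤ ENNReal.ofReal (|2 * t| ^ (-((m : ℝ) / 2))) *
      ∫⁻ z, ‖φ z‖ₑ * ‖W f (a - (4 * t)⁻¹) ((-(2 * t)⁻¹) • (x - z))‖ₑ := by
  rw [pc hf hφ hχ a t ht x, ← lintegral_const_mul' _ _ ENNReal.ofReal_ne_top]
  refine (enorm_integral_le_lintegral_enorm _).trans (lintegral_mono fun z => ?_)
  simp only
  rw [enorm_mul, enorm_mul]
  have h1 : ‖gm (((0 : ℝ) : ℂ) - 2 * t * I) (x - z)‖ₑ ≤ ENNReal.ofReal (|2 * t| ^ (-((m : ℝ) / 2))) := by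
    rw [← ofReal_norm]
    exact ENNReal.ofReal_le_ofReal (gm_norm _ _ _ le_rfl ht)
  calc _ ≤ ‖φ z‖ₑ * (ENNReal.ofReal (|2 * t| ^ (-((m : ℝ) / 2))) *
        ‖W f (a - (4 * t)⁻¹) ((-(2 * t)⁻¹) • (x - z))‖ₑ) :=
        mul_le_mul' le_rfl (mul_le_mul' h1 le_rfl)
    _ = _ := by ring

end Pool.Agent.Helper969.TS
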