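import Pool.Agent.Helper969.TS.D1
set_option autoImplicit false

/-! The dimension of the set on which a Riesz potential is infinite. -/

namespace Pool.Agent.Helper969.TS

open MeasureTheory Measure Set Metric Filter
open scoped ENNReal NNReal Topology

theorem holderQ {X : Type*} [MeasurableSpace X] (μ : Measure X) (f : X → ℝ≥0∞) (hf : Measurable f)
    (Q : ℝ) (hQ : 1 < Q) : (∫⁻ x, f x ∂μ) ^ Q ≤ (∫⁻ x, f x ^ Q ∂μ) * (μ univ) ^ (Q - 1) := by
  have h0 : 0 < Q := by linarith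
  have hc : Q.HolderConjugate (Q / (Q - 1)) := Real.HolderConjugate.conjExponent hQ
  have h := ENNReal.lintegral_mul_le_Lp_mul_Lq μ hc hf.aemeasurable
    (aemeasurable_const (b := (1 : ℝ≥0∞)))
  simp only [Pi.mul_apply, mul_one, ENNReal.one_rpow, lintegral_const, one_mul] at h
  have h2 := ENNReal.rpow_le_rpow h h0.le
  refine h2.trans (le_of_eq ?_)
  rw [ENNReal.mul_rpow_of_nonneg _ _ h0.le, ← ENNReal.rpow_mul, ← ENNReal.rpow_mul]
  congr 1
  · rw [one_div, inv_mul_cancel₀ h0.ne', ENNReal.rpow_one]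
  · congr 1
    field_simp

theorem le_one_add (x : ℝ≥0∞) (Q : ℝ) (hQ : 1 < Q) : x ≤ 1 + x ^ Q := by
  rcases le_total x 1 with h | h
  · exact h.trans le_self_add
  · refine le_trans ?_ le_add_self
    calc x = x ^ (1 : ℝ) := (ENNReal.rpow_one x).symm
      _ ≤ _ := ENNReal.rpow_le_rpow_of_exponent_le h hQ.le

theorem rgeo (N : ℕ) (b q : ℝ) (hb : b ≤ N) (hq0 : 0 < q) (hq1 : q < 1) :
    Summable fun j : ℕ => ((j : ℝ) + 1) ^ b * q ^ j := by
  have h1 := summable_pow_mul_geometric_of_norm_lt_one N (r := q)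
    (by rw [Real.norm_of_nonneg hq0.le]; exact hq1)
  have h2 := ((summable_nat_add_iff 1).2 h1).mul_right q⁻¹
  refine Summable.of_nonneg_of_le (fun j => by positivity) (fun j => ?_) h2
  have hq : q ≠ 0 := hq0.ne'
  have e : ((((j + 1 : ℕ) : ℝ)) ^ N * q ^ (j + 1)) * q⁻¹ = ((j : ℝ) + 1) ^ N * q ^ j := by
    push_cast
    rw [pow_succ q j]
    field_simp
  rw [e]
  gcongr
  rw [← Real.rpow_natCast]
  exact Real.rpow_le_rpow_of_exponent_le (by
    have : (0 : ℝ) ≤ j := Nat.cast_nonneg j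
    linarith) hb

variable (γ Q : ℝ) (H : ℝ → ℝ≥0∞)

/-- the dyadic averages -/
noncomputable def da (j : ℕ) (x : ℝ) : ℝ≥0∞ :=
  ENNReal.ofReal ((2 : ℝ) ^ (γ * j)) * ∫⁻ T in closedBall x ((1 / 2) ^ j), H T

theorem pot_le (hγ : 0 < γ) (hH : Measurable H) (a : ℝ) :
    ∫⁻ s in Ioo (-(1 / 4) : ℝ) (1 / 4), ENNReal.ofReal ((2 * |s|) ^ (-γ)) * H (a - s) ≤
      ∑' j, da γ H j a := by
  have hm : ∀ j : ℕ, Measurable fun s : ℝ => ENNReal.ofReal ((2 : ℝ) ^ (γ * j)) *
      (closedBall a ((1 / 2) ^ j)).indicator H (a - s) := by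
    intro j
    exact ((hH.indicator measurableSet_closedBall).comp (measurable_const.sub measurable_id)).const_mul _
  calc _ ≤ ∫⁻ s in Ioo (-(1 / 4) : ℝ) (1 / 4), ∑' j : ℕ, ENNReal.ofReal ((2 : ℝ) ^ (γ * j)) *
        (closedBall a ((1 / 2) ^ j)).indicator H (a - s) := by
        refine lintegral_mono_ae ?_
        have h0 : ∀ᵐ s : ℝ ∂(volume.restrict (Ioo (-(1 / 4) : ℝ) (1 / 4))), s ≠ 0 :=
          ae_restrict_of_ae (by
            have : ({0} : Set ℝ)ᶜ ∈ ae (volume : Measure ℝ) := by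
              rw [mem_ae_iff, compl_compl]
              exact Real.volume_singleton
            exact this)
        filter_upwards [h0, ae_restrict_mem measurableSet_Ioo] with s hs hs2
        have hs0 : 0 < |s| := abs_pos.2 hs
        have hs1 : |s| < 1 / 4 := abs_lt.2 hs2
        obtain ⟨j, hj1, hj2⟩ := exists_nat_pow_near_of_lt_one hs0 (by linarith : |s| ≤ 1)
          (by norm_num : (0 : ℝ) < 1 / 2) (by norm_num)
        refine le_trans ?_ (ENNReal.le_tsum j)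
        have hmem : a - s ∈ closedBall a ((1 / 2) ^ j) := by
          rw [mem_closedBall, Real.dist_eq]
          have : a - s - a = -s := by ring
          rw [this, abs_neg]
          exact hj2
        rw [indicator_of_mem hmem]
        gcongr
        have h1 : (1 / 2 : ℝ) ^ j ≤ 2 * |s| := by
          rw [pow_succ] at hj1
          linarith
        calc (2 * |s|) ^ (-γ) ≤ ((1 / 2 : ℝ) ^ j) ^ (-γ) :=
              Real.rpow_le_rpow_of_nonpos (by positivity) h1 (by linarith)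
          _ = (2 : ℝ) ^ (γ * j) := by
              rw [one_div, inv_pow, Real.inv_rpow (by positivity), ← Real.rpow_neg (by positivity),
                neg_neg, ← Real.rpow_natCast 2 j, ← Real.rpow_mul (by norm_num)]
              congr 1
              ring
    _ ≤ ∫⁻ s : ℝ, ∑' j : ℕ, ENNReal.ofReal ((2 : ℝ) ^ (γ * j)) *
        (closedBall a ((1 / 2) ^ j)).indicator H (a - s) := setLIntegral_le_lintegral _ _
    _ = ∑' j : ℕ, ∫⁻ s : ℝ, ENNReal.ofReal ((2 : ℝ) ^ (γ * j)) *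
        (closedBall a ((1 / 2) ^ j)).indicator H (a - s) :=
        lintegral_tsum fun j => (hm j).aemeasurable
    _ = _ := by
        congr 1
        ext j
        have hmj : Measurable fun s : ℝ => (closedBall a ((1 / 2) ^ j)).indicator H (a - s) :=
          (hH.indicator measurableSet_closedBall).comp (measurable_const.sub measurable_id)
        rw [lintegral_const_mul _ hmj,
          lintegral_sub_left_eq_self (fun s => (closedBall a ((1 / 2) ^ j)).indicator H s) a,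
          lintegral_indicator measurableSet_closedBall]
        rfl

theorem ball_vol (x : ℝ) (j : ℕ) : volume (closedBall x ((1 / 2 : ℝ) ^ j)) =
    ENNReal.ofReal (2 * (1 / 2) ^ j) := Real.volume_closedBall _ _

theorem dim_aux (hγ : 0 < γ) (hQ : 1 < Q) (hH : Measurable H) (R : ℝ)
    (hloc : ∫⁻ T in Icc (-(R + 1)) (R + 1), H T ^ Q ≠ ⊤) (α : ℝ≥0) (hα : 1 - Q * (1 - γ) < α) :
    dimH {a : ℝ | a ∈ Icc (-R) R ∧
      ∫⁻ s in Ioo (-(1 / 4) : ℝ) (1 / 4), ENNReal.ofReal ((2 * |s|) ^ (-γ)) * H (a - s) = ⊤} ≤ α := by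
  have hQ0 : 0 < Q := by linarith
  set M := ∫⁻ T in Icc (-(R + 1)) (R + 1), H T ^ Q with hM
  have hsub : ∀ (j : ℕ) (x : ℝ), x ∈ Icc (-R) R →
      closedBall x ((1 / 2 : ℝ) ^ j) ⊆ Icc (-(R + 1)) (R + 1) := by
    intro j x hx y hy
    rw [mem_closedBall, Real.dist_eq, abs_le] at hy
    have h1 : (1 / 2 : ℝ) ^ j ≤ 1 := pow_le_one₀ (by norm_num) (by norm_num)
    constructor <;> linarith [hx.1, hx.2, hy.1, hy.2]
  have key : ∀ (j : ℕ) (x : ℝ), x ∈ Icc (-R) R → (da γ H j x) ^ Q ≤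
      ENNReal.ofReal ((2 : ℝ) ^ (γ * j * Q) * (2 * (1 / 2) ^ j) ^ (Q - 1)) *
        ∫⁻ T in closedBall x ((1 / 2) ^ j), H T ^ Q := by
    intro j x _
    have h1 := holderQ (volume.restrict (closedBall x ((1 / 2 : ℝ) ^ j))) H hH Q hQ
    rw [Measure.restrict_apply_univ, ball_vol] at h1
    unfold da
    rw [ENNReal.mul_rpow_of_nonneg _ _ hQ0.le]
    refine (mul_le_mul' le_rfl h1).trans (le_of_eq ?_)
    rw [ENNReal.ofReal_rpow_of_nonneg (by positivity) hQ0.le,
      ENNReal.ofReal_rpow_of_nonneg (by positivity) (by linarith),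
      ENNReal.ofReal_mul (by positivity), ← Real.rpow_mul (by norm_num)]
    ring
  have hgeo : (2 : ℝ) ^ (1 - Q * (1 - γ) - α) < 1 :=
    Real.rpow_lt_one_of_one_lt_of_neg (by norm_num) (by linarith)
  refine dim_abs _ (da γ H) α Q hQ0.le
    (fun j => ENNReal.ofReal ((2 : ℝ) ^ (γ * j * Q) * (2 * (1 / 2) ^ j) ^ (Q - 1)) * M) ?_ ?_ ?_ ?_ ?_
  · rintro j x ⟨hx, -⟩ h
    have h1 := key j x hx
    rw [h, ENNReal.top_rpow_of_pos hQ0, top_le_iff] at h1
    refine ENNReal.mul_ne_top ENNReal.ofReal_ne_top (ne_top_of_le_ne_top hloc ?_) h1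
    exact lintegral_mono_set (hsub j x hx)
  · intro j
    exact ENNReal.mul_ne_top ENNReal.ofReal_ne_top hloc
  · intro j A h1 h2
    have h3 : (A.card : ℝ≥0∞) * wj j ^ Q ≤ ∑ x ∈ A, (da γ H j x) ^ Q := by
      rw [← nsmul_eq_mul, ← Finset.sum_const]
      exact Finset.sum_le_sum fun x hx => ENNReal.rpow_le_rpow (h1 x hx).2 hQ0.le
    refine h3.trans ?_
    calc ∑ x ∈ A, (da γ H j x) ^ Q ≤ ∑ x ∈ A,
          ENNReal.ofReal ((2 : ℝ) ^ (γ * j * Q) * (2 * (1 / 2) ^ j) ^ (Q - 1)) *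
            ∫⁻ T in closedBall x ((1 / 2) ^ j), H T ^ Q :=
          Finset.sum_le_sum fun x hx => key j x (h1 x hx).1.1
      _ = ENNReal.ofReal ((2 : ℝ) ^ (γ * j * Q) * (2 * (1 / 2) ^ j) ^ (Q - 1)) *
            ∫⁻ T in ⋃ x ∈ A, closedBall x ((1 / 2) ^ j), H T ^ Q := by
          rw [← Finset.mul_sum, lintegral_biUnion_finset]
          · intro x hx y hy hxy
            have h4 := h2 x hx y hy hxy
            refine closedBall_disjoint_closedBall ?_
            refine lt_of_eq_of_lt ?_ h4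
            rw [one_div, inv_pow]
            ring
          · exact fun x _ => measurableSet_closedBall
      _ ≤ _ := by
          refine mul_le_mul' le_rfl (lintegral_mono_set ?_)
          exact iUnion₂_subset fun x hx => hsub j x (h1 x hx).1.1
  · have h1 : ∀ j : ℕ, ENNReal.ofReal ((2 : ℝ) ^ (γ * j * Q) * (2 * (1 / 2) ^ j) ^ (Q - 1)) * M *
        (wj j ^ Q)⁻¹ * ENNReal.ofReal (4 / (2 : ℝ) ^ j) ^ (α : ℝ) =
        M * ENNReal.ofReal ((2 : ℝ) ^ (Q - 1) * (4 : ℝ) ^ (α : ℝ)) *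
          ENNReal.ofReal (((j : ℝ) + 1) ^ (2 * Q) * ((2 : ℝ) ^ (1 - Q * (1 - γ) - α)) ^ j) := by
      intro j
      have hw : (wj j ^ Q)⁻¹ = ENNReal.ofReal (((j : ℝ) + 1) ^ (2 * Q)) := by
        unfold wj
        rw [ENNReal.ofReal_rpow_of_nonneg (by positivity) hQ0.le,
          ← ENNReal.ofReal_inv_of_pos (by positivity)]
        congr 1
        rw [one_div, Real.inv_rpow (by positivity), inv_inv, ← Real.rpow_natCast,
          ← Real.rpow_mul (by positivity)]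
        norm_num
      rw [hw, ENNReal.ofReal_rpow_of_nonneg (by positivity) α.coe_nonneg]
      have e : ((2 : ℝ) ^ (γ * j * Q) * (2 * (1 / 2) ^ j) ^ (Q - 1)) * (((j : ℝ) + 1) ^ (2 * Q)) *
          (4 / (2 : ℝ) ^ j) ^ (α : ℝ) = ((2 : ℝ) ^ (Q - 1) * (4 : ℝ) ^ (α : ℝ)) *
          (((j : ℝ) + 1) ^ (2 * Q) * ((2 : ℝ) ^ (1 - Q * (1 - γ) - α)) ^ j) := by
        have e1 : (2 * (1 / 2 : ℝ) ^ j) ^ (Q - 1) = (2 : ℝ) ^ (Q - 1) * (2 : ℝ) ^ (-(j : ℝ) * (Q - 1)) := by
          rw [Real.mul_rpow (by norm_num) (by positivity), one_div, inv_pow,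
            ← Real.rpow_natCast 2 j, ← Real.rpow_neg (by norm_num), ← Real.rpow_mul (by norm_num)]
        have e2 : (4 / (2 : ℝ) ^ j) ^ (α : ℝ) = (4 : ℝ) ^ (α : ℝ) * (2 : ℝ) ^ (-(j : ℝ) * α) := by
          rw [Real.div_rpow (by norm_num) (by positivity), div_eq_mul_inv,
            ← Real.rpow_natCast 2 j, ← Real.rpow_mul (by norm_num), ← Real.rpow_neg (by norm_num)]
          congr 2
          ring
        have e3 : ((2 : ℝ) ^ (1 - Q * (1 - γ) - α)) ^ j =
            (2 : ℝ) ^ (γ * j * Q) * (2 : ℝ) ^ (-(j : ℝ) * (Q - 1)) * (2 : ℝ) ^ (-(j : ℝ) * α) := by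
          rw [← Real.rpow_natCast, ← Real.rpow_mul (by norm_num), ← Real.rpow_add (by norm_num),
            ← Real.rpow_add (by norm_num)]
          congr 1
          ring
        rw [e1, e2, e3]
        ring
      calc _ = M * (ENNReal.ofReal ((2 : ℝ) ^ (γ * j * Q) * (2 * (1 / 2) ^ j) ^ (Q - 1)) *
            ENNReal.ofReal (((j : ℝ) + 1) ^ (2 * Q)) *
            ENNReal.ofReal ((4 / (2 : ℝ) ^ j) ^ (α : ℝ))) := by ring
        _ = _ := by
            rw [← ENNReal.ofReal_mul (by positivity), ← ENNReal.ofReal_mul (by positivity), e,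
              ENNReal.ofReal_mul (by positivity), mul_assoc]
    simp_rw [h1]
    rw [ENNReal.tsum_mul_left]
    refine ENNReal.mul_ne_top (ENNReal.mul_ne_top hloc ENNReal.ofReal_ne_top) ?_
    obtain ⟨N, hN⟩ := exists_nat_ge (2 * Q)
    exact (rgeo N (2 * Q) _ hN (by positivity) hgeo).tsum_ofReal_ne_top
  · rintro x ⟨-, hx⟩
    rw [← top_le_iff, ← hx]
    exact pot_le γ H hγ hH x

/-- **the dimension of the set on which a Riesz potential is infinite** -/
theorem dim_pot (hγ : 0 < γ) (hQ : 1 < Q) (hH : Measurable H)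
    (hloc : ∀ R : ℝ, ∫⁻ T in Icc (-R) R, H T ^ Q ≠ ⊤) :
    dimH {a : ℝ |
      ∫⁻ s in Ioo (-(1 / 4) : ℝ) (1 / 4), ENNReal.ofReal ((2 * |s|) ^ (-γ)) * H (a - s) = ⊤} ≤
      ENNReal.ofReal (1 - Q * (1 - γ)) := by
  have e : {a : ℝ |
      ∫⁻ s in Ioo (-(1 / 4) : ℝ) (1 / 4), ENNReal.ofReal ((2 * |s|) ^ (-γ)) * H (a - s) = ⊤} =
      ⋃ R : ℕ, {a : ℝ | a ∈ Icc (-(R : ℝ)) R ∧
      ∫⁻ s in Ioo (-(1 / 4) : ℝ) (1 / 4), ENNReal.ofReal ((2 * |s|) ^ (-γ)) * H (a - s) = ⊤} := by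
    ext a
    simp only [mem_setOf_eq, mem_iUnion]
    constructor
    · intro h
      obtain ⟨R, hR⟩ := exists_nat_ge |a|
      exact ⟨R, abs_le.1 hR, h⟩
    · rintro ⟨R, -, h⟩
      exact h
  rw [e, dimH_iUnion]
  refine iSup_le fun R => ENNReal.le_of_forall_pos_le_add fun ε hε _ => ?_
  have h1 := dim_aux γ Q H hγ hQ hH R (hloc _) (Real.toNNReal (1 - Q * (1 - γ)) + ε) (by
    rw [NNReal.coe_add]
    have h2 := Real.le_coe_toNNReal (1 - Q * (1 - γ))
    have h3 : (0 : ℝ) < ε := by exact_mod_cast hε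
    linarith)
  refine h1.trans (le_of_eq ?_)
  rw [ENNReal.coe_add]
  rfl

end Pool.Agent.Helper969.TS
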