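import Pool.Agent.Helper969.TS.A2
import Pool.Agent.Helper969.TS.D2
set_option autoImplicit false

/-! Solutions with square integrable data. -/

namespace Pool.Agent.Helper969.TS

open MeasureTheory Set Filter Topology Complex
open scoped ENNReal NNReal
open Pool.Agent.W771.MD (qe em em_norm em_enorm em_cont em_meas planchM)

variable {m : ℕ}

/-- the cube -/
def cube (m : ℕ) (N : ℕ) : Set (Fin m → ℝ) := Icc (fun _ => -(N : ℝ)) (fun _ => (N : ℝ))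

/-- the truncation of the data -/
noncomputable def fN (f : (Fin m → ℝ) → ℂ) (N : ℕ) : (Fin m → ℝ) → ℂ := (cube m N).indicator f

/-- the solution with data `f` -/
def Sol (f : (Fin m → ℝ) → ℂ) (u : ℝ → (Fin m → ℝ) → ℂ) : Prop :=
  (∀ a, Measurable (u a)) ∧
    ∀ a, Tendsto (fun N : ℕ => ∫⁻ x, ‖u a x - W (fN f N) a x‖ₑ ^ 2) atTop (𝓝 0)

theorem cube_meas (N : ℕ) : MeasurableSet (cube m N) := measurableSet_Icc

theorem cube_fin (N : ℕ) : volume (cube m N) ≠ ⊤ := by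
  unfold cube
  exact isCompact_Icc.measure_lt_top.ne

theorem fN_meas {f : (Fin m → ℝ) → ℂ} (hf : Measurable f) (N : ℕ) : Measurable (fN f N) :=
  hf.indicator (cube_meas N)

theorem fN_le (f : (Fin m → ℝ) → ℂ) (N : ℕ) (x : Fin m → ℝ) : ‖fN f N x‖ₑ ≤ ‖f x‖ₑ := by
  unfold fN
  by_cases h : x ∈ cube m N
  · rw [indicator_of_mem h]
  · rw [indicator_of_notMem h]
    simp

theorem sq_memLp (g : (Fin m → ℝ) → ℂ) (hg : Measurable g) (h : ∫⁻ x, ‖g x‖ₑ ^ 2 ≠ ⊤) :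
    MemLp g 2 := by
  refine ⟨hg.aestronglyMeasurable, ?_⟩
  rw [eLpNorm_lt_top_iff_lintegral_rpow_enorm_lt_top (by norm_num) (by norm_num)]
  simp only [ENNReal.toReal_ofNat, ENNReal.rpow_ofNat]
  exact lt_top_iff_ne_top.2 h

theorem fN_sq (f : (Fin m → ℝ) → ℂ) (h : ∫⁻ x, ‖f x‖ₑ ^ 2 ≠ ⊤) (N : ℕ) :
    ∫⁻ x, ‖fN f N x‖ₑ ^ 2 ≠ ⊤ :=
  ne_top_of_le_ne_top h (lintegral_mono fun x => pow_le_pow_left' (fN_le f N x) 2)

theorem fN_int {f : (Fin m → ℝ) → ℂ} (hf : Measurable f) (h : ∫⁻ x, ‖f x‖ₑ ^ 2 ≠ ⊤) (N : ℕ) :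
    Integrable (fN f N) := by
  unfold fN
  rw [integrable_indicator_iff (cube_meas N)]
  have : IsFiniteMeasure ((volume : Measure (Fin m → ℝ)).restrict (cube m N)) := ⟨by
    rw [Measure.restrict_apply_univ]
    exact lt_top_iff_ne_top.2 (cube_fin N)⟩
  exact ((sq_memLp f hf h).restrict (cube m N)).integrable (by norm_num)

theorem W_meas2 {f : (Fin m → ℝ) → ℂ} (hf : Measurable f) :
    Measurable fun z : ℝ × (Fin m → ℝ) => W f z.1 z.2 := by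
  apply StronglyMeasurable.measurable
  apply StronglyMeasurable.integral_prod_right'
    (f := fun b : (ℝ × (Fin m → ℝ)) × (Fin m → ℝ) => f b.2 * em b.1.2 b.1.1 b.2)
  apply Measurable.stronglyMeasurable
  apply Measurable.mul
  · exact hf.comp measurable_snd
  · exact em_cont.measurable.comp
      (show Measurable fun b : (ℝ × (Fin m → ℝ)) × (Fin m → ℝ) => ((b.1.2, b.1.1), b.2) by fun_prop)

theorem W_meas {f : (Fin m → ℝ) → ℂ} (hf : Measurable f) (a : ℝ) : Measurable (W f a) := by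
  apply StronglyMeasurable.measurable
  apply StronglyMeasurable.integral_prod_right'
    (f := fun b : (Fin m → ℝ) × (Fin m → ℝ) => f b.2 * em b.1 a b.2)
  apply Measurable.stronglyMeasurable
  apply Measurable.mul
  · exact hf.comp measurable_snd
  · exact em_cont.measurable.comp
      (show Measurable fun b : (Fin m → ℝ) × (Fin m → ℝ) => ((b.1, a), b.2) by fun_prop)

theorem W_planch {f : (Fin m → ℝ) → ℂ} (h1 : Integrable f) (h2 : MemLp f 2) (t : ℝ) :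
    ∫⁻ x, ‖W f t x‖ₑ ^ 2 = ∫⁻ x, ‖f x‖ₑ ^ 2 := planchM f h1 h2 t

theorem cs2 {X : Type*} [MeasurableSpace X] (μ : Measure X) (f g : X → ℝ≥0∞) (hf : AEMeasurable f μ)
    (hg : AEMeasurable g μ) : ∫⁻ x, f x * g x ∂μ ≤
      (∫⁻ x, f x ^ 2 ∂μ) ^ (1 / 2 : ℝ) * (∫⁻ x, g x ^ 2 ∂μ) ^ (1 / 2 : ℝ) := by
  have h := ENNReal.lintegral_mul_le_Lp_mul_Lq μ Real.HolderConjugate.two_two hf hg
  simp only [Pi.mul_apply, ENNReal.rpow_ofNat] at h
  exact h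

theorem tri2 {X : Type*} [MeasurableSpace X] (μ : Measure X) (f g h : X → ℝ≥0∞)
    (hg : AEMeasurable g μ) (hh : AEMeasurable h μ) (hle : ∀ x, f x ≤ g x + h x) :
    (∫⁻ x, f x ^ 2 ∂μ) ^ (1 / 2 : ℝ) ≤
      (∫⁻ x, g x ^ 2 ∂μ) ^ (1 / 2 : ℝ) + (∫⁻ x, h x ^ 2 ∂μ) ^ (1 / 2 : ℝ) := by
  have h1 := ENNReal.lintegral_Lp_add_le hg hh (p := 2) (by norm_num)
  simp only [Pi.add_apply, ENNReal.rpow_ofNat] at h1
  refine le_trans (ENNReal.rpow_le_rpow (lintegral_mono fun x => ?_) (by norm_num)) h1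
  exact pow_le_pow_left' (hle x) 2

theorem root_lim (d : ℕ → ℝ≥0∞) (h : Tendsto d atTop (𝓝 0)) :
    Tendsto (fun N => d N ^ (1 / 2 : ℝ)) atTop (𝓝 0) := by
  have h1 := (ENNReal.continuous_rpow_const (y := (1 / 2 : ℝ))).tendsto 0
  rw [ENNReal.zero_rpow_of_pos (by norm_num)] at h1
  exact h1.comp h

theorem W_sub {f g : (Fin m → ℝ) → ℂ} (hf : Integrable f) (hg : Integrable g) (a : ℝ)
    (x : Fin m → ℝ) : W f a x - W g a x = W (fun y => f y - g y) a x := by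
  unfold W
  rw [← integral_sub (int_em hf x a) (int_em hg x a)]
  congr 1
  ext y
  ring

/-- the solutions are close to those with truncated data -/
theorem sol_close {f : (Fin m → ℝ) → ℂ} (hf : Measurable f) (h2 : ∫⁻ x, ‖f x‖ₑ ^ 2 ≠ ⊤)
    {u : ℝ → (Fin m → ℝ) → ℂ} (hu : Sol f u) (a : ℝ) (N : ℕ) :
    ∫⁻ x, ‖u a x - W (fN f N) a x‖ₑ ^ 2 ≤ ∫⁻ x, ‖f x - fN f N x‖ₑ ^ 2 := by
  have key : ∀ N' : ℕ, N ≤ N' → (∫⁻ x, ‖u a x - W (fN f N) a x‖ₑ ^ 2) ^ (1 / 2 : ℝ) ≤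
      (∫⁻ x, ‖u a x - W (fN f N') a x‖ₑ ^ 2) ^ (1 / 2 : ℝ) +
        (∫⁻ x, ‖f x - fN f N x‖ₑ ^ 2) ^ (1 / 2 : ℝ) := by
    intro N' hN
    have hi := fN_int hf h2 N
    have hi' := fN_int hf h2 N'
    have h3 := tri2 volume (fun x => ‖u a x - W (fN f N) a x‖ₑ)
      (fun x => ‖u a x - W (fN f N') a x‖ₑ) (fun x => ‖W (fN f N') a x - W (fN f N) a x‖ₑ)
      ((hu.1 a).sub (W_meas (fN_meas hf N') a)).enorm.aemeasurable
      ((W_meas (fN_meas hf N') a).sub (W_meas (fN_meas hf N) a)).enorm.aemeasurable (fun x => by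
        have : u a x - W (fN f N) a x =
          (u a x - W (fN f N') a x) + (W (fN f N') a x - W (fN f N) a x) := by ring
        rw [this]
        exact enorm_add_le _ _)
    refine h3.trans (add_le_add le_rfl (ENNReal.rpow_le_rpow ?_ (by norm_num)))
    have e1 : ∫⁻ x, ‖W (fN f N') a x - W (fN f N) a x‖ₑ ^ 2 =
        ∫⁻ x, ‖fN f N' x - fN f N x‖ₑ ^ 2 := by
      simp only [W_sub hi' hi]
      exact W_planch (hi'.sub hi) ((sq_memLp _ (fN_meas hf N') (fN_sq f h2 N')).sub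
        (sq_memLp _ (fN_meas hf N) (fN_sq f h2 N))) a
    rw [e1]
    refine lintegral_mono fun x => pow_le_pow_left' ?_ 2
    unfold fN
    by_cases h : x ∈ cube m N
    · have h' : x ∈ cube m N' := by
        refine Icc_subset_Icc ?_ ?_ h
        · intro i
          simp only [neg_le_neg_iff]
          exact_mod_cast hN
        · intro i
          simp only
          exact_mod_cast hN
      rw [indicator_of_mem h, indicator_of_mem h']
    · rw [indicator_of_notMem h, sub_zero, sub_zero]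
      exact fN_le f N' x
  have hlim := (root_lim _ (hu.2 a)).add_const ((∫⁻ x, ‖f x - fN f N x‖ₑ ^ 2) ^ (1 / 2 : ℝ))
  rw [zero_add] at hlim
  have h4 := ge_of_tendsto hlim (eventually_atTop.2 ⟨N, key⟩)
  have h5 := ENNReal.rpow_le_rpow h4 (by norm_num : (0 : ℝ) ≤ 2)
  rw [← ENNReal.rpow_mul, ← ENNReal.rpow_mul] at h5
  norm_num at h5
  exact h5

theorem sol_norm {f : (Fin m → ℝ) → ℂ} (hf : Measurable f) (h2 : ∫⁻ x, ‖f x‖ₑ ^ 2 ≠ ⊤)
    {u : ℝ → (Fin m → ℝ) → ℂ} (hu : Sol f u) (a : ℝ) :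
    ∫⁻ x, ‖u a x‖ₑ ^ 2 ≤ ∫⁻ x, ‖f x‖ₑ ^ 2 := by
  have key : ∀ N : ℕ, (∫⁻ x, ‖u a x‖ₑ ^ 2) ^ (1 / 2 : ℝ) ≤
      (∫⁻ x, ‖u a x - W (fN f N) a x‖ₑ ^ 2) ^ (1 / 2 : ℝ) + (∫⁻ x, ‖f x‖ₑ ^ 2) ^ (1 / 2 : ℝ) := by
    intro N
    have h3 := tri2 volume (fun x => ‖u a x‖ₑ)
      (fun x => ‖u a x - W (fN f N) a x‖ₑ) (fun x => ‖W (fN f N) a x‖ₑ)
      ((hu.1 a).sub (W_meas (fN_meas hf N) a)).enorm.aemeasurable
      (W_meas (fN_meas hf N) a).enorm.aemeasurable (fun x => by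
        have : u a x = (u a x - W (fN f N) a x) + W (fN f N) a x := by ring
        calc ‖u a x‖ₑ = ‖(u a x - W (fN f N) a x) + W (fN f N) a x‖ₑ := by rw [← this]
          _ ≤ _ := enorm_add_le _ _)
    refine h3.trans (add_le_add le_rfl (ENNReal.rpow_le_rpow ?_ (by norm_num)))
    rw [W_planch (fN_int hf h2 N) (sq_memLp _ (fN_meas hf N) (fN_sq f h2 N))]
    exact lintegral_mono fun x => pow_le_pow_left' (fN_le f N x) 2
  have hlim := (root_lim _ (hu.2 a)).add_const ((∫⁻ x, ‖f x‖ₑ ^ 2) ^ (1 / 2 : ℝ))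
  rw [zero_add] at hlim
  have h4 := ge_of_tendsto' hlim key
  have h5 := ENNReal.rpow_le_rpow h4 (by norm_num : (0 : ℝ) ≤ 2)
  rw [← ENNReal.rpow_mul, ← ENNReal.rpow_mul] at h5
  norm_num at h5
  exact h5

theorem scale (G : (Fin m → ℝ) → ℝ≥0∞) (hG : Measurable G) (r : ℝ) (hr : r ≠ 0) :
    ∫⁻ z, G (r • z) = ENNReal.ofReal |(r ^ m)⁻¹| * ∫⁻ z, G z := by
  have h := Measure.map_addHaar_smul (volume : Measure (Fin m → ℝ)) hr
  rw [Module.finrank_fin_fun] at h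
  rw [← lintegral_map (μ := volume) hG (measurable_const_smul r), h, lintegral_smul_measure]
  rfl

theorem scale_sub (G : (Fin m → ℝ) → ℝ≥0∞) (hG : Measurable G) (t : ℝ) (ht : t ≠ 0)
    (x : Fin m → ℝ) :
    ∫⁻ z, G ((-(2 * t)⁻¹) • (x - z)) = ENNReal.ofReal (|2 * t| ^ m) * ∫⁻ z, G z := by
  rw [lintegral_sub_left_eq_self (fun z => G ((-(2 * t)⁻¹) • z)) x,
    scale G hG _ (by
      rw [neg_ne_zero]
      exact inv_ne_zero (by simpa using ht))]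
  congr 2
  rw [abs_inv, abs_pow, abs_neg, abs_inv, inv_pow, inv_inv]

/-- the pointwise inequality for square integrable data -/
theorem pc_sol {f φ : (Fin m → ℝ) → ℂ} (hf : Measurable f) (h2 : ∫⁻ x, ‖f x‖ₑ ^ 2 ≠ ⊤)
    (hφm : Measurable φ) (hφ : Integrable φ) (hφ2 : ∫⁻ x, ‖φ x‖ₑ ^ 2 ≠ ⊤)
    (hχ : Integrable (ch φ)) (hχ2 : ∫⁻ x, ‖ch φ x‖ₑ ^ 2 ≠ ⊤)
    {u : ℝ → (Fin m → ℝ) → ℂ} (hu : Sol f u) (a t : ℝ) (ht : t ≠ 0) (x : Fin m → ℝ) :
    ‖∫ ξ, ch φ ξ * u a ξ * em x t ξ‖ₑ ≤ ENNReal.ofReal (|2 * t| ^ (-((m : ℝ) / 2))) *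
      ∫⁻ z, ‖φ z‖ₑ * ‖u (a - (4 * t)⁻¹) ((-(2 * t)⁻¹) • (x - z))‖ₑ := by
  set T : ℝ := a - (4 * t)⁻¹ with hT
  set r : ℝ := -(2 * t)⁻¹ with hr
  set c := ENNReal.ofReal (|2 * t| ^ (-((m : ℝ) / 2))) with hc
  have hua : MemLp (u a) 2 := sq_memLp _ (hu.1 a)
    (ne_top_of_le_ne_top h2 (sol_norm hf h2 hu a))
  have hχm : AEStronglyMeasurable (ch φ) volume := hχ.1
  have hχL : MemLp (ch φ) 2 := by
    refine ⟨hχm, ?_⟩
    rw [eLpNorm_lt_top_iff_lintegral_rpow_enorm_lt_top (by norm_num) (by norm_num)]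
    simp only [ENNReal.toReal_ofNat, ENNReal.rpow_ofNat]
    exact lt_top_iff_ne_top.2 hχ2
  have key : ∀ N : ℕ, ‖∫ ξ, ch φ ξ * u a ξ * em x t ξ‖ₑ ≤
      (∫⁻ x, ‖ch φ x‖ₑ ^ 2) ^ (1 / 2 : ℝ) * (∫⁻ x, ‖u a x - W (fN f N) a x‖ₑ ^ 2) ^ (1 / 2 : ℝ) +
      (c * (∫⁻ z, ‖φ z‖ₑ * ‖u T (r • (x - z))‖ₑ) +
        c * ((∫⁻ x, ‖φ x‖ₑ ^ 2) ^ (1 / 2 : ℝ) * (ENNReal.ofReal (|2 * t| ^ m)) ^ (1 / 2 : ℝ)) *
          (∫⁻ x, ‖u T x - W (fN f N) T x‖ₑ ^ 2) ^ (1 / 2 : ℝ)) := by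
    intro N
    have hi := fN_int hf h2 N
    have hWm := fun s : ℝ => W_meas (fN_meas hf N) s
    have hWL : MemLp (W (fN f N) a) 2 := by
      refine sq_memLp _ (hWm a) ?_
      rw [W_planch hi (sq_memLp _ (fN_meas hf N) (fN_sq f h2 N))]
      exact fN_sq f h2 N
    have i1 : Integrable fun ξ => ch φ ξ * (u a ξ - W (fN f N) a ξ) * em x t ξ :=
      int_em (f := fun ξ => ch φ ξ * (u a ξ - W (fN f N) a ξ))
        (hχL.integrable_mul (hua.sub hWL)) x t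
    have i2 : Integrable fun ξ => ch φ ξ * W (fN f N) a ξ * em x t ξ :=
      int_em (f := fun ξ => ch φ ξ * W (fN f N) a ξ) (hχL.integrable_mul hWL) x t
    have e1 : ∫ ξ, ch φ ξ * u a ξ * em x t ξ = (∫ ξ, ch φ ξ * (u a ξ - W (fN f N) a ξ) * em x t ξ) +
        ∫ ξ, ch φ ξ * W (fN f N) a ξ * em x t ξ := by
      rw [← integral_add i1 i2]
      congr 1
      ext ξ
      ring
    rw [e1]
    refine (enorm_add_le _ _).trans (add_le_add ?_ ?_)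
    · refine (enorm_integral_le_lintegral_enorm _).trans ?_
      simp only [enorm_mul, em_enorm, mul_one]
      exact cs2 volume (fun ξ => ‖ch φ ξ‖ₑ) (fun ξ => ‖u a ξ - W (fN f N) a ξ‖ₑ)
        hχm.enorm ((hu.1 a).sub (hWm a)).enorm.aemeasurable
    · refine (pc_le hi hφ hχ a t ht x).trans ?_
      rw [← hT, ← hr, ← hc, mul_assoc c, ← mul_add]
      refine mul_le_mul' le_rfl ?_
      have hsm : Measurable fun z : Fin m → ℝ => r • (x - z) := by fun_prop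
      calc ∫⁻ z, ‖φ z‖ₑ * ‖W (fN f N) T (r • (x - z))‖ₑ ≤
          ∫⁻ z, (‖φ z‖ₑ * ‖u T (r • (x - z))‖ₑ +
            ‖φ z‖ₑ * ‖u T (r • (x - z)) - W (fN f N) T (r • (x - z))‖ₑ) := by
            refine lintegral_mono fun z => ?_
            rw [← mul_add]
            refine mul_le_mul' le_rfl ?_
            have : W (fN f N) T (r • (x - z)) = u T (r • (x - z)) -
              (u T (r • (x - z)) - W (fN f N) T (r • (x - z))) := by ring
            calc ‖W (fN f N) T (r • (x - z))‖ₑ = ‖u T (r • (x - z)) -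
              (u T (r • (x - z)) - W (fN f N) T (r • (x - z)))‖ₑ := by rw [← this]
              _ ≤ _ := enorm_sub_le
        _ = (∫⁻ z, ‖φ z‖ₑ * ‖u T (r • (x - z))‖ₑ) +
            ∫⁻ z, ‖φ z‖ₑ * ‖u T (r • (x - z)) - W (fN f N) T (r • (x - z))‖ₑ :=
            lintegral_add_left (hφm.enorm.mul ((hu.1 T).comp hsm).enorm) _
        _ ≤ _ := by
            refine add_le_add le_rfl ?_
            refine (cs2 volume (fun z => ‖φ z‖ₑ)
              (fun z => ‖u T (r • (x - z)) - W (fN f N) T (r • (x - z))‖ₑ) hφm.enorm.aemeasurable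
              (((hu.1 T).sub (hWm T)).comp hsm).enorm.aemeasurable).trans ?_
            have e2 := scale_sub (fun y => ‖u T y - W (fN f N) T y‖ₑ ^ 2)
              (((hu.1 T).sub (hWm T)).enorm.pow_const 2) t ht x
            rw [← hr] at e2
            rw [e2, ENNReal.mul_rpow_of_nonneg _ _ (by norm_num)]
            apply le_of_eq
            ring
  have hct : c ≠ ⊤ := ENNReal.ofReal_ne_top
  have hl1 := ENNReal.Tendsto.const_mul (a := (∫⁻ x, ‖ch φ x‖ₑ ^ 2) ^ (1 / 2 : ℝ))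
    (root_lim _ (hu.2 a)) (Or.inr (ENNReal.rpow_ne_top_of_nonneg (by norm_num) hχ2))
  have hl2 := ENNReal.Tendsto.const_mul (a := c * ((∫⁻ x, ‖φ x‖ₑ ^ 2) ^ (1 / 2 : ℝ) *
    (ENNReal.ofReal (|2 * t| ^ m)) ^ (1 / 2 : ℝ)))
    (root_lim _ (hu.2 T)) (Or.inr (ENNReal.mul_ne_top hct (ENNReal.mul_ne_top
      (ENNReal.rpow_ne_top_of_nonneg (by norm_num) hφ2)
      (ENNReal.rpow_ne_top_of_nonneg (by norm_num) ENNReal.ofReal_ne_top))))
  rw [mul_zero] at hl1 hl2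
  have hl3 := hl1.add ((tendsto_const_nhds (x := c * (∫⁻ z, ‖φ z‖ₑ * ‖u T (r • (x - z))‖ₑ))).add hl2)
  rw [zero_add, add_zero] at hl3
  exact ge_of_tendsto' hl3 key

end Pool.Agent.Helper969.TS
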