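import Pool.Agent.Helper969.TS.A3
set_option autoImplicit false

/-! The norm of the extension of a time slice. -/

namespace Pool.Agent.Helper969.TS

open MeasureTheory Set Filter Topology Complex
open scoped ENNReal NNReal
open Pool.Agent.W771.MD (qe em em_norm em_enorm em_cont em_meas planchM)

variable {m : ℕ}

/-- the norm of a time slice -/
noncomputable def hh (p : ℝ) (u : ℝ → (Fin m → ℝ) → ℂ) (T : ℝ) : ℝ≥0∞ := ∫⁻ X, ‖u T X‖ₑ ^ p

/-- the extension of a time slice -/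
noncomputable def X (φ : (Fin m → ℝ) → ℂ) (u : ℝ → (Fin m → ℝ) → ℂ) (a t : ℝ) (x : Fin m → ℝ) : ℂ :=
  ∫ ξ, ch φ ξ * u a ξ * em x t ξ

theorem young (p : ℝ) (hp : 1 < p) (φ : (Fin m → ℝ) → ℂ) (hφm : Measurable φ)
    (v : (Fin m → ℝ) → ℝ≥0∞) (hv : Measurable v) :
    ∫⁻ x, (∫⁻ z, ‖φ z‖ₑ * v (x - z)) ^ p ≤ (∫⁻ z, ‖φ z‖ₑ) ^ p * ∫⁻ x, v x ^ p := by
  have hp0 : 0 < p := by linarith
  set Φ := ∫⁻ z, ‖φ z‖ₑ with hΦ
  have h1 : ∀ x, (∫⁻ z, ‖φ z‖ₑ * v (x - z)) ^ p ≤ (∫⁻ z, ‖φ z‖ₑ * v (x - z) ^ p) * Φ ^ (p - 1) := by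
    intro x
    have hvx : Measurable fun z => v (x - z) := hv.comp (measurable_const.sub measurable_id)
    have h2 := holderQ (volume.withDensity fun z => ‖φ z‖ₑ) (fun z => v (x - z)) hvx p hp
    rw [lintegral_withDensity_eq_lintegral_mul _ hφm.enorm hvx,
      lintegral_withDensity_eq_lintegral_mul _ hφm.enorm (hvx.pow_const p),
      withDensity_apply _ MeasurableSet.univ, Measure.restrict_univ] at h2
    exact h2
  calc _ ≤ ∫⁻ x, (∫⁻ z, ‖φ z‖ₑ * v (x - z) ^ p) * Φ ^ (p - 1) := lintegral_mono h1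
    _ = (∫⁻ x, ∫⁻ z, ‖φ z‖ₑ * v (x - z) ^ p) * Φ ^ (p - 1) := by
        rw [lintegral_mul_const]
        apply Measurable.lintegral_prod_right'
          (f := fun q : (Fin m → ℝ) × (Fin m → ℝ) => ‖φ q.2‖ₑ * v (q.1 - q.2) ^ p)
        exact (hφm.comp measurable_snd).enorm.mul
          ((hv.comp (measurable_fst.sub measurable_snd)).pow_const p)
    _ = (∫⁻ z, ∫⁻ x, ‖φ z‖ₑ * v (x - z) ^ p) * Φ ^ (p - 1) := by
        rw [lintegral_lintegral_swap]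
        apply Measurable.aemeasurable
        exact (hφm.comp measurable_snd).enorm.mul
          ((hv.comp (measurable_fst.sub measurable_snd)).pow_const p)
    _ = (∫⁻ z, ‖φ z‖ₑ * ∫⁻ x, v x ^ p) * Φ ^ (p - 1) := by
        congr 2
        ext z
        have hvz : Measurable fun x => v (x - z) ^ p :=
          (hv.comp (measurable_id.sub_const z)).pow_const p
        rw [lintegral_const_mul _ hvz, lintegral_sub_right_eq_self (fun x => v x ^ p) z]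
    _ = Φ ^ p * ∫⁻ x, v x ^ p := by
        rw [lintegral_mul_const _ hφm.enorm, ← hΦ]
        have e : Φ ^ p = Φ * Φ ^ (p - 1) := by
          rcases eq_or_ne Φ 0 with h0 | h0
          · rw [h0, ENNReal.zero_rpow_of_pos hp0, zero_mul]
          · rcases eq_or_ne Φ ⊤ with ht | ht
            · rw [ht, ENNReal.top_rpow_of_pos hp0, ENNReal.top_rpow_of_pos (by linarith),
                ENNReal.top_mul_top]
            · nth_rewrite 2 [← ENNReal.rpow_one Φ]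
              rw [← ENNReal.rpow_add _ _ h0 ht]
              congr 1
              ring
        rw [e]
        ring

/-- hypotheses on the cut-off -/
structure Cut (φ : (Fin m → ℝ) → ℂ) : Prop where
  m : Measurable φ
  i : Integrable φ
  s : ∫⁻ x, ‖φ x‖ₑ ^ 2 ≠ ⊤
  ci : Integrable (ch φ)
  cs : ∫⁻ x, ‖ch φ x‖ₑ ^ 2 ≠ ⊤

/-- large times -/
theorem far_t {f φ : (Fin m → ℝ) → ℂ} (hf : Measurable f) (h2 : ∫⁻ x, ‖f x‖ₑ ^ 2 ≠ ⊤)
    (hφ : Cut φ) {u : ℝ → (Fin m → ℝ) → ℂ} (hu : Sol f u) (p : ℝ) (hp : 1 < p) (a t : ℝ)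
    (ht : t ≠ 0) : ∫⁻ x, ‖X φ u a t x‖ₑ ^ p ≤
      ENNReal.ofReal (|2 * t| ^ ((m : ℝ) - m * p / 2)) * (∫⁻ z, ‖φ z‖ₑ) ^ p *
        hh p u (a - (4 * t)⁻¹) := by
  have hp0 : 0 < p := by linarith
  have h2t : 0 < |2 * t| := abs_pos.2 (by simpa using ht)
  set T : ℝ := a - (4 * t)⁻¹ with hT
  set r : ℝ := -(2 * t)⁻¹ with hr
  have hr0 : r ≠ 0 := by
    rw [hr, neg_ne_zero]
    exact inv_ne_zero (by simpa using ht)
  have hsm : Measurable fun z : Fin m → ℝ => r • z := by fun_prop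
  have hvm : Measurable fun y : Fin m → ℝ => ‖u T (r • y)‖ₑ := ((hu.1 T).comp hsm).enorm
  calc ∫⁻ x, ‖X φ u a t x‖ₑ ^ p ≤ ∫⁻ x, (ENNReal.ofReal (|2 * t| ^ (-((m : ℝ) / 2))) *
        ∫⁻ z, ‖φ z‖ₑ * ‖u T (r • (x - z))‖ₑ) ^ p :=
        lintegral_mono fun x => ENNReal.rpow_le_rpow
          (pc_sol hf h2 hφ.m hφ.i hφ.s hφ.ci hφ.cs hu a t ht x) hp0.le
    _ = ENNReal.ofReal (|2 * t| ^ (-((m : ℝ) / 2))) ^ p *
        ∫⁻ x, (∫⁻ z, ‖φ z‖ₑ * ‖u T (r • (x - z))‖ₑ) ^ p := by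
        simp only [ENNReal.mul_rpow_of_nonneg _ _ hp0.le]
        rw [lintegral_const_mul']
        exact ENNReal.rpow_ne_top_of_nonneg hp0.le ENNReal.ofReal_ne_top
    _ ≤ ENNReal.ofReal (|2 * t| ^ (-((m : ℝ) / 2))) ^ p *
        ((∫⁻ z, ‖φ z‖ₑ) ^ p * ∫⁻ x, ‖u T (r • x)‖ₑ ^ p) :=
        mul_le_mul' le_rfl (young p hp φ hφ.m _ hvm)
    _ = ENNReal.ofReal (|2 * t| ^ (-((m : ℝ) / 2))) ^ p *
        ((∫⁻ z, ‖φ z‖ₑ) ^ p * (ENNReal.ofReal (|2 * t| ^ m) * hh p u T)) := by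
        rw [scale (fun y => ‖u T y‖ₑ ^ p) ((hu.1 T).enorm.pow_const p) r hr0]
        congr 3
        congr 1
        rw [abs_inv, abs_pow, hr, abs_neg, abs_inv, inv_pow, inv_inv]
    _ = _ := by
        rw [ENNReal.ofReal_rpow_of_nonneg (by positivity) hp0.le, ← Real.rpow_mul h2t.le]
        have e : ENNReal.ofReal (|2 * t| ^ ((m : ℝ) - m * p / 2)) =
            ENNReal.ofReal (|2 * t| ^ (-((m : ℝ) / 2) * p)) * ENNReal.ofReal (|2 * t| ^ m) := by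
          rw [← ENNReal.ofReal_mul (by positivity), ← Real.rpow_natCast, ← Real.rpow_add h2t]
          congr 2
          ring
        rw [e]
        ring

theorem ch_le (φ : (Fin m → ℝ) → ℂ) (ξ : Fin m → ℝ) : ‖ch φ ξ‖ₑ ≤ ∫⁻ z, ‖φ z‖ₑ := by
  unfold ch
  refine (enorm_integral_le_lintegral_enorm _).trans (le_of_eq ?_)
  simp only [enorm_mul, em_enorm, mul_one]

/-- all times -/
theorem near_t {f φ : (Fin m → ℝ) → ℂ} (hf : Measurable f) (h2 : ∫⁻ x, ‖f x‖ₑ ^ 2 ≠ ⊤)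
    (hφ : Cut φ) {u : ℝ → (Fin m → ℝ) → ℂ} (hu : Sol f u) (p : ℝ) (hp : 2 < p) (a t : ℝ) :
    ∫⁻ x, ‖X φ u a t x‖ₑ ^ p ≤
      ((∫⁻ x, ‖ch φ x‖ₑ ^ 2) ^ (1 / 2 : ℝ) * (∫⁻ x, ‖f x‖ₑ ^ 2) ^ (1 / 2 : ℝ)) ^ (p - 2) *
        ((∫⁻ z, ‖φ z‖ₑ) ^ 2 * ∫⁻ x, ‖f x‖ₑ ^ 2) := by
  set B := (∫⁻ x, ‖ch φ x‖ₑ ^ 2) ^ (1 / 2 : ℝ) * (∫⁻ x, ‖f x‖ₑ ^ 2) ^ (1 / 2 : ℝ) with hB
  have hχm : AEStronglyMeasurable (ch φ) volume := hφ.ci.1
  have hun := sol_norm hf h2 hu a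
  have hua : MemLp (u a) 2 := sq_memLp _ (hu.1 a) (ne_top_of_le_ne_top h2 hun)
  have hχL : MemLp (ch φ) 2 := by
    refine ⟨hχm, ?_⟩
    rw [eLpNorm_lt_top_iff_lintegral_rpow_enorm_lt_top (by norm_num) (by norm_num)]
    simp only [ENNReal.toReal_ofNat, ENNReal.rpow_ofNat]
    exact lt_top_iff_ne_top.2 hφ.cs
  have hpt : ∀ x, ‖X φ u a t x‖ₑ ≤ B := by
    intro x
    refine (enorm_integral_le_lintegral_enorm _).trans ?_
    simp only [enorm_mul, em_enorm, mul_one]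
    refine (cs2 volume (fun ξ => ‖ch φ ξ‖ₑ) (fun ξ => ‖u a ξ‖ₑ) hχm.enorm
      (hu.1 a).enorm.aemeasurable).trans ?_
    exact mul_le_mul' le_rfl (ENNReal.rpow_le_rpow hun (by norm_num))
  have hΦ : (∫⁻ z, ‖φ z‖ₑ) ≠ ⊤ := hφ.i.2.ne
  have hsq : ∫⁻ x, ‖X φ u a t x‖ₑ ^ 2 ≤ (∫⁻ z, ‖φ z‖ₑ) ^ 2 * ∫⁻ x, ‖f x‖ₑ ^ 2 := by
    have hb : ∫⁻ x, ‖ch φ x * u a x‖ₑ ^ 2 ≤ (∫⁻ z, ‖φ z‖ₑ) ^ 2 * ∫⁻ x, ‖f x‖ₑ ^ 2 := by
      calc _ ≤ ∫⁻ x, (∫⁻ z, ‖φ z‖ₑ) ^ 2 * ‖u a x‖ₑ ^ 2 := by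
            refine lintegral_mono fun x => ?_
            rw [enorm_mul, mul_pow]
            exact mul_le_mul' (pow_le_pow_left' (ch_le φ x) 2) le_rfl
        _ = (∫⁻ z, ‖φ z‖ₑ) ^ 2 * ∫⁻ x, ‖u a x‖ₑ ^ 2 :=
            lintegral_const_mul' _ _ (ENNReal.pow_ne_top hΦ)
        _ ≤ _ := mul_le_mul' le_rfl hun
    have hg2 : MemLp (fun x => ch φ x * u a x) 2 := by
      refine ⟨hχm.mul (hu.1 a).aestronglyMeasurable, ?_⟩
      rw [eLpNorm_lt_top_iff_lintegral_rpow_enorm_lt_top (by norm_num) (by norm_num)]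
      simp only [ENNReal.toReal_ofNat, ENNReal.rpow_ofNat]
      exact lt_of_le_of_lt hb (lt_top_iff_ne_top.2 (ENNReal.mul_ne_top (ENNReal.pow_ne_top hΦ) h2))
    have := planchM (fun x => ch φ x * u a x) (hχL.integrable_mul hua) hg2 t
    exact this.le.trans hb
  calc ∫⁻ x, ‖X φ u a t x‖ₑ ^ p ≤ ∫⁻ x, B ^ (p - 2) * ‖X φ u a t x‖ₑ ^ 2 := by
        refine lintegral_mono fun x => ?_
        have e : ‖X φ u a t x‖ₑ ^ p = ‖X φ u a t x‖ₑ ^ (p - 2) * ‖X φ u a t x‖ₑ ^ 2 := by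
          rw [← ENNReal.rpow_ofNat, ← ENNReal.rpow_add_of_nonneg _ _ (by linarith) (by norm_num)]
          congr 1
          norm_num
        rw [e]
        exact mul_le_mul' (ENNReal.rpow_le_rpow (hpt x) (by linarith)) le_rfl
    _ = B ^ (p - 2) * ∫⁻ x, ‖X φ u a t x‖ₑ ^ 2 := by
        rw [lintegral_const_mul']
        exact ENNReal.rpow_ne_top_of_nonneg (by linarith) (ENNReal.mul_ne_top
          (ENNReal.rpow_ne_top_of_nonneg (by norm_num) hφ.cs)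
          (ENNReal.rpow_ne_top_of_nonneg (by norm_num) h2))
    _ ≤ _ := mul_le_mul' le_rfl hsq

/-- the change of variables -/
theorem cov (G : ℝ → ℝ≥0∞) : ∫⁻ t in (Icc (-1 : ℝ) 1)ᶜ, G t ≤
    ∫⁻ s in Ioo (-(1 / 4) : ℝ) (1 / 4), ENNReal.ofReal ((2 * |s|) ^ (-2 : ℝ)) * G ((4 * s)⁻¹) := by
  set S : Set ℝ := Ioo (-(1 / 4) : ℝ) (1 / 4) ∩ {0}ᶜ with hS
  have hSm : MeasurableSet S := measurableSet_Ioo.inter (measurableSet_singleton 0).compl
  have him : (fun s : ℝ => (4 * s)⁻¹) '' S = (Icc (-1 : ℝ) 1)ᶜ := by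
    ext t
    simp only [mem_image, mem_compl_iff]
    constructor
    · rintro ⟨s, ⟨⟨hs1, hs2⟩, hs0⟩, rfl⟩ ⟨h1, h2⟩
      have hs0' : s ≠ 0 := hs0
      rcases lt_or_gt_of_ne hs0' with hs | hs
      · have h3 : 0 < -(4 * s) := by linarith
        have h4 : -(4 * s)⁻¹ ≤ 1 := by linarith
        rw [← inv_neg] at h4
        have h5 := (inv_le_one₀ h3).1 h4
        linarith
      · have h3 : 0 < 4 * s := by linarith
        have h5 := (inv_le_one₀ h3).1 h2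
        linarith
    · intro ht
      have ht0 : t ≠ 0 := by
        rintro rfl
        exact ht ⟨by norm_num, by norm_num⟩
      refine ⟨(4 * t)⁻¹, ⟨?_, ?_⟩, ?_⟩
      · rw [mem_Ioo, ← abs_lt, abs_inv, abs_mul]
        have h1 : 1 < |t| := by
          by_contra h
          exact ht (abs_le.1 (not_lt.1 h))
        rw [show |(4 : ℝ)| = 4 by norm_num, show (1 / 4 : ℝ) = 4⁻¹ by norm_num]
        apply inv_strictAnti₀ (by norm_num)
        linarith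
      · intro h
        rw [mem_singleton_iff, inv_eq_zero] at h
        exact ht0 (by linarith)
      · field_simp
  have hinj : InjOn (fun s : ℝ => (4 * s)⁻¹) S := by
    intro s _ s' _ h
    have := inv_injective h
    linarith
  have hd : ∀ s ∈ S, HasDerivWithinAt (fun s : ℝ => (4 * s)⁻¹) (-4 / (4 * s) ^ 2) S s := by
    rintro s ⟨-, hs⟩
    have hs' : s ≠ 0 := hs
    have h1 : HasDerivAt (fun s : ℝ => 4 * s) 4 s := by
      simpa using (hasDerivAt_id s).const_mul (4 : ℝ)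
    exact (h1.fun_inv (mul_ne_zero (by norm_num) hs')).hasDerivWithinAt
  rw [← him, lintegral_image_eq_lintegral_abs_deriv_mul hSm hd hinj]
  refine (setLIntegral_mono' hSm fun s hs => ?_).trans (lintegral_mono_set inter_subset_left)
  have hs' : s ≠ 0 := hs.2
  have hs0 : 0 < |s| := abs_pos.2 hs'
  apply le_of_eq
  congr 2
  rw [abs_div, abs_neg, abs_pow, abs_mul, show |(4 : ℝ)| = 4 by norm_num,
    Real.rpow_neg (by positivity), show (2 : ℝ) = ((2 : ℕ) : ℝ) by norm_num, Real.rpow_natCast]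
  push_cast
  field_simp
  norm_num

/-- **the norm of the extension of a time slice** -/
theorem total {f φ : (Fin m → ℝ) → ℂ} (hf : Measurable f) (h2 : ∫⁻ x, ‖f x‖ₑ ^ 2 ≠ ⊤)
    (hφ : Cut φ) {u : ℝ → (Fin m → ℝ) → ℂ} (hu : Sol f u) (p : ℝ) (hp : 2 < p) (a : ℝ) :
    ∫⁻ t, ∫⁻ x, ‖X φ u a t x‖ₑ ^ p ≤
      2 * (((∫⁻ x, ‖ch φ x‖ₑ ^ 2) ^ (1 / 2 : ℝ) * (∫⁻ x, ‖f x‖ₑ ^ 2) ^ (1 / 2 : ℝ)) ^ (p - 2) *
        ((∫⁻ z, ‖φ z‖ₑ) ^ 2 * ∫⁻ x, ‖f x‖ₑ ^ 2)) +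
      (∫⁻ z, ‖φ z‖ₑ) ^ p * ∫⁻ s in Ioo (-(1 / 4) : ℝ) (1 / 4),
        ENNReal.ofReal ((2 * |s|) ^ (-((m : ℝ) + 2 - m * p / 2))) * hh p u (a - s) := by
  rw [← lintegral_add_compl _ (measurableSet_Icc (a := (-1 : ℝ)) (b := 1))]
  refine add_le_add ?_ ?_
  · refine (lintegral_mono fun t => near_t hf h2 hφ hu p hp a t).trans ?_
    rw [lintegral_const, Measure.restrict_apply_univ, Real.volume_Icc, mul_comm]
    norm_num
  · refine (cov _).trans ?_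
    rw [← lintegral_const_mul']
    · refine lintegral_mono_ae ?_
      have h0 : ∀ᵐ s : ℝ ∂(volume.restrict (Ioo (-(1 / 4) : ℝ) (1 / 4))), s ≠ 0 :=
        ae_restrict_of_ae (by
          have : ({0} : Set ℝ)ᶜ ∈ ae (volume : Measure ℝ) := by
            rw [mem_ae_iff, compl_compl]
            exact Real.volume_singleton
          exact this)
      filter_upwards [h0] with s hs
      have hs0 : 0 < 2 * |s| := by
        have := abs_pos.2 hs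
        linarith
      have ht : (4 * s)⁻¹ ≠ 0 := inv_ne_zero (mul_ne_zero (by norm_num) hs)
      have h3 := far_t hf h2 hφ hu p (by linarith) a ((4 * s)⁻¹) ht
      have e1 : (4 * (4 * s)⁻¹)⁻¹ = s := by field_simp
      have e2 : |2 * (4 * s)⁻¹| = (2 * |s|)⁻¹ := by
        rw [abs_mul, abs_inv, abs_mul]
        have : |s| ≠ 0 := (abs_pos.2 hs).ne'
        rw [show |(4 : ℝ)| = 4 by norm_num, show |(2 : ℝ)| = 2 by norm_num]
        field_simp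
        norm_num
      rw [e1, e2] at h3
      refine (mul_le_mul' le_rfl h3).trans (le_of_eq ?_)
      have e3 : ENNReal.ofReal ((2 * |s|) ^ (-((m : ℝ) + 2 - m * p / 2))) =
          ENNReal.ofReal ((2 * |s|) ^ (-2 : ℝ)) *
            ENNReal.ofReal ((2 * |s|)⁻¹ ^ ((m : ℝ) - m * p / 2)) := by
        rw [← ENNReal.ofReal_mul (by positivity), Real.inv_rpow hs0.le, ← Real.rpow_neg hs0.le,
          ← Real.rpow_add hs0]
        congr 2
        ring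
      rw [e3]
      ring
    · exact ENNReal.rpow_ne_top_of_nonneg (by linarith) hφ.i.2.ne

end Pool.Agent.Helper969.TS
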