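import Pool.Agent.Helper969.TS.A3
set_option autoImplicit false

/-! Local estimates for time slices of truncated solutions. -/

namespace Pool.Agent.Helper969.TS

open MeasureTheory Set Filter Topology Complex
open scoped ENNReal NNReal
open Pool.Agent.W771.MD (qe em em_norm em_enorm em_cont em_meas planchM)
open Pool.Agent.Y183.TS (F F_meas weak cm)
open Pool.Agent.Y183.LS (BA)

variable {m : ℕ}

theorem scale1 (G : ℝ → ℝ≥0∞) (hG : Measurable G) (r : ℝ) (hr : r ≠ 0) :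
    ∫⁻ z, G (r * z) = ENNReal.ofReal |r⁻¹| * ∫⁻ z, G z := by
  have h := Real.map_volume_mul_left hr
  rw [← lintegral_map (μ := volume) hG (measurable_const_mul r), h, lintegral_smul_measure]
  rfl

/-- the dilated data -/
noncomputable def dil (f : (Fin m → ℝ) → ℂ) (N : ℕ) (v : Fin m → ℝ) : ℂ :=
  (N : ℂ) ^ m * f ((N : ℝ) • v)

theorem F_dil (f : (Fin m → ℝ) → ℂ) (N : ℕ) (hN : 0 < N) (t : ℝ) (y : Fin m → ℝ) :
    F (dil f N) ((N : ℝ) ^ 2 * t, (N : ℝ) • y) = W (fN f N) t y := by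
  have hN0 : (0 : ℝ) < N := by exact_mod_cast hN
  have hNc : (N : ℂ) ≠ 0 := by exact_mod_cast hN.ne'
  unfold F W
  have hBm : MeasurableSet (BA 1 m : Set (Fin m → ℝ)) := measurableSet_Icc
  rw [← integral_indicator hBm]
  have e := MeasureTheory.Measure.integral_comp_smul (volume : Measure (Fin m → ℝ))
    (fun v => fN f N v * em y t v) (N : ℝ)
  rw [Module.finrank_fin_fun, abs_of_pos (by positivity)] at e
  have e2 : ∫ v, fN f N v * em y t v =
      ((N : ℂ) ^ m) * ∫ x : Fin m → ℝ, fN f N ((N : ℝ) • x) * em y t ((N : ℝ) • x) := by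
    rw [e, Complex.real_smul]
    push_cast
    rw [← mul_assoc, mul_inv_cancel₀ (pow_ne_zero _ hNc), one_mul]
  rw [e2, ← integral_const_mul]
  congr 1
  ext v
  have hmem : v ∈ (BA 1 m : Set (Fin m → ℝ)) ↔ (N : ℝ) • v ∈ cube m N := by
    have h1 : v ∈ (BA 1 m : Set (Fin m → ℝ)) ↔ ∀ i, -1 ≤ v i ∧ v i ≤ 1 := by
      constructor
      · intro h i
        exact ⟨h.1 i, h.2 i⟩
      · intro h
        exact ⟨fun i => (h i).1, fun i => (h i).2⟩
    have h2 : (N : ℝ) • v ∈ cube m N ↔ ∀ i, -(N : ℝ) ≤ (N : ℝ) * v i ∧ (N : ℝ) * v i ≤ N := by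
      constructor
      · intro h i
        exact ⟨h.1 i, h.2 i⟩
      · intro h
        exact ⟨fun i => (h i).1, fun i => (h i).2⟩
    rw [h1, h2]
    refine forall_congr' fun i => ?_
    constructor
    · rintro ⟨ha, hb⟩
      constructor <;> nlinarith
    · rintro ⟨ha, hb⟩
      constructor
      · have : 0 ≤ (N : ℝ) * (v i + 1) := by linarith
        have := (mul_nonneg_iff_of_pos_left hN0).1 this
        linarith
      · have : 0 ≤ (N : ℝ) * (1 - v i) := by linarith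
        have := (mul_nonneg_iff_of_pos_left hN0).1 this
        linarith
  have hem : em ((N : ℝ) • y) ((N : ℝ) ^ 2 * t) v = em y t ((N : ℝ) • v) := by
    rw [em_exp, em_exp]
    congr 4
    ext i
    simp only [Pi.smul_apply, smul_eq_mul]
    ring
  unfold dil fN
  by_cases h : v ∈ (BA 1 m : Set (Fin m → ℝ))
  · rw [indicator_of_mem h, indicator_of_mem (hmem.1 h)]
    simp only
    rw [hem]
    ring
  · rw [indicator_of_notMem h, indicator_of_notMem (fun h' => h (hmem.2 h')), zero_mul, mul_zero]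

theorem dil_sq (f : (Fin m → ℝ) → ℂ) (hf : Measurable f) (N : ℕ) (hN : 0 < N)
    (h : ∫⁻ x, ‖f x‖ₑ ^ 2 ≤ 1) :
    ∫⁻ v, ‖dil f N v‖ₑ ^ 2 ≤ ENNReal.ofReal (((N : ℝ) ^ ((m : ℝ) / 2)) ^ 2) := by
  have hN0 : (0 : ℝ) < N := by exact_mod_cast hN
  have e1 : ∀ v, ‖dil f N v‖ₑ ^ 2 = ENNReal.ofReal (((N : ℝ) ^ m) ^ 2) * ‖f ((N : ℝ) • v)‖ₑ ^ 2 := by
    intro v
    unfold dil
    rw [enorm_mul, mul_pow]
    congr 1
    rw [← ofReal_norm, norm_pow, Complex.norm_natCast, ENNReal.ofReal_pow (by positivity),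
      ENNReal.ofReal_pow (by positivity), ENNReal.ofReal_pow (by positivity)]
  simp only [e1]
  rw [lintegral_const_mul' _ _ ENNReal.ofReal_ne_top,
    scale (fun y => ‖f y‖ₑ ^ 2) (hf.enorm.pow_const 2) _ hN0.ne', ← mul_assoc,
    ← ENNReal.ofReal_mul (by positivity)]
  refine (mul_le_mul' le_rfl h).trans ?_
  rw [mul_one]
  apply ENNReal.ofReal_le_ofReal
  apply le_of_eq
  rw [abs_of_pos (by positivity), ← Real.rpow_natCast ((N : ℝ) ^ ((m : ℝ) / 2)) 2,
    ← Real.rpow_mul hN0.le]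
  have : (m : ℝ) / 2 * ((2 : ℕ) : ℝ) = (m : ℝ) := by
    push_cast
    ring
  rw [this, Real.rpow_natCast]
  have : (N : ℝ) ^ m ≠ 0 := by positivity
  field_simp

/-- the weak type estimate of Tomas and Stein for truncated data -/
theorem weakN (hm : 0 < m) (f : (Fin m → ℝ) → ℂ) (hf : Measurable f) (h : ∫⁻ x, ‖f x‖ₑ ^ 2 ≤ 1)
    (N : ℕ) (hN : 0 < N) (α : ℝ) (hα : 0 < α) :
    volume {z : ℝ × (Fin m → ℝ) | α < ‖W (fN f N) z.1 z.2‖} ≤
      ENNReal.ofReal (cm m * (1 / α) ^ (2 * ((m : ℝ) + 2) / m)) := by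
  have hN0 : (0 : ℝ) < N := by exact_mod_cast hN
  have hm0 : (0 : ℝ) < m := by exact_mod_cast hm
  have hdm : Measurable (dil f N) := by
    unfold dil
    exact (hf.comp (measurable_const_smul _)).const_mul _
  have h1 := weak (dil f N) hdm ((N : ℝ) ^ ((m : ℝ) / 2)) (by positivity)
    (dil_sq f hf N hN h) hm α hα
  set A : Set (ℝ × (Fin m → ℝ)) := {z | α < ‖F (dil f N) z‖} with hA
  have hAm : MeasurableSet A := measurableSet_lt measurable_const (F_meas _ hdm).norm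
  have hBm : MeasurableSet {z : ℝ × (Fin m → ℝ) | α < ‖W (fN f N) z.1 z.2‖} :=
    measurableSet_lt measurable_const (W_meas2 (fN_meas hf N)).norm
  have e1 : volume {z : ℝ × (Fin m → ℝ) | α < ‖W (fN f N) z.1 z.2‖} =
      ENNReal.ofReal (((N : ℝ) ^ 2)⁻¹) * (ENNReal.ofReal ((N : ℝ) ^ m)⁻¹ * volume A) := by
    have e2 : ∀ B : Set (ℝ × (Fin m → ℝ)), MeasurableSet B →
        volume B = ∫⁻ t : ℝ, ∫⁻ y : Fin m → ℝ, B.indicator 1 (t, y) := by
      intro B hB
      rw [← lintegral_indicator_one hB, Measure.volume_eq_prod,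
        lintegral_prod _ ((measurable_one.indicator hB).aemeasurable)]
    rw [e2 _ hBm, e2 _ hAm]
    have e3 : ∀ (t : ℝ) (y : Fin m → ℝ),
        ({z : ℝ × (Fin m → ℝ) | α < ‖W (fN f N) z.1 z.2‖}.indicator 1 (t, y) : ℝ≥0∞) =
        A.indicator 1 ((N : ℝ) ^ 2 * t, (N : ℝ) • y) := by
      intro t y
      by_cases hz : α < ‖W (fN f N) t y‖
      · rw [indicator_of_mem (show (t, y) ∈ {z : ℝ × (Fin m → ℝ) | α < ‖W (fN f N) z.1 z.2‖} from hz),
          indicator_of_mem (show ((N : ℝ) ^ 2 * t, (N : ℝ) • y) ∈ A by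
            rw [hA]
            show α < ‖F (dil f N) ((N : ℝ) ^ 2 * t, (N : ℝ) • y)‖
            rw [F_dil f N hN]
            exact hz)]
        rfl
      · rw [indicator_of_notMem (show ¬ (t, y) ∈ {z : ℝ × (Fin m → ℝ) | α < ‖W (fN f N) z.1 z.2‖} from hz),
          indicator_of_notMem (show ¬ ((N : ℝ) ^ 2 * t, (N : ℝ) • y) ∈ A by
            rw [hA]
            show ¬ α < ‖F (dil f N) ((N : ℝ) ^ 2 * t, (N : ℝ) • y)‖
            rw [F_dil f N hN]
            exact hz)]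
    simp only [e3]
    have hi : Measurable (A.indicator (1 : ℝ × (Fin m → ℝ) → ℝ≥0∞)) := measurable_one.indicator hAm
    have e4 : ∀ t : ℝ, ∫⁻ y : Fin m → ℝ, A.indicator (1 : ℝ × (Fin m → ℝ) → ℝ≥0∞)
        ((N : ℝ) ^ 2 * t, (N : ℝ) • y) = ENNReal.ofReal ((N : ℝ) ^ m)⁻¹ *
        ∫⁻ y : Fin m → ℝ, A.indicator (1 : ℝ × (Fin m → ℝ) → ℝ≥0∞) ((N : ℝ) ^ 2 * t, y) := by
      intro t
      rw [scale (fun y => A.indicator (1 : ℝ × (Fin m → ℝ) → ℝ≥0∞) ((N : ℝ) ^ 2 * t, y))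
        (hi.comp measurable_prodMk_left) _ hN0.ne', abs_of_pos (by positivity)]
    simp only [e4]
    have hi2 : Measurable fun t : ℝ => ∫⁻ y : Fin m → ℝ,
        A.indicator (1 : ℝ × (Fin m → ℝ) → ℝ≥0∞) (t, y) := hi.lintegral_prod_right'
    rw [scale1 (fun t => ENNReal.ofReal ((N : ℝ) ^ m)⁻¹ * ∫⁻ y : Fin m → ℝ,
        A.indicator (1 : ℝ × (Fin m → ℝ) → ℝ≥0∞) (t, y)) (hi2.const_mul _) _ (by positivity),
      lintegral_const_mul _ hi2, abs_of_pos (by positivity)]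
  rw [e1, ← mul_assoc, ← ENNReal.ofReal_mul (by positivity)]
  refine (mul_le_mul' le_rfl h1).trans ?_
  rw [← ENNReal.ofReal_mul (by positivity)]
  apply ENNReal.ofReal_le_ofReal
  apply le_of_eq
  have e5 : ((N : ℝ) ^ ((m : ℝ) / 2) / α) ^ (2 * ((m : ℝ) + 2) / m) =
      (N : ℝ) ^ 2 * (N : ℝ) ^ m * (1 / α) ^ (2 * ((m : ℝ) + 2) / m) := by
    rw [div_eq_mul_one_div ((N : ℝ) ^ ((m : ℝ) / 2)), Real.mul_rpow (by positivity) (by positivity),
      ← Real.rpow_mul hN0.le]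
    congr 1
    rw [← pow_add, ← Real.rpow_natCast]
    congr 1
    push_cast
    field_simp
    ring
  rw [e5]
  have hNm : (N : ℝ) ^ m ≠ 0 := by positivity
  field_simp

end Pool.Agent.Helper969.TS
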