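import Pool.Agent.Helper969.TS.B1
import Pool.Agent.Helper969.TS.A4
set_option autoImplicit false

/-! Local estimates below the exponent of Tomas and Stein. -/

namespace Pool.Agent.Helper969.TS

open MeasureTheory Set Filter Topology Complex
open scoped ENNReal NNReal
open Pool.Agent.W771.MD (qe em em_norm em_enorm em_cont em_meas planchM)
open Pool.Agent.Y183.TS (cm)

variable {m : ℕ}

/-- the constant of the local estimate -/
noncomputable def Cr (m : ℕ) (L r : ℝ) : ℝ≥0∞ :=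
  ENNReal.ofReal r * ((∫⁻ α in Ioc (0 : ℝ) 1, ENNReal.ofReal (L * α ^ (r - 3))) +
    ∫⁻ α in Ioi (1 : ℝ), ENNReal.ofReal (cm m * α ^ (r - 1 - 2 * ((m : ℝ) + 2) / m)))

theorem Cr_top (m : ℕ) (L r : ℝ) (hr : 2 < r) (hr2 : r < 2 * ((m : ℝ) + 2) / m) :
    Cr m L r ≠ ⊤ := by
  unfold Cr
  refine ENNReal.mul_ne_top ENNReal.ofReal_ne_top (ENNReal.add_ne_top.2 ⟨?_, ?_⟩)
  · have h1 : IntegrableOn (fun α : ℝ => L * α ^ (r - 3)) (Ioc 0 1) := by
      have h2 := intervalIntegral.intervalIntegrable_rpow' (a := 0) (b := 1) (r := r - 3) (by linarith)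
      rw [intervalIntegrable_iff_integrableOn_Ioc_of_le zero_le_one] at h2
      exact h2.const_mul L
    exact ne_top_of_le_ne_top h1.2.ne (lintegral_mono fun α => Real.ofReal_le_enorm _)
  · have h1 : IntegrableOn (fun α : ℝ => cm m * α ^ (r - 1 - 2 * ((m : ℝ) + 2) / m)) (Ioi 1) :=
      (integrableOn_Ioi_rpow_of_lt (by linarith) one_pos).const_mul _
    exact ne_top_of_le_ne_top h1.2.ne (lintegral_mono fun α => Real.ofReal_le_enorm _)

/-- the local estimate -/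
theorem local_r (hm : 0 < m) (L r : ℝ) (hL : 0 ≤ L) (hr : 2 < r) (f : (Fin m → ℝ) → ℂ)
    (hf : Measurable f) (h : ∫⁻ x, ‖f x‖ₑ ^ 2 ≤ 1) (N : ℕ) (hN : 0 < N) (A : ℝ) :
    ∫⁻ T in Icc A (A + L), ∫⁻ X, ‖W (fN f N) T X‖ₑ ^ r ≤ Cr m L r := by
  have hf2 : ∫⁻ x, ‖f x‖ₑ ^ 2 ≠ ⊤ := ne_top_of_le_ne_top ENNReal.one_ne_top h
  have hWm := W_meas2 (fN_meas hf N)
  set w : ℝ × (Fin m → ℝ) → ℂ := fun z => W (fN f N) z.1 z.2 with hw
  set μ : Measure (ℝ × (Fin m → ℝ)) := ((volume : Measure ℝ).restrict (Icc A (A + L))).prod volume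
    with hμ
  have e0 : ∫⁻ T in Icc A (A + L), ∫⁻ X, ‖W (fN f N) T X‖ₑ ^ r = ∫⁻ z, ‖w z‖ₑ ^ r ∂μ := by
    rw [hμ, lintegral_prod _ (hWm.enorm.pow_const r).aemeasurable]
  have hle : ∀ B : Set (ℝ × (Fin m → ℝ)), μ B ≤ volume B := by
    intro B
    have : μ = (volume : Measure (ℝ × (Fin m → ℝ))).restrict (Icc A (A + L) ×ˢ univ) := by
      rw [hμ, Measure.volume_eq_prod, ← Measure.prod_restrict, Measure.restrict_univ]
    rw [this]
    exact Measure.restrict_apply_le _ _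
  have hsq : ∫⁻ z, ‖w z‖ₑ ^ 2 ∂μ ≤ ENNReal.ofReal L := by
    rw [hμ, lintegral_prod _ (hWm.enorm.pow_const 2).aemeasurable]
    have h1 : ∀ T : ℝ, ∫⁻ X, ‖w (T, X)‖ₑ ^ 2 ≤ 1 := by
      intro T
      have h2 := W_planch (fN_int hf hf2 N) (sq_memLp _ (fN_meas hf N) (fN_sq f hf2 N)) T
      refine h2.le.trans (le_trans ?_ h)
      exact lintegral_mono fun x => pow_le_pow_left' (fN_le f N x) 2
    refine (lintegral_mono h1).trans ?_
    rw [lintegral_const, Measure.restrict_apply_univ, Real.volume_Icc, one_mul]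
    apply ENNReal.ofReal_le_ofReal
    linarith
  have e1 : ∀ z, ‖w z‖ₑ ^ r = ENNReal.ofReal (‖w z‖ ^ r) := by
    intro z
    rw [← ofReal_norm, ENNReal.ofReal_rpow_of_nonneg (norm_nonneg _) (by linarith)]
  have h1 := lintegral_rpow_eq_lintegral_meas_lt_mul μ
    (f := fun z => ‖w z‖) (ae_of_all _ fun z => norm_nonneg _) hWm.norm.aemeasurable
    (by linarith : 0 < r)
  rw [e0]
  simp only [e1]
  rw [h1]
  unfold Cr
  refine mul_le_mul' le_rfl ?_
  have hsplit : Ioi (0 : ℝ) = Ioc 0 1 ∪ Ioi 1 := (Ioc_union_Ioi_eq_Ioi zero_le_one).symm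
  rw [hsplit]
  refine (lintegral_union_le _ _ _).trans (add_le_add ?_ ?_)
  · refine setLIntegral_mono' measurableSet_Ioc fun α hα => ?_
    have hα0 : 0 < α := hα.1
    have h2 := meas_ge_le_lintegral_div (μ := μ) (f := fun z => ‖w z‖ₑ ^ 2)
      (hWm.enorm.pow_const 2).aemeasurable (ε := ENNReal.ofReal (α ^ 2))
      (by rw [Ne, ENNReal.ofReal_eq_zero, not_le]; positivity) ENNReal.ofReal_ne_top
    have h3 : μ {z | α < ‖w z‖} ≤ ENNReal.ofReal (L / α ^ 2) := by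
      calc μ {z | α < ‖w z‖} ≤ μ {z | ENNReal.ofReal (α ^ 2) ≤ ‖w z‖ₑ ^ 2} := by
            refine measure_mono fun z hz => ?_
            have hz' : α < ‖w z‖ := hz
            show ENNReal.ofReal (α ^ 2) ≤ ‖w z‖ₑ ^ 2
            rw [← ofReal_norm, ← ENNReal.ofReal_pow (norm_nonneg _)]
            exact ENNReal.ofReal_le_ofReal (pow_le_pow_left₀ hα0.le hz'.le 2)
        _ ≤ _ := h2
        _ ≤ ENNReal.ofReal L / ENNReal.ofReal (α ^ 2) := ENNReal.div_le_div_right hsq _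
        _ = _ := (ENNReal.ofReal_div_of_pos (by positivity)).symm
    refine (mul_le_mul' h3 le_rfl).trans (le_of_eq ?_)
    rw [← ENNReal.ofReal_mul (by positivity)]
    congr 1
    have : α ^ (r - 3) = α ^ (r - 1) / α ^ 2 := by
      rw [← Real.rpow_natCast α 2, ← Real.rpow_sub hα0]
      congr 1
      push_cast
      ring
    rw [this]
    ring
  · refine setLIntegral_mono' measurableSet_Ioi fun α hα => ?_
    have hα1 : 1 < α := hα
    have hα0 : 0 < α := by linarith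
    have h3 : μ {z | α < ‖w z‖} ≤ ENNReal.ofReal (cm m * (1 / α) ^ (2 * ((m : ℝ) + 2) / m)) :=
      (hle _).trans (weakN hm f hf h N hN α hα0)
    refine (mul_le_mul' h3 le_rfl).trans (le_of_eq ?_)
    rw [← ENNReal.ofReal_mul (by unfold cm; positivity)]
    congr 1
    rw [mul_assoc]
    congr 1
    rw [one_div, Real.inv_rpow hα0.le, ← Real.rpow_neg hα0.le, ← Real.rpow_add hα0]
    congr 1
    ring

/-- Hoelder's inequality between the exponents `2` and `r` -/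
theorem hold {X : Type*} [MeasurableSpace X] (μ : Measure X) (w : X → ℝ≥0∞) (hw : Measurable w)
    (p Q : ℝ) (hp : 2 < p) (hQ : 1 < Q) (h : ∫⁻ x, w x ^ 2 ∂μ ≤ 1) :
    (∫⁻ x, w x ^ p ∂μ) ^ Q ≤ ∫⁻ x, w x ^ (2 + Q * (p - 2)) ∂μ := by
  have hQ0 : 0 < Q := by linarith
  have hQ1 : 0 < Q - 1 := by linarith
  have hc : Q.HolderConjugate (Q / (Q - 1)) := Real.HolderConjugate.conjExponent hQ
  have h1 := ENNReal.lintegral_mul_le_Lp_mul_Lq μ hc
    (f := fun x => w x ^ ((2 + Q * (p - 2)) / Q)) (g := fun x => w x ^ (2 * (Q - 1) / Q))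
    (hw.pow_const _).aemeasurable (hw.pow_const _).aemeasurable
  simp only [Pi.mul_apply] at h1
  have e1 : ∀ x, w x ^ ((2 + Q * (p - 2)) / Q) * w x ^ (2 * (Q - 1) / Q) = w x ^ p := by
    intro x
    rw [← ENNReal.rpow_add_of_nonneg _ _ (by
      have : 0 < Q * (p - 2) := mul_pos hQ0 (by linarith)
      positivity) (by positivity)]
    congr 1
    field_simp
    ring
  have e2 : ∀ x, (w x ^ ((2 + Q * (p - 2)) / Q)) ^ Q = w x ^ (2 + Q * (p - 2)) := by
    intro x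
    rw [← ENNReal.rpow_mul]
    congr 1
    field_simp
  have e3 : ∀ x, (w x ^ (2 * (Q - 1) / Q)) ^ (Q / (Q - 1)) = w x ^ 2 := by
    intro x
    rw [← ENNReal.rpow_mul, ← ENNReal.rpow_natCast]
    congr 1
    push_cast
    field_simp
  simp only [e1, e2, e3] at h1
  have h2 := ENNReal.rpow_le_rpow h1 hQ0.le
  refine h2.trans ?_
  rw [ENNReal.mul_rpow_of_nonneg _ _ hQ0.le, ← ENNReal.rpow_mul, one_div, inv_mul_cancel₀ hQ0.ne',
    ENNReal.rpow_one]
  calc _ ≤ (∫⁻ x, w x ^ (2 + Q * (p - 2)) ∂μ) * 1 := by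
        refine mul_le_mul' le_rfl ?_
        rw [← ENNReal.rpow_mul]
        exact ENNReal.rpow_le_one h (by positivity)
    _ = _ := mul_one _

/-- the norms of time slices of truncated solutions -/
theorem slice_Q (hm : 0 < m) (L p Q : ℝ) (hL : 0 ≤ L) (hp : 2 < p) (hQ : 1 < Q)
    (f : (Fin m → ℝ) → ℂ) (hf : Measurable f) (h : ∫⁻ x, ‖f x‖ₑ ^ 2 ≤ 1) (N : ℕ) (hN : 0 < N)
    (A : ℝ) : ∫⁻ T in Icc A (A + L), hh p (W (fN f N)) T ^ Q ≤ Cr m L (2 + Q * (p - 2)) := by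
  have hf2 : ∫⁻ x, ‖f x‖ₑ ^ 2 ≠ ⊤ := ne_top_of_le_ne_top ENNReal.one_ne_top h
  refine (lintegral_mono fun T => ?_).trans
    (local_r hm L _ hL (by
      have : 0 < Q * (p - 2) := mul_pos (by linarith) (by linarith)
      linarith) f hf h N hN A)
  unfold hh
  refine hold volume (fun X => ‖W (fN f N) T X‖ₑ) (W_meas (fN_meas hf N) T).enorm p Q hp hQ ?_
  have h2 := W_planch (fN_int hf hf2 N) (sq_memLp _ (fN_meas hf N) (fN_sq f hf2 N)) T
  refine h2.le.trans (le_trans ?_ h)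
  exact lintegral_mono fun x => pow_le_pow_left' (fN_le f N x) 2

end Pool.Agent.Helper969.TS
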