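import Pool.Agent.Helper969.TS.B2
set_option autoImplicit false

/-! A measurable majorant of the norms of time slices. -/

namespace Pool.Agent.Helper969.TS

open MeasureTheory Set Filter Topology Complex
open scoped ENNReal NNReal
open Pool.Agent.W771.MD (qe em em_norm em_enorm em_cont em_meas planchM)

variable {m : ℕ}

theorem mem_cube_ev (x : Fin m → ℝ) : ∀ᶠ N : ℕ in atTop, x ∈ cube m N := by
  obtain ⟨N₀, hN₀⟩ := exists_nat_ge ‖x‖
  filter_upwards [eventually_ge_atTop N₀] with N hN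
  have h1 : ‖x‖ ≤ N := hN₀.trans (by exact_mod_cast hN)
  constructor
  · intro i
    have := norm_le_pi_norm x i
    rw [Real.norm_eq_abs] at this
    have := abs_le.1 (this.trans h1)
    exact this.1
  · intro i
    have := norm_le_pi_norm x i
    rw [Real.norm_eq_abs] at this
    have := abs_le.1 (this.trans h1)
    exact this.2

theorem fN_tend (f : (Fin m → ℝ) → ℂ) (hf : Measurable f) (h2 : ∫⁻ x, ‖f x‖ₑ ^ 2 ≠ ⊤) :
    Tendsto (fun N : ℕ => ∫⁻ x, ‖f x - fN f N x‖ₑ ^ 2) atTop (𝓝 0) := by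
  have h := tendsto_lintegral_of_dominated_convergence (μ := (volume : Measure (Fin m → ℝ)))
    (F := fun (N : ℕ) x => ‖f x - fN f N x‖ₑ ^ 2) (f := fun _ => 0) (fun x => ‖f x‖ₑ ^ 2)
    (fun N => (hf.sub (fN_meas hf N)).enorm.pow_const 2) (fun N => ae_of_all _ fun x => ?_) h2
    (ae_of_all _ fun x => ?_)
  · rw [lintegral_zero] at h
    exact h
  · refine pow_le_pow_left' ?_ 2
    unfold fN
    by_cases hx : x ∈ cube m N
    · rw [indicator_of_mem hx, sub_self]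
      simp
    · rw [indicator_of_notMem hx, sub_zero]
  · refine tendsto_const_nhds.congr' ?_
    filter_upwards [mem_cube_ev x] with N hN
    unfold fN
    rw [indicator_of_mem hN, sub_self]
    simp

theorem exists_seq (f : (Fin m → ℝ) → ℂ) (hf : Measurable f) (h2 : ∫⁻ x, ‖f x‖ₑ ^ 2 ≠ ⊤) :
    ∃ n : ℕ → ℕ, (∀ j, 0 < n j) ∧
      ∀ j, ∫⁻ x, ‖f x - fN f (n j) x‖ₑ ^ 2 ≤ ENNReal.ofReal ((1 / 2) ^ j) := by
  have h : ∀ j : ℕ, ∃ N : ℕ, 0 < N ∧ ∫⁻ x, ‖f x - fN f N x‖ₑ ^ 2 ≤ ENNReal.ofReal ((1 / 2) ^ j) := by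
    intro j
    have h1 : ∀ᶠ N : ℕ in atTop, ∫⁻ x, ‖f x - fN f N x‖ₑ ^ 2 < ENNReal.ofReal ((1 / 2) ^ j) :=
      (fN_tend f hf h2).eventually_lt_const (by
        rw [ENNReal.ofReal_pos]
        positivity)
    obtain ⟨N, hN1, hN2⟩ := (h1.and (eventually_gt_atTop 0)).exists
    exact ⟨N, hN2, hN1.le⟩
  choose n hn1 hn2 using h
  exact ⟨n, hn1, hn2⟩

/-- a measurable majorant of the norms of time slices -/
theorem majorant (hm : 0 < m) (p : ℝ) (hp : 2 < p) (f : (Fin m → ℝ) → ℂ) (hf : Measurable f)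
    (h : ∫⁻ x, ‖f x‖ₑ ^ 2 ≤ 1) {u : ℝ → (Fin m → ℝ) → ℂ} (hu : Sol f u) :
    ∃ H : ℝ → ℝ≥0∞, Measurable H ∧ (∀ T, hh p u T ≤ H T) ∧
      ∀ (L Q A : ℝ), 0 ≤ L → 1 < Q → ∫⁻ T in Icc A (A + L), H T ^ Q ≤ Cr m L (2 + Q * (p - 2)) := by
  have hf2 : ∫⁻ x, ‖f x‖ₑ ^ 2 ≠ ⊤ := ne_top_of_le_ne_top ENNReal.one_ne_top h
  obtain ⟨n, hn1, hn2⟩ := exists_seq f hf hf2
  have hmj : ∀ j, Measurable (hh p (W (fN f (n j)))) := fun j =>
    ((W_meas2 (fN_meas hf (n j))).enorm.pow_const p).lintegral_prod_right'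
  refine ⟨fun T => liminf (fun j => hh p (W (fN f (n j))) T) atTop, ?_, ?_, ?_⟩
  · exact Measurable.liminf hmj
  · intro T
    have hd : ∀ j, Measurable fun X => ‖u T X - W (fN f (n j)) T X‖ₑ ^ 2 := fun j =>
      ((hu.1 T).sub (W_meas (fN_meas hf (n j)) T)).enorm.pow_const 2
    have h3 : ∫⁻ X, ∑' j, ‖u T X - W (fN f (n j)) T X‖ₑ ^ 2 ≠ ⊤ := by
      rw [lintegral_tsum fun j => (hd j).aemeasurable]
      refine ne_top_of_le_ne_top (b := ∑' j : ℕ, ENNReal.ofReal ((1 / 2) ^ j)) ?_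
        (ENNReal.tsum_le_tsum fun j => (sol_close hf hf2 hu T (n j)).trans (hn2 j))
      exact (summable_geometric_of_lt_one (by norm_num) (by norm_num)).tsum_ofReal_ne_top
    have h4 := ae_lt_top (Measurable.ennreal_tsum hd) h3
    have h5 : ∀ᵐ X : Fin m → ℝ, ‖u T X‖ₑ ^ p =
        liminf (fun j => ‖W (fN f (n j)) T X‖ₑ ^ p) atTop := by
      filter_upwards [h4] with X hX
      have h6 := ENNReal.tendsto_atTop_zero_of_tsum_ne_top hX.ne
      have h7 := root_lim _ h6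
      have h8 : Tendsto (fun j => W (fN f (n j)) T X) atTop (𝓝 (u T X)) := by
        rw [tendsto_iff_edist_tendsto_0]
        refine h7.congr fun j => ?_
        rw [edist_comm, edist_eq_enorm_sub, ← ENNReal.rpow_natCast, ← ENNReal.rpow_mul]
        norm_num
      have h9 : Tendsto (fun j => ‖W (fN f (n j)) T X‖ₑ ^ p) atTop (𝓝 (‖u T X‖ₑ ^ p)) :=
        ((ENNReal.continuous_rpow_const.comp continuous_enorm).tendsto (u T X)).comp h8
      exact h9.liminf_eq.symm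
    unfold hh
    rw [lintegral_congr_ae h5]
    exact lintegral_liminf_le fun j => (W_meas (fN_meas hf (n j)) T).enorm.pow_const p
  · intro L Q A hL hQ
    have hQ0 : 0 < Q := by linarith
    have e : ∀ T, (liminf (fun j => hh p (W (fN f (n j))) T) atTop) ^ Q =
        liminf (fun j => hh p (W (fN f (n j))) T ^ Q) atTop := by
      intro T
      have := (ENNReal.orderIsoRpow Q hQ0).liminf_apply (f := atTop)
        (u := fun j => hh p (W (fN f (n j))) T)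
      simpa using this
    simp only [e]
    refine (lintegral_liminf_le fun j => (hmj j).pow_const Q).trans ?_
    exact liminf_le_of_frequently_le' (Frequently.of_forall fun j =>
      slice_Q hm L p Q hL hp hQ f hf h (n j) (hn1 j) A)

/-- the exponents -/
theorem expo (m : ℕ) (hm : 0 < m) (p : ℝ) (hp : 2 < p) (hp2 : p < 2 * ((m : ℝ) + 2) / m) (ε : ℝ)
    (hε : 0 < ε) : ∃ Q : ℝ, 1 < Q ∧ 2 + Q * (p - 2) < 2 * ((m : ℝ) + 2) / m ∧
      4 / (m * (p - 2)) - ε < Q := by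
  have hm0 : (0 : ℝ) < m := by exact_mod_cast hm
  have hp0 : 0 < p - 2 := by linarith
  have h1 : 1 < 4 / ((m : ℝ) * (p - 2)) := by
    rw [one_lt_div (by positivity)]
    rw [lt_div_iff₀ hm0] at hp2
    nlinarith
  obtain ⟨Q, hQ1, hQ2⟩ := exists_between (show max 1 (4 / ((m : ℝ) * (p - 2)) - ε) <
    4 / ((m : ℝ) * (p - 2)) from max_lt h1 (by linarith))
  refine ⟨Q, (le_max_left _ _).trans_lt hQ1, ?_, (le_max_right _ _).trans_lt hQ1⟩
  rw [lt_div_iff₀ (by positivity)] at hQ2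
  rw [lt_div_iff₀ hm0]
  nlinarith

/-- **the dimension of the exceptional set, normalised data** -/
theorem dim_one (hm : 0 < m) (p : ℝ) (hp : 2 * ((m : ℝ) + 1) / m < p)
    (hp2 : p < 2 * ((m : ℝ) + 2) / m) (f φ : (Fin m → ℝ) → ℂ) (hf : Measurable f)
    (h : ∫⁻ x, ‖f x‖ₑ ^ 2 ≤ 1) (hφ : Cut φ) {u : ℝ → (Fin m → ℝ) → ℂ} (hu : Sol f u) :
    dimH {a : ℝ | ∫⁻ t, ∫⁻ x, ‖X φ u a t x‖ₑ ^ p = ⊤} ≤
      ENNReal.ofReal ((2 * ((m : ℝ) + 2) - m * p) / (m * (p - 2))) := by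
  have hm0 : (0 : ℝ) < m := by exact_mod_cast hm
  have hf2 : ∫⁻ x, ‖f x‖ₑ ^ 2 ≠ ⊤ := ne_top_of_le_ne_top ENNReal.one_ne_top h
  have hpm : 2 * ((m : ℝ) + 1) < p * m := by rwa [div_lt_iff₀ hm0] at hp
  have hpm2 : p * m < 2 * ((m : ℝ) + 2) := by rwa [lt_div_iff₀ hm0] at hp2
  have hp' : 2 < p := by nlinarith
  have hp0 : 0 < p - 2 := by linarith
  set γ : ℝ := (m : ℝ) + 2 - m * p / 2 with hγ
  have hγ0 : 0 < γ := by
    rw [hγ]
    linarith
  have hγ1 : 0 < 1 - γ := by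
    rw [hγ]
    linarith
  obtain ⟨H, hH1, hH2, hH3⟩ := majorant hm p hp' f hf h hu
  have hsub : {a : ℝ | ∫⁻ t, ∫⁻ x, ‖X φ u a t x‖ₑ ^ p = ⊤} ⊆
      {a : ℝ | ∫⁻ s in Ioo (-(1 / 4) : ℝ) (1 / 4), ENNReal.ofReal ((2 * |s|) ^ (-γ)) * H (a - s) = ⊤} := by
    intro a ha
    have h1 := total hf hf2 hφ hu p hp' a
    have ha' : ∫⁻ t, ∫⁻ x, ‖X φ u a t x‖ₑ ^ p = ⊤ := ha
    rw [ha', top_le_iff, ENNReal.add_eq_top] at h1
    have hΦ : (∫⁻ z, ‖φ z‖ₑ) ≠ ⊤ := hφ.i.2.ne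
    rcases h1 with h1 | h1
    · exfalso
      refine ENNReal.mul_ne_top (by norm_num) (ENNReal.mul_ne_top
        (ENNReal.rpow_ne_top_of_nonneg hp0.le (ENNReal.mul_ne_top
          (ENNReal.rpow_ne_top_of_nonneg (by norm_num) hφ.cs)
          (ENNReal.rpow_ne_top_of_nonneg (by norm_num) hf2)))
        (ENNReal.mul_ne_top (ENNReal.pow_ne_top hΦ) hf2)) h1
    · rcases ENNReal.mul_eq_top.1 h1 with h2 | h2
      · show ∫⁻ s in Ioo (-(1 / 4) : ℝ) (1 / 4), ENNReal.ofReal ((2 * |s|) ^ (-γ)) * H (a - s) = ⊤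
        rw [← top_le_iff, ← h2.2]
        exact lintegral_mono fun s => mul_le_mul' le_rfl (hH2 _)
      · exact absurd h2.1 (ENNReal.rpow_ne_top_of_nonneg (by linarith) hΦ)
  refine (dimH_mono hsub).trans (ENNReal.le_of_forall_pos_le_add fun ε hε _ => ?_)
  have hε' : (0 : ℝ) < ε := by exact_mod_cast hε
  obtain ⟨Q, hQ1, hQ2, hQ3⟩ := expo m hm p hp' hp2 ε hε'
  have h1 := dim_pot γ Q H hγ0 hQ1 hH1 (fun R => by
    rcases le_or_gt 0 R with hR | hR
    · have h2 := hH3 (2 * R) Q (-R) (by linarith) hQ1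
      have e : -R + 2 * R = R := by ring
      rw [e] at h2
      refine ne_top_of_le_ne_top (Cr_top m (2 * R) _ ?_ hQ2) h2
      have : 0 < Q * (p - 2) := mul_pos (by linarith) hp0
      linarith
    · rw [Icc_eq_empty (by linarith)]
      simp)
  refine h1.trans ?_
  have h3 : 1 - Q * (1 - γ) ≤ (2 * ((m : ℝ) + 2) - m * p) / (m * (p - 2)) + ε := by
    have e : (2 * ((m : ℝ) + 2) - m * p) / (m * (p - 2)) = 1 - 4 / (m * (p - 2)) * (1 - γ) := by
      rw [hγ]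
      field_simp
      ring
    rw [e]
    have h4 : (4 / (m * (p - 2)) - ε) * (1 - γ) ≤ Q * (1 - γ) :=
      mul_le_mul_of_nonneg_right hQ3.le hγ1.le
    nlinarith
  refine (ENNReal.ofReal_le_ofReal h3).trans ?_
  refine ENNReal.ofReal_add_le.trans (le_of_eq ?_)
  rw [ENNReal.ofReal_coe_nnreal]

end Pool.Agent.Helper969.TS
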