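import Pool.Agent.Helper969.TS.A4
set_option autoImplicit false

/-! Smooth cut-offs. -/

namespace Pool.Agent.Helper969.TS

open MeasureTheory Set Filter Topology Complex FourierTransform
open scoped ENNReal NNReal ContDiff SchwartzMap RealInnerProductSpace
open Pool.Agent.W771.MD (qe em em_norm em_enorm em_cont em_meas planchM)

variable {m : ℕ}

theorem exists_cut (χ : (Fin m → ℝ) → ℂ) (h1 : ContDiff ℝ ∞ χ) (h2 : HasCompactSupport χ) :
    ∃ φ : (Fin m → ℝ) → ℂ, Cut φ ∧ ch φ = χ := by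
  set e : EuclideanSpace ℝ (Fin m) ≃L[ℝ] (Fin m → ℝ) := EuclideanSpace.equiv (Fin m) ℝ with he
  have hc : HasCompactSupport (χ ∘ e) := h2.comp_homeomorph e.toHomeomorph
  have hd : ContDiff ℝ ∞ (χ ∘ e) := h1.comp e.contDiff
  set S : 𝓢(EuclideanSpace ℝ (Fin m), ℂ) := hc.toSchwartzMap hd with hS
  have hSv : ∀ v, S v = χ (e v) := fun v => rfl
  set P : 𝓢(EuclideanSpace ℝ (Fin m), ℂ) := 𝓕⁻ S with hP
  have hmp : MeasurePreserving (WithLp.ofLp (p := 2) (V := Fin m → ℝ)) :=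
    PiLp.volume_preserving_ofLp (Fin m)
  have hmp2 : MeasurePreserving (WithLp.toLp 2 (V := Fin m → ℝ)) :=
    PiLp.volume_preserving_toLp (Fin m)
  have hme : MeasurableEmbedding (WithLp.ofLp (p := 2) (V := Fin m → ℝ)) :=
    (MeasurableEquiv.toLp 2 (Fin m → ℝ)).symm.measurableEmbedding
  have hme2 : MeasurableEmbedding (WithLp.toLp 2 (V := Fin m → ℝ)) :=
    (MeasurableEquiv.toLp 2 (Fin m → ℝ)).measurableEmbedding
  set φ : (Fin m → ℝ) → ℂ := fun z => P (WithLp.toLp 2 z) with hφ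
  have hch : ch φ = χ := by
    ext ξ
    have e1 : ch φ ξ = ∫ v : EuclideanSpace ℝ (Fin m), P v * em (-(WithLp.ofLp v)) 0 ξ := by
      unfold ch
      rw [← hmp.integral_comp hme]
    have e2 : 𝓕 (P : EuclideanSpace ℝ (Fin m) → ℂ) (WithLp.toLp 2 ξ) =
        ∫ v : EuclideanSpace ℝ (Fin m), P v * em (-(WithLp.ofLp v)) 0 ξ := by
      rw [Real.fourier_eq']
      congr 1
      ext v
      rw [smul_eq_mul, mul_comm, em_exp]
      congr 2
      have e3 : (⟪v, WithLp.toLp 2 ξ⟫ : ℝ) = ∑ i, v i * ξ i := by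
        rw [PiLp.inner_apply]
        refine Finset.sum_congr rfl fun i _ => ?_
        simp [mul_comm]
      rw [e3]
      have e4 : ∑ i, (ξ i * (-(WithLp.ofLp v)) i + ξ i ^ 2 * 0) = -∑ i, v i * ξ i := by
        rw [← Finset.sum_neg_distrib]
        refine Finset.sum_congr rfl fun i _ => ?_
        simp only [Pi.neg_apply]
        ring
      rw [e4]
      push_cast
      ring
    rw [e1, ← e2]
    have e5 : 𝓕 (P : EuclideanSpace ℝ (Fin m) → ℂ) = (S : EuclideanSpace ℝ (Fin m) → ℂ) := by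
      rw [← SchwartzMap.fourier_coe, hP]
      congr 1
      exact FourierTransform.fourier_fourierInv_eq S
    rw [e5, hSv]
    rfl
  have hχi : Integrable χ := h1.continuous.integrable_of_hasCompactSupport h2
  have hχ2 : MemLp χ 2 := h1.continuous.memLp_of_hasCompactSupport h2
  refine ⟨φ, ⟨?_, ?_, ?_, ?_, ?_⟩, hch⟩
  · exact P.continuous.measurable.comp hme2.measurable
  · exact (hmp2.integrable_comp_emb hme2).2 P.integrable
  · have h3 : ∫⁻ x, ‖φ x‖ₑ ^ 2 = ∫⁻ v, ‖P v‖ₑ ^ 2 :=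
      hmp2.lintegral_comp_emb hme2 (fun v => ‖P v‖ₑ ^ 2)
    rw [h3]
    have h4 := (P.memLp 2 volume).2
    rw [eLpNorm_lt_top_iff_lintegral_rpow_enorm_lt_top (by norm_num) (by norm_num)] at h4
    simp only [ENNReal.toReal_ofNat, ENNReal.rpow_ofNat] at h4
    exact h4.ne
  · rw [hch]
    exact hχi
  · rw [hch]
    have h4 := hχ2.2
    rw [eLpNorm_lt_top_iff_lintegral_rpow_enorm_lt_top (by norm_num) (by norm_num)] at h4
    simp only [ENNReal.toReal_ofNat, ENNReal.rpow_ofNat] at h4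
    exact h4.ne

end Pool.Agent.Helper969.TS
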