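import Pool.Agent.Helper969.TS.D2
set_option autoImplicit false

/-! Averages of Riesz potentials over fractal measures. -/

namespace Pool.Agent.Helper969.TS

open MeasureTheory Measure Set Metric Filter
open scoped ENNReal NNReal Topology

theorem da_key (γ Q : ℝ) (H : ℝ → ℝ≥0∞) (hH : Measurable H) (hQ : 1 < Q) (j : ℕ) (x : ℝ) :
    (da γ H j x) ^ Q ≤
      ENNReal.ofReal ((2 : ℝ) ^ (γ * j * Q) * (2 * (1 / 2) ^ j) ^ (Q - 1)) *
        ∫⁻ T in closedBall x ((1 / 2) ^ j), H T ^ Q := by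
  have hQ0 : 0 < Q := by linarith
  have h1 := holderQ (volume.restrict (closedBall x ((1 / 2 : ℝ) ^ j))) H hH Q hQ
  rw [Measure.restrict_apply_univ, ball_vol] at h1
  unfold da
  rw [ENNReal.mul_rpow_of_nonneg _ _ hQ0.le]
  refine (mul_le_mul' le_rfl h1).trans (le_of_eq ?_)
  rw [ENNReal.ofReal_rpow_of_nonneg (by positivity) hQ0.le,
    ENNReal.ofReal_rpow_of_nonneg (by positivity) (by linarith),
    ENNReal.ofReal_mul (by positivity), ← Real.rpow_mul (by norm_num)]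
  ring

theorem ball_swap (G : ℝ → ℝ≥0∞) (hG : Measurable G) (μ : Measure ℝ) [IsFiniteMeasure μ] (r : ℝ) :
    ∫⁻ a, (∫⁻ T in closedBall a r, G T) ∂μ = ∫⁻ T, G T * μ (closedBall T r) := by
  have hms : MeasurableSet {q : ℝ × ℝ | dist q.2 q.1 ≤ r} :=
    measurableSet_le (measurable_snd.dist measurable_fst) measurable_const
  have hm : Measurable fun q : ℝ × ℝ => ({q : ℝ × ℝ | dist q.2 q.1 ≤ r}.indicator (fun _ => 1) q : ℝ≥0∞)
      * G q.2 := (measurable_const.indicator hms).mul (hG.comp measurable_snd)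
  have e1 : ∀ a, ∫⁻ T in closedBall a r, G T =
      ∫⁻ T, ({q : ℝ × ℝ | dist q.2 q.1 ≤ r}.indicator (fun _ => 1) (a, T) : ℝ≥0∞) * G T := by
    intro a
    rw [← lintegral_indicator measurableSet_closedBall]
    congr 1
    ext T
    by_cases h : dist T a ≤ r
    · rw [indicator_of_mem (show T ∈ closedBall a r from h),
        indicator_of_mem (show (a, T) ∈ {q : ℝ × ℝ | dist q.2 q.1 ≤ r} from h), one_mul]
    · rw [indicator_of_notMem (show ¬ T ∈ closedBall a r from h),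
        indicator_of_notMem (show ¬ (a, T) ∈ {q : ℝ × ℝ | dist q.2 q.1 ≤ r} from h), zero_mul]
  simp only [e1]
  rw [lintegral_lintegral_swap hm.aemeasurable]
  congr 1
  ext T
  have hms2 : Measurable fun a : ℝ =>
      ({q : ℝ × ℝ | dist q.2 q.1 ≤ r}.indicator (fun _ => 1) (a, T) : ℝ≥0∞) :=
    (measurable_const.indicator hms).comp measurable_prodMk_right
  rw [lintegral_mul_const _ hms2, mul_comm]
  congr 1
  have e2 : ∀ a : ℝ, ({q : ℝ × ℝ | dist q.2 q.1 ≤ r}.indicator (fun _ => 1) (a, T) : ℝ≥0∞) =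
      (closedBall T r).indicator 1 a := by
    intro a
    by_cases h : dist T a ≤ r
    · rw [indicator_of_mem (show a ∈ closedBall T r by rw [mem_closedBall, dist_comm]; exact h),
        indicator_of_mem (show (a, T) ∈ {q : ℝ × ℝ | dist q.2 q.1 ≤ r} from h)]
      rfl
    · rw [indicator_of_notMem (show ¬ a ∈ closedBall T r by rw [mem_closedBall, dist_comm]; exact h),
        indicator_of_notMem (show ¬ (a, T) ∈ {q : ℝ × ℝ | dist q.2 q.1 ≤ r} from h)]
  simp only [e2]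
  exact lintegral_indicator_one measurableSet_closedBall

theorem da_meas (γ : ℝ) (H : ℝ → ℝ≥0∞) (hH : Measurable H) (j : ℕ) : Measurable (da γ H j) := by
  unfold da
  refine Measurable.const_mul ?_ _
  have hms : MeasurableSet {q : ℝ × ℝ | dist q.2 q.1 ≤ (1 / 2) ^ j} :=
    measurableSet_le (measurable_snd.dist measurable_fst) measurable_const
  have hm : Measurable fun q : ℝ × ℝ =>
      ({q : ℝ × ℝ | dist q.2 q.1 ≤ (1 / 2) ^ j}.indicator (fun q => H q.2) q : ℝ≥0∞) :=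
    (hH.comp measurable_snd).indicator hms
  have h1 := hm.lintegral_prod_right' (ν := (volume : Measure ℝ))
  have e : (fun a => ∫⁻ T in closedBall a ((1 / 2 : ℝ) ^ j), H T) = fun a => ∫⁻ y,
      ({q : ℝ × ℝ | dist q.2 q.1 ≤ (1 / 2) ^ j}.indicator (fun q => H q.2) (a, y) : ℝ≥0∞) := by
    ext a
    rw [← lintegral_indicator measurableSet_closedBall]
    congr 1
  rw [e]
  exact h1

/-- **averages of a Riesz potential** -/
theorem frac_avg (γ Q α : ℝ) (hγ : 0 < γ) (hQ : 1 < Q) (hα0 : 0 ≤ α) (hα : 1 - Q * (1 - γ) < α)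
    (M : ℝ≥0∞) (hM : M ≠ ⊤) : ∃ C : ℝ≥0∞, C ≠ ⊤ ∧ ∀ (H : ℝ → ℝ≥0∞), Measurable H → ∀ (A : ℝ)
    (μ : Measure ℝ) (c : ℝ≥0), ∫⁻ T in Icc (A - 1) (A + 2), H T ^ Q ≤ M →
    (∀ (a r : ℝ), 0 < r → μ (closedBall a r) ≤ c * ENNReal.ofReal (r ^ α)) →
    μ (Icc A (A + 1))ᶜ = 0 →
    ∫⁻ a, (∫⁻ s in Ioo (-(1 / 4) : ℝ) (1 / 4), ENNReal.ofReal ((2 * |s|) ^ (-γ)) * H (a - s)) ∂μ ≤
      C * c := by
  have hQ0 : 0 < Q := by linarith
  set ρ : ℝ := (2 : ℝ) ^ ((1 - Q * (1 - γ) - α) / Q) with hρ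
  have hρ0 : 0 < ρ := by positivity
  have hρ1 : ρ < 1 := Real.rpow_lt_one_of_one_lt_of_neg (by norm_num)
    (div_neg_of_neg_of_pos (by linarith) hQ0)
  set D : ℝ≥0∞ := (ENNReal.ofReal ((2 : ℝ) ^ (Q - 1)) * M) ^ (1 / Q) with hD
  have hDt : D ≠ ⊤ := ENNReal.rpow_ne_top_of_nonneg (by positivity)
    (ENNReal.mul_ne_top ENNReal.ofReal_ne_top hM)
  refine ⟨D * ∑' j : ℕ, ENNReal.ofReal (ρ ^ j), ENNReal.mul_ne_top hDt
    (summable_geometric_of_lt_one hρ0.le hρ1).tsum_ofReal_ne_top, ?_⟩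
  intro H hH A μ c hHQ hμ hsupp
  have hmass : μ univ ≤ c := by
    have h1 := hμ A 1 one_pos
    rw [Real.one_rpow, ENNReal.ofReal_one, mul_one] at h1
    calc μ univ ≤ μ (Icc A (A + 1)) + μ (Icc A (A + 1))ᶜ := by
          rw [← union_compl_self (Icc A (A + 1))]
          exact measure_union_le _ _
      _ = μ (Icc A (A + 1)) := by rw [hsupp, add_zero]
      _ ≤ μ (closedBall A 1) := by
          refine measure_mono fun x hx => ?_
          rw [mem_closedBall, Real.dist_eq, abs_le]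
          constructor <;> linarith [hx.1, hx.2]
      _ ≤ c := h1
  have hfin : IsFiniteMeasure μ := ⟨lt_of_le_of_lt hmass ENNReal.coe_lt_top⟩
  set H' : ℝ → ℝ≥0∞ := (Icc (A - 1) (A + 2)).indicator H with hH'
  have hH'm : Measurable H' := hH.indicator measurableSet_Icc
  have hae : ∀ᵐ a ∂μ, a ∈ Icc A (A + 1) := hsupp
  have hda : ∀ j, ∫⁻ a, da γ H j a ∂μ ≤ D * ENNReal.ofReal (ρ ^ j) * c := by
    intro j
    have e1 : ∫⁻ a, da γ H j a ∂μ = ∫⁻ a, da γ H' j a ∂μ := by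
      refine lintegral_congr_ae ?_
      filter_upwards [hae] with a ha
      unfold da
      congr 1
      refine setLIntegral_congr_fun measurableSet_closedBall fun T hT => ?_
      rw [hH']
      refine (indicator_of_mem ?_ H).symm
      rw [mem_closedBall, Real.dist_eq, abs_le] at hT
      have h1 : (1 / 2 : ℝ) ^ j ≤ 1 := pow_le_one₀ (by norm_num) (by norm_num)
      constructor <;> linarith [ha.1, ha.2, hT.1, hT.2]
    rw [e1]
    have h1 := holderQ μ (da γ H' j) (da_meas γ H' hH'm j) Q hQ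
    have hr0 : (0 : ℝ) < (1 / 2) ^ j := by positivity
    have h2 : ∫⁻ a, da γ H' j a ^ Q ∂μ ≤
        ENNReal.ofReal ((2 : ℝ) ^ (γ * j * Q) * (2 * (1 / 2) ^ j) ^ (Q - 1)) *
          (c * ENNReal.ofReal (((1 / 2 : ℝ) ^ j) ^ α) * M) := by
      calc _ ≤ ∫⁻ a, (ENNReal.ofReal ((2 : ℝ) ^ (γ * j * Q) * (2 * (1 / 2) ^ j) ^ (Q - 1)) *
            ∫⁻ T in closedBall a ((1 / 2) ^ j), H' T ^ Q) ∂μ :=
            lintegral_mono fun a => da_key γ Q H' hH'm hQ j a
        _ = ENNReal.ofReal ((2 : ℝ) ^ (γ * j * Q) * (2 * (1 / 2) ^ j) ^ (Q - 1)) *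
            ∫⁻ T, H' T ^ Q * μ (closedBall T ((1 / 2) ^ j)) := by
            rw [lintegral_const_mul' _ _ ENNReal.ofReal_ne_top,
              ball_swap (fun T => H' T ^ Q) (hH'm.pow_const Q) μ]
        _ ≤ ENNReal.ofReal ((2 : ℝ) ^ (γ * j * Q) * (2 * (1 / 2) ^ j) ^ (Q - 1)) *
            ∫⁻ T, H' T ^ Q * (c * ENNReal.ofReal (((1 / 2 : ℝ) ^ j) ^ α)) := by
            refine mul_le_mul' le_rfl (lintegral_mono fun T => mul_le_mul' le_rfl (hμ T _ hr0))
        _ = ENNReal.ofReal ((2 : ℝ) ^ (γ * j * Q) * (2 * (1 / 2) ^ j) ^ (Q - 1)) *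
            ((c * ENNReal.ofReal (((1 / 2 : ℝ) ^ j) ^ α)) * ∫⁻ T, H' T ^ Q) := by
            rw [lintegral_mul_const _ (hH'm.pow_const Q)]
            ring
        _ ≤ _ := by
            refine mul_le_mul' le_rfl (mul_le_mul' le_rfl (le_trans (le_of_eq ?_) hHQ))
            rw [← lintegral_indicator measurableSet_Icc]
            congr 1
            ext T
            rw [hH']
            by_cases h : T ∈ Icc (A - 1) (A + 2)
            · rw [indicator_of_mem h, indicator_of_mem h]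
            · rw [indicator_of_notMem h, indicator_of_notMem h, ENNReal.zero_rpow_of_pos hQ0]
    have h3 : (∫⁻ a, da γ H' j a ∂μ) ^ Q ≤ (D * ENNReal.ofReal (ρ ^ j) * c) ^ Q := by
      refine h1.trans ((mul_le_mul' h2 (ENNReal.rpow_le_rpow hmass (by linarith))).trans
        (le_of_eq ?_))
      rw [ENNReal.mul_rpow_of_nonneg _ _ hQ0.le, ENNReal.mul_rpow_of_nonneg _ _ hQ0.le, hD,
        ← ENNReal.rpow_mul, one_div_mul_cancel hQ0.ne', ENNReal.rpow_one,
        ENNReal.ofReal_rpow_of_nonneg (by positivity) hQ0.le]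
      have hcc : (c : ℝ≥0∞) ^ Q = c * (c : ℝ≥0∞) ^ (Q - 1) := by
        rcases eq_or_ne (c : ℝ≥0∞) 0 with h0 | h0
        · rw [h0, ENNReal.zero_rpow_of_pos hQ0, zero_mul]
        · nth_rewrite 2 [← ENNReal.rpow_one (c : ℝ≥0∞)]
          rw [← ENNReal.rpow_add _ _ h0 ENNReal.coe_ne_top]
          congr 1
          ring
      have e3 : (2 : ℝ) ^ (γ * j * Q) * (2 * (1 / 2) ^ j) ^ (Q - 1) * ((1 / 2 : ℝ) ^ j) ^ α =
          (2 : ℝ) ^ (Q - 1) * (ρ ^ j) ^ Q := by
        have f1 : ((1 / 2 : ℝ) ^ j) = (2 : ℝ) ^ (-(j : ℝ)) := by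
          rw [Real.rpow_neg (by norm_num), Real.rpow_natCast, one_div, inv_pow]
        rw [f1, Real.mul_rpow (by norm_num) (by positivity), ← Real.rpow_mul (by norm_num),
          ← Real.rpow_mul (by norm_num), hρ, ← Real.rpow_natCast, ← Real.rpow_mul (by positivity),
          ← Real.rpow_mul (by norm_num), ← Real.rpow_add (by norm_num),
          ← Real.rpow_add (by norm_num), ← Real.rpow_add (by norm_num),
          ← Real.rpow_add (by norm_num)]
        congr 1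
        field_simp
        ring
      calc _ = ENNReal.ofReal ((2 : ℝ) ^ (γ * j * Q) * (2 * (1 / 2) ^ j) ^ (Q - 1)) *
            ENNReal.ofReal (((1 / 2 : ℝ) ^ j) ^ α) * M * (c * (c : ℝ≥0∞) ^ (Q - 1)) := by ring
        _ = ENNReal.ofReal ((2 : ℝ) ^ (Q - 1) * (ρ ^ j) ^ Q) * M * (c : ℝ≥0∞) ^ Q := by
            rw [← ENNReal.ofReal_mul (by positivity), e3, hcc]
        _ = _ := by
            rw [ENNReal.ofReal_mul (by positivity)]
            ring
    exact (ENNReal.rpow_le_rpow_iff hQ0).1 h3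
  calc _ ≤ ∫⁻ a, ∑' j, da γ H j a ∂μ := lintegral_mono fun a => pot_le γ H hγ hH a
    _ = ∑' j, ∫⁻ a, da γ H j a ∂μ := lintegral_tsum fun j => (da_meas γ H hH j).aemeasurable
    _ ≤ ∑' j, D * ENNReal.ofReal (ρ ^ j) * c := ENNReal.tsum_le_tsum hda
    _ = _ := by
        rw [ENNReal.tsum_mul_right, ENNReal.tsum_mul_left]

end Pool.Agent.Helper969.TS
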