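import Pool.Agent.Helper969.TS.B3
import Pool.Agent.Helper969.TS.C1
import Pool.Agent.Helper969.TS.C2
set_option autoImplicit false

/-! Data of arbitrary norm. -/

namespace Pool.Agent.Helper969.TS

open MeasureTheory Set Filter Topology Complex
open scoped ENNReal NNReal
open Pool.Agent.W771.MD (qe em em_norm em_enorm em_cont em_meas planchM)

variable {m : ℕ}

theorem fN_smul (f : (Fin m → ℝ) → ℂ) (c : ℂ) (N : ℕ) :
    fN (fun x => c * f x) N = fun x => c * fN f N x := by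
  ext x
  unfold fN
  by_cases h : x ∈ cube m N
  · rw [indicator_of_mem h, indicator_of_mem h]
  · rw [indicator_of_notMem h, indicator_of_notMem h, mul_zero]

theorem W_smul (f : (Fin m → ℝ) → ℂ) (c : ℂ) (a : ℝ) (x : Fin m → ℝ) :
    W (fun y => c * f y) a x = c * W f a x := by
  unfold W
  rw [← integral_const_mul]
  congr 1
  ext y
  ring

theorem sol_smul {f : (Fin m → ℝ) → ℂ} {u : ℝ → (Fin m → ℝ) → ℂ} (hu : Sol f u) (c : ℂ) :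
    Sol (fun x => c * f x) (fun a x => c * u a x) := by
  refine ⟨fun a => (hu.1 a).const_mul c, fun a => ?_⟩
  have e : ∀ N : ℕ, ∫⁻ x, ‖c * u a x - W (fN (fun x => c * f x) N) a x‖ₑ ^ 2 =
      ‖c‖ₑ ^ 2 * ∫⁻ x, ‖u a x - W (fN f N) a x‖ₑ ^ 2 := by
    intro N
    rw [← lintegral_const_mul' _ _ (ENNReal.pow_ne_top enorm_ne_top)]
    congr 1
    ext x
    rw [fN_smul, W_smul, ← mul_sub, enorm_mul, mul_pow]
  simp only [e]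
  have h := ENNReal.Tendsto.const_mul (a := ‖c‖ₑ ^ 2) (hu.2 a)
    (Or.inr (ENNReal.pow_ne_top enorm_ne_top))
  rwa [mul_zero] at h

theorem X_smul (φ : (Fin m → ℝ) → ℂ) (u : ℝ → (Fin m → ℝ) → ℂ) (c : ℂ) (a t : ℝ)
    (x : Fin m → ℝ) : X φ (fun a x => c * u a x) a t x = c * X φ u a t x := by
  unfold X
  rw [← integral_const_mul]
  congr 1
  ext y
  ring

theorem X_int_smul (φ : (Fin m → ℝ) → ℂ) (u : ℝ → (Fin m → ℝ) → ℂ) (c : ℂ) (a p : ℝ) (hp : 0 ≤ p) :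
    ∫⁻ t, ∫⁻ x, ‖X φ (fun a x => c * u a x) a t x‖ₑ ^ p =
      ‖c‖ₑ ^ p * ∫⁻ t, ∫⁻ x, ‖X φ u a t x‖ₑ ^ p := by
  have hc : ‖c‖ₑ ^ p ≠ ⊤ := ENNReal.rpow_ne_top_of_nonneg hp enorm_ne_top
  simp only [X_smul, enorm_mul, ENNReal.mul_rpow_of_nonneg _ _ hp]
  simp only [lintegral_const_mul' _ _ hc]

theorem sq_smul (f : (Fin m → ℝ) → ℂ) (c : ℂ) :
    ∫⁻ x, ‖c * f x‖ₑ ^ 2 = ‖c‖ₑ ^ 2 * ∫⁻ x, ‖f x‖ₑ ^ 2 := by
  rw [← lintegral_const_mul' _ _ (ENNReal.pow_ne_top enorm_ne_top)]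
  simp only [enorm_mul, mul_pow]

theorem enorm_real (k : ℝ) (hk : 0 ≤ k) : ‖((k : ℝ) : ℂ)‖ₑ = ENNReal.ofReal k := by
  rw [← ofReal_norm, Complex.norm_real, Real.norm_of_nonneg hk]

/-- **the dimension of the exceptional set** -/
theorem dim_gen (hm : 0 < m) (p : ℝ) (hp : 2 * ((m : ℝ) + 1) / m < p)
    (hp2 : p < 2 * ((m : ℝ) + 2) / m) (f φ : (Fin m → ℝ) → ℂ) (hf : Measurable f)
    (h : ∫⁻ x, ‖f x‖ₑ ^ 2 ≠ ⊤) (hφ : Cut φ) {u : ℝ → (Fin m → ℝ) → ℂ} (hu : Sol f u) :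
    dimH {a : ℝ | ∫⁻ t, ∫⁻ x, ‖X φ u a t x‖ₑ ^ p = ⊤} ≤
      ENNReal.ofReal ((2 * ((m : ℝ) + 2) - m * p) / (m * (p - 2))) := by
  have hm0 : (0 : ℝ) < m := by exact_mod_cast hm
  have hpm : 2 * ((m : ℝ) + 1) < p * m := by rwa [div_lt_iff₀ hm0] at hp
  have hp' : 2 < p := by nlinarith
  set K : ℝ := (∫⁻ x, ‖f x‖ₑ ^ 2).toReal with hK
  have hK0 : 0 ≤ K := ENNReal.toReal_nonneg
  set k : ℝ := 1 / (1 + K) with hk
  have hk0 : 0 < k := by positivity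
  have hsq : ∫⁻ x, ‖(k : ℂ) * f x‖ₑ ^ 2 ≤ 1 := by
    rw [sq_smul, enorm_real k hk0.le, ← ENNReal.ofReal_toReal h, ← hK,
      ← ENNReal.ofReal_pow hk0.le, ← ENNReal.ofReal_mul (by positivity), ← ENNReal.ofReal_one]
    apply ENNReal.ofReal_le_ofReal
    rw [hk, div_pow, one_pow, one_div, inv_mul_eq_div, div_le_one (by positivity)]
    nlinarith
  have h1 := dim_one hm p hp hp2 (fun x => (k : ℂ) * f x) φ (hf.const_mul _) hsq hφ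
    (sol_smul hu (k : ℂ))
  refine le_trans (dimH_mono fun a ha => ?_) h1
  have ha' : ∫⁻ t, ∫⁻ x, ‖X φ u a t x‖ₑ ^ p = ⊤ := ha
  show ∫⁻ t, ∫⁻ x, ‖X φ (fun a x => (k : ℂ) * u a x) a t x‖ₑ ^ p = ⊤
  rw [X_int_smul _ _ _ _ _ (by linarith), ha', ENNReal.mul_top]
  intro h0
  rw [ENNReal.rpow_eq_zero_iff, enorm_real k hk0.le] at h0
  rcases h0 with h0 | h0
  · rw [ENNReal.ofReal_eq_zero] at h0
    linarith [h0.1]
  · exact ENNReal.ofReal_ne_top h0.1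

theorem mass_le (α A : ℝ) (μ : Measure ℝ) (c : ℝ≥0)
    (hμ : ∀ (a r : ℝ), 0 < r → μ (Metric.closedBall a r) ≤ c * ENNReal.ofReal (r ^ α))
    (hsupp : μ (Icc A (A + 1))ᶜ = 0) : μ univ ≤ c := by
  have h1 := hμ A 1 one_pos
  rw [Real.one_rpow, ENNReal.ofReal_one, mul_one] at h1
  calc μ univ ≤ μ (Icc A (A + 1)) + μ (Icc A (A + 1))ᶜ := by
        rw [← union_compl_self (Icc A (A + 1))]
        exact measure_union_le _ _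
    _ = μ (Icc A (A + 1)) := by rw [hsupp, add_zero]
    _ ≤ μ (Metric.closedBall A 1) := by
        refine measure_mono fun x hx => ?_
        rw [Metric.mem_closedBall, Real.dist_eq, abs_le]
        constructor <;> linarith [hx.1, hx.2]
    _ ≤ c := h1

/-- averages over fractal measures, normalised data -/
theorem avg_one (hm : 0 < m) (p α : ℝ) (hp : 2 * ((m : ℝ) + 1) / m < p)
    (hp2 : p < 2 * ((m : ℝ) + 2) / m)
    (hα : (2 * ((m : ℝ) + 2) - m * p) / (m * (p - 2)) < α) (φ : (Fin m → ℝ) → ℂ) (hφ : Cut φ) :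
    ∃ C : ℝ≥0∞, C ≠ ⊤ ∧ ∀ (f : (Fin m → ℝ) → ℂ) (u : ℝ → (Fin m → ℝ) → ℂ), Measurable f →
      ∫⁻ x, ‖f x‖ₑ ^ 2 ≤ 1 → Sol f u → ∀ (A : ℝ) (μ : Measure ℝ) (c : ℝ≥0),
      (∀ (a r : ℝ), 0 < r → μ (Metric.closedBall a r) ≤ c * ENNReal.ofReal (r ^ α)) →
      μ (Icc A (A + 1))ᶜ = 0 → ∫⁻ a, (∫⁻ t, ∫⁻ x, ‖X φ u a t x‖ₑ ^ p) ∂μ ≤ C * c := by
  have hm0 : (0 : ℝ) < m := by exact_mod_cast hm
  have hpm : 2 * ((m : ℝ) + 1) < p * m := by rwa [div_lt_iff₀ hm0] at hp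
  have hpm2 : p * m < 2 * ((m : ℝ) + 2) := by rwa [lt_div_iff₀ hm0] at hp2
  have hp' : 2 < p := by nlinarith
  have hp0 : 0 < p - 2 := by linarith
  set γ : ℝ := (m : ℝ) + 2 - m * p / 2 with hγ
  have hγ0 : 0 < γ := by
    rw [hγ]
    linarith
  have hγ1 : 0 < 1 - γ := by
    rw [hγ]
    linarith
  have e : (2 * ((m : ℝ) + 2) - m * p) / (m * (p - 2)) = 1 - 4 / (m * (p - 2)) * (1 - γ) := by
    rw [hγ]
    field_simp
    ring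
  have hα0 : 0 ≤ α := by
    refine le_trans ?_ hα.le
    apply div_nonneg (by linarith) (by positivity)
  set ε : ℝ := (α - (2 * ((m : ℝ) + 2) - m * p) / (m * (p - 2))) / (1 - γ) with hε
  have hε0 : 0 < ε := div_pos (by linarith) hγ1
  obtain ⟨Q, hQ1, hQ2, hQ3⟩ := expo m hm p hp' hp2 ε hε0
  have hQα : 1 - Q * (1 - γ) < α := by
    have h1 : (4 / (m * (p - 2)) - ε) * (1 - γ) < Q * (1 - γ) := mul_lt_mul_of_pos_right hQ3 hγ1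
    have h2 : ε * (1 - γ) = α - (2 * ((m : ℝ) + 2) - m * p) / (m * (p - 2)) := by
      rw [hε]
      field_simp
    rw [sub_mul, h2, e] at h1
    linarith
  have hr2 : 2 < 2 + Q * (p - 2) := by
    have : 0 < Q * (p - 2) := mul_pos (by linarith) hp0
    linarith
  have hCr := Cr_top m 3 (2 + Q * (p - 2)) hr2 hQ2
  obtain ⟨C1, hC1, hC1'⟩ := frac_avg γ Q α hγ0 hQ1 hα0 hQα _ hCr
  have hΦ : (∫⁻ z, ‖φ z‖ₑ) ≠ ⊤ := hφ.i.2.ne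
  set B1 : ℝ≥0∞ := 2 * (((∫⁻ x, ‖ch φ x‖ₑ ^ 2) ^ (1 / 2 : ℝ)) ^ (p - 2) * (∫⁻ z, ‖φ z‖ₑ) ^ 2)
    with hB1
  have hB1t : B1 ≠ ⊤ := ENNReal.mul_ne_top (by norm_num) (ENNReal.mul_ne_top
    (ENNReal.rpow_ne_top_of_nonneg hp0.le (ENNReal.rpow_ne_top_of_nonneg (by norm_num) hφ.cs))
    (ENNReal.pow_ne_top hΦ))
  have hΦp : (∫⁻ z, ‖φ z‖ₑ) ^ p ≠ ⊤ := ENNReal.rpow_ne_top_of_nonneg (by linarith) hΦ
  refine ⟨B1 + (∫⁻ z, ‖φ z‖ₑ) ^ p * C1, ENNReal.add_ne_top.2 ⟨hB1t, ENNReal.mul_ne_top hΦp hC1⟩, ?_⟩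
  intro f u hf h1 hu A μ c hμ hsupp
  have hf2 : ∫⁻ x, ‖f x‖ₑ ^ 2 ≠ ⊤ := ne_top_of_le_ne_top ENNReal.one_ne_top h1
  obtain ⟨H, hH1, hH2, hH3⟩ := majorant hm p hp' f hf h1 hu
  have h2 := hC1' H hH1 A μ c (by
    have h3 := hH3 3 Q (A - 1) (by norm_num) hQ1
    have e3 : A - 1 + 3 = A + 2 := by ring
    rwa [e3] at h3) hμ hsupp
  have hpt : ∀ a, ∫⁻ t, ∫⁻ x, ‖X φ u a t x‖ₑ ^ p ≤ B1 + (∫⁻ z, ‖φ z‖ₑ) ^ p *
      ∫⁻ s in Ioo (-(1 / 4) : ℝ) (1 / 4), ENNReal.ofReal ((2 * |s|) ^ (-γ)) * H (a - s) := by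
    intro a
    refine (total hf hf2 hφ hu p hp' a).trans (add_le_add ?_ ?_)
    · rw [hB1]
      refine mul_le_mul' le_rfl (mul_le_mul' (ENNReal.rpow_le_rpow ?_ hp0.le) ?_)
      · calc _ ≤ (∫⁻ x, ‖ch φ x‖ₑ ^ 2) ^ (1 / 2 : ℝ) * 1 :=
              mul_le_mul' le_rfl (ENNReal.rpow_le_one h1 (by norm_num))
          _ = _ := mul_one _
      · calc _ ≤ (∫⁻ z, ‖φ z‖ₑ) ^ 2 * 1 := mul_le_mul' le_rfl h1
          _ = _ := mul_one _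
    · exact mul_le_mul' le_rfl (lintegral_mono fun s => mul_le_mul' le_rfl (hH2 _))
  refine (lintegral_mono hpt).trans ?_
  rw [lintegral_add_left measurable_const, lintegral_const, lintegral_const_mul' _ _ hΦp]
  calc _ ≤ B1 * c + (∫⁻ z, ‖φ z‖ₑ) ^ p * (C1 * c) :=
        add_le_add (mul_le_mul' le_rfl (mass_le α A μ c hμ hsupp)) (mul_le_mul' le_rfl h2)
    _ = _ := by ring

/-- **averages over fractal measures** -/
theorem avg_gen (hm : 0 < m) (p α : ℝ) (hp : 2 * ((m : ℝ) + 1) / m < p)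
    (hp2 : p < 2 * ((m : ℝ) + 2) / m)
    (hα : (2 * ((m : ℝ) + 2) - m * p) / (m * (p - 2)) < α) (φ : (Fin m → ℝ) → ℂ) (hφ : Cut φ) :
    ∃ C : ℝ≥0∞, C ≠ ⊤ ∧ ∀ (f : (Fin m → ℝ) → ℂ) (u : ℝ → (Fin m → ℝ) → ℂ), Measurable f →
      ∫⁻ x, ‖f x‖ₑ ^ 2 ≠ ⊤ → Sol f u → ∀ (A : ℝ) (μ : Measure ℝ) (c : ℝ≥0),
      (∀ (a r : ℝ), 0 < r → μ (Metric.closedBall a r) ≤ c * ENNReal.ofReal (r ^ α)) →
      μ (Icc A (A + 1))ᶜ = 0 → ∫⁻ a, (∫⁻ t, ∫⁻ x, ‖X φ u a t x‖ₑ ^ p) ∂μ ≤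
        C * c * (∫⁻ x, ‖f x‖ₑ ^ 2) ^ (p / 2) := by
  have hm0 : (0 : ℝ) < m := by exact_mod_cast hm
  have hpm : 2 * ((m : ℝ) + 1) < p * m := by rwa [div_lt_iff₀ hm0] at hp
  have hp' : 2 < p := by nlinarith
  obtain ⟨C, hC, h⟩ := avg_one hm p α hp hp2 hα φ hφ
  refine ⟨C, hC, ?_⟩
  intro f u hf hf2 hu A μ c hμ hsupp
  rcases eq_or_ne (∫⁻ x, ‖f x‖ₑ ^ 2) 0 with h0 | h0
  · have h1 : ∀ a, ∫⁻ t, ∫⁻ x, ‖X φ u a t x‖ₑ ^ p = 0 := by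
      intro a
      have h2 : ∀ t, ∫⁻ x, ‖X φ u a t x‖ₑ ^ p = 0 := by
        intro t
        have h3 := near_t hf hf2 hφ hu p hp' a t
        rw [h0, mul_zero, mul_zero] at h3
        exact le_antisymm h3 zero_le
      simp only [h2, lintegral_zero]
    simp only [h1, lintegral_zero]
    exact zero_le
  · set K : ℝ := (∫⁻ x, ‖f x‖ₑ ^ 2).toReal with hK
    have hK0 : 0 < K := ENNReal.toReal_pos h0 hf2
    set k : ℝ := K ^ (-(1 / 2) : ℝ) with hk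
    have hk0 : 0 < k := by positivity
    have hkK : k ^ 2 * K = 1 := by
      rw [hk, ← Real.rpow_natCast, ← Real.rpow_mul hK0.le]
      nth_rewrite 2 [← Real.rpow_one K]
      rw [← Real.rpow_add hK0]
      norm_num
    have hsq : ∫⁻ x, ‖(k : ℂ) * f x‖ₑ ^ 2 ≤ 1 := by
      rw [sq_smul, enorm_real k hk0.le, ← ENNReal.ofReal_toReal hf2, ← hK,
        ← ENNReal.ofReal_pow hk0.le, ← ENNReal.ofReal_mul (by positivity), hkK, ENNReal.ofReal_one]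
    have h1 := h (fun x => (k : ℂ) * f x) (fun a x => (k : ℂ) * u a x) (hf.const_mul _) hsq
      (sol_smul hu (k : ℂ)) A μ c hμ hsupp
    have hkp : ‖((k : ℝ) : ℂ)‖ₑ ^ p = ENNReal.ofReal (k ^ p) := by
      rw [enorm_real k hk0.le, ENNReal.ofReal_rpow_of_nonneg hk0.le (by linarith)]
    have h2 : ∀ a, ∫⁻ t, ∫⁻ x, ‖X φ (fun a x => (k : ℂ) * u a x) a t x‖ₑ ^ p =
        ENNReal.ofReal (k ^ p) * ∫⁻ t, ∫⁻ x, ‖X φ u a t x‖ₑ ^ p := by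
      intro a
      rw [X_int_smul _ _ _ _ _ (by linarith), hkp]
    simp only [h2] at h1
    rw [lintegral_const_mul' _ _ ENNReal.ofReal_ne_top] at h1
    have hkpos : 0 < k ^ p := by positivity
    have h3 : (∫⁻ x, ‖f x‖ₑ ^ 2) ^ (p / 2) = ENNReal.ofReal ((k ^ p)⁻¹) := by
      rw [← ENNReal.ofReal_toReal hf2, ← hK, ENNReal.ofReal_rpow_of_pos hK0]
      congr 1
      rw [hk, ← Real.rpow_mul hK0.le, ← Real.rpow_neg hK0.le]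
      congr 1
      ring
    rw [h3]
    have h4 := mul_le_mul' h1 (le_refl (ENNReal.ofReal ((k ^ p)⁻¹)))
    refine le_trans (le_of_eq ?_) h4
    rw [mul_comm (ENNReal.ofReal (k ^ p)), mul_assoc, ← ENNReal.ofReal_mul hkpos.le,
      mul_inv_cancel₀ hkpos.ne', ENNReal.ofReal_one, mul_one]

end Pool.Agent.Helper969.TS
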