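import Mathlib
set_option autoImplicit false

/-! A bound for the dimension of sets on which series diverge. -/

namespace Pool.Agent.Helper969.TS

open MeasureTheory Measure Set Metric Filter
open scoped ENNReal NNReal Topology

/-- separated sets of maximal cardinality cover -/
theorem sep_cover {Y : Type*} [MetricSpace Y] (X : Set Y) (ε : ℝ) (hε : 0 ≤ ε) (M : ℕ)
    (h : ∀ A : Finset Y, (∀ a ∈ A, a ∈ X) → (∀ a ∈ A, ∀ b ∈ A, a ≠ b → ε < dist a b) →
      A.card ≤ M) :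
    ∃ A : Finset Y, (∀ a ∈ A, a ∈ X) ∧ (∀ a ∈ A, ∀ b ∈ A, a ≠ b → ε < dist a b) ∧
      ∀ x ∈ X, ∃ a ∈ A, x ∈ closedBall a ε := by
  classical
  by_contra hcon
  push Not at hcon
  have key : ∀ k : ℕ, ∃ A : Finset Y, (∀ a ∈ A, a ∈ X) ∧
      (∀ a ∈ A, ∀ b ∈ A, a ≠ b → ε < dist a b) ∧ A.card = k := by
    intro k
    induction k with
    | zero => exact ⟨∅, by simp, by simp, by simp⟩
    | succ k ih =>
      obtain ⟨A, h1, h2, h3⟩ := ih
      obtain ⟨x, hx, hxA⟩ := hcon A h1 h2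
      have hd : ∀ a ∈ A, ε < dist x a := by
        intro a ha
        have h4 := hxA a ha
        rw [mem_closedBall, not_le] at h4
        exact h4
      have hxn : x ∉ A := by
        intro h4
        have h5 := hd x h4
        rw [dist_self] at h5
        linarith
      refine ⟨insert x A, ?_, ?_, ?_⟩
      · intro a ha
        rcases Finset.mem_insert.1 ha with h4 | h4
        · rw [h4]; exact hx
        · exact h1 a h4
      · intro a ha b hb hab
        rcases Finset.mem_insert.1 ha with h4 | h4 <;> rcases Finset.mem_insert.1 hb with h5 | h5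
        · exact absurd (h4.trans h5.symm) hab
        · rw [h4]; exact hd b h5
        · rw [h5, dist_comm]; exact hd a h4
        · exact h2 a h4 b h5 hab
      · rw [Finset.card_insert_of_notMem hxn, h3]
  obtain ⟨A, h1, h2, h3⟩ := key (M + 1)
  have := h A h1 h2
  omega

/-- the weights -/
noncomputable def wj (j : ℕ) : ℝ≥0∞ := ENNReal.ofReal (1 / ((j : ℝ) + 1) ^ 2)

theorem wj_pos (j : ℕ) : wj j ≠ 0 := by
  unfold wj
  rw [Ne, ENNReal.ofReal_eq_zero, not_le]
  positivity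

theorem wj_sum : ∑' j, wj j ≠ ⊤ := by
  unfold wj
  have h : Summable fun j : ℕ => (1 / ((j : ℝ) + 1) ^ 2) := by
    have h1 := (summable_nat_add_iff 1).2 (Real.summable_one_div_nat_pow.2 (by norm_num : 1 < 2))
    refine h1.congr fun j => ?_
    push_cast
    rfl
  exact h.tsum_ofReal_ne_top

/-- if a series of finite terms diverges, its terms are infinitely often large -/
theorem large_terms (a : ℕ → ℝ≥0∞) (ha : ∀ j, a j ≠ ⊤) (hs : ∑' j, a j = ⊤) (J : ℕ) :
    ∃ j, J ≤ j ∧ wj j ≤ a j := by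
  by_contra hcon
  push Not at hcon
  have h1 : ∑' j, a j ≤ (∑ j ∈ Finset.range J, a j) + ∑' j, wj j := by
    have e1 : (∑ j ∈ Finset.range J, a j) + ∑' j, a (j + J) = ∑' j, a j :=
      Summable.sum_add_tsum_nat_add' (f := a) (k := J) ENNReal.summable
    rw [← e1]
    refine add_le_add le_rfl ?_
    calc ∑' j, a (j + J) ≤ ∑' j, wj (j + J) :=
          ENNReal.tsum_le_tsum fun j => (hcon (j + J) (by omega)).le
      _ ≤ ∑' j, wj j := by
          have e2 : (∑ j ∈ Finset.range J, wj j) + ∑' j, wj (j + J) = ∑' j, wj j :=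
            Summable.sum_add_tsum_nat_add' (f := wj) (k := J) ENNReal.summable
          rw [← e2]
          exact le_add_self
  rw [hs, top_le_iff] at h1
  exact ENNReal.add_ne_top.2 ⟨ENNReal.sum_ne_top.2 fun j _ => ha j, wj_sum⟩ h1

theorem ediam_ball {Y : Type*} [PseudoMetricSpace Y] (a : Y) (r : ℝ) :
    ediam (closedBall a r) ≤ ENNReal.ofReal (2 * r) := by
  refine ediam_le fun x hx y hy => ?_
  rw [edist_dist]
  apply ENNReal.ofReal_le_ofReal
  rw [mem_closedBall] at hx hy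
  have := dist_triangle_right x y a
  linarith

/-- **the dimension of a set on which a series diverges** -/
theorem dim_abs {Y : Type*} [MetricSpace Y] [MeasurableSpace Y] [BorelSpace Y] (S : Set Y)
    (a : ℕ → Y → ℝ≥0∞) (α : ℝ≥0) (Q : ℝ) (hQ : 0 ≤ Q) (T : ℕ → ℝ≥0∞)
    (hfin : ∀ j, ∀ x ∈ S, a j x ≠ ⊤) (hTt : ∀ j, T j ≠ ⊤)
    (hcard : ∀ (j : ℕ) (A : Finset Y), (∀ x ∈ A, x ∈ S ∧ wj j ≤ a j x) →
      (∀ x ∈ A, ∀ y ∈ A, x ≠ y → 2 / (2 : ℝ) ^ j < dist x y) → (A.card : ℝ≥0∞) * wj j ^ Q ≤ T j)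
    (hsum : ∑' j : ℕ, T j * (wj j ^ Q)⁻¹ * ENNReal.ofReal (4 / (2 : ℝ) ^ j) ^ (α : ℝ) ≠ ⊤)
    (hS : ∀ x ∈ S, ∑' j, a j x = ⊤) : dimH S ≤ α := by
  classical
  have hw0 : ∀ j, wj j ^ Q ≠ 0 := by
    intro j h
    rw [ENNReal.rpow_eq_zero_iff] at h
    rcases h with h | h
    · exact wj_pos j h.1
    · exact ENNReal.ofReal_ne_top h.1
  have hwt : ∀ j, wj j ^ Q ≠ ⊤ := fun j => ENNReal.rpow_ne_top_of_nonneg hQ ENNReal.ofReal_ne_top
  have hcov : ∀ j : ℕ, ∃ A : Finset Y, (A.card : ℝ≥0∞) * wj j ^ Q ≤ T j ∧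
      ∀ x ∈ S, wj j ≤ a j x → ∃ y ∈ A, x ∈ closedBall y (2 / (2 : ℝ) ^ j) := by
    intro j
    have hne : T j / wj j ^ Q ≠ ⊤ := ENNReal.div_ne_top (hTt j) (hw0 j)
    obtain ⟨A, h1, h2, h3⟩ := sep_cover {t | t ∈ S ∧ wj j ≤ a j t} (2 / (2 : ℝ) ^ j) (by positivity)
      ⌊(T j / wj j ^ Q).toReal⌋₊ (fun A hA1 hA2 => by
        apply Nat.le_floor
        have h4 := hcard j A hA1 hA2
        have h5 : (A.card : ℝ≥0∞) ≤ T j / wj j ^ Q := by
          rw [ENNReal.le_div_iff_mul_le (Or.inl (hw0 j)) (Or.inl (hwt j))]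
          exact h4
        have h6 := ENNReal.toReal_mono hne h5
        rwa [ENNReal.toReal_natCast] at h6)
    exact ⟨A, hcard j A h1 h2, fun x hx hx' => h3 x ⟨hx, hx'⟩⟩
  choose A hA1 hA2 using hcov
  refine dimH_le_of_hausdorffMeasure_ne_top ?_
  have hlim : Tendsto (fun J : ℕ => ENNReal.ofReal (4 / (2 : ℝ) ^ J)) atTop (𝓝 0) := by
    have h1 : Tendsto (fun J : ℕ => (4 : ℝ) * (1 / 2) ^ J) atTop (𝓝 (4 * 0)) :=
      (tendsto_pow_atTop_nhds_zero_of_lt_one (by norm_num) (by norm_num)).const_mul 4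
    rw [mul_zero] at h1
    have h2 := ENNReal.tendsto_ofReal h1
    rw [ENNReal.ofReal_zero] at h2
    refine h2.congr fun J => ?_
    congr 1
    rw [one_div, inv_pow]
    ring
  have hH := hausdorffMeasure_le_liminf_tsum (X := Y) (β := ℕ)
    (ι := fun _ => Σ j : ℕ, {x // x ∈ A j}) (α : ℝ) S
    (l := atTop) (fun J => ENNReal.ofReal (4 / (2 : ℝ) ^ J)) hlim
    (fun J i => if J ≤ i.1 then closedBall (i.2 : Y) (2 / (2 : ℝ) ^ i.1) else ∅)
    (Eventually.of_forall fun J i => ?_) (Eventually.of_forall fun J => ?_)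
  · refine ne_top_of_le_ne_top hsum
      (hH.trans (liminf_le_of_frequently_le' (Frequently.of_forall fun J => ?_)))
    rw [ENNReal.tsum_sigma']
    refine ENNReal.tsum_le_tsum fun j => ?_
    calc ∑' b : {x // x ∈ A j}, ediam (if J ≤ (⟨j, b⟩ : Σ j : ℕ, {x // x ∈ A j}).1 then
            closedBall ((⟨j, b⟩ : Σ j : ℕ, {x // x ∈ A j}).2 : Y)
              (2 / (2 : ℝ) ^ (⟨j, b⟩ : Σ j : ℕ, {x // x ∈ A j}).1) else ∅) ^ (α : ℝ)
        ≤ ∑' _b : {x // x ∈ A j}, ENNReal.ofReal (4 / (2 : ℝ) ^ j) ^ (α : ℝ) := by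
          refine ENNReal.tsum_le_tsum fun b => ?_
          refine ENNReal.rpow_le_rpow ?_ α.coe_nonneg
          split_ifs
          · refine (ediam_ball _ _).trans (le_of_eq ?_)
            congr 1
            ring
          · rw [ediam_empty]
            exact zero_le
      _ = (A j).card * ENNReal.ofReal (4 / (2 : ℝ) ^ j) ^ (α : ℝ) := by
          rw [tsum_fintype, Finset.sum_const, Finset.card_univ, Fintype.card_coe, nsmul_eq_mul]
      _ ≤ _ := by
          gcongr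
          rw [← div_eq_mul_inv,
            ENNReal.le_div_iff_mul_le (Or.inl (hw0 j)) (Or.inl (hwt j))]
          exact hA1 j
  · -- diameters
    split_ifs with h1
    · refine (ediam_ball _ _).trans (ENNReal.ofReal_le_ofReal ?_)
      have h2 : (2 : ℝ) ^ J ≤ 2 ^ i.1 := pow_le_pow_right₀ (by norm_num) h1
      calc 2 * (2 / (2 : ℝ) ^ i.1) = 4 / 2 ^ i.1 := by ring
        _ ≤ 4 / 2 ^ J := by gcongr
    · rw [ediam_empty]
      exact zero_le
  · -- covering
    intro t ht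
    obtain ⟨j, hj1, hj2⟩ := large_terms (fun j => a j t) (fun j => hfin j t ht) (hS t ht) J
    obtain ⟨y, hy1, hy2⟩ := hA2 j t ht hj2
    rw [mem_iUnion]
    refine ⟨⟨j, ⟨y, hy1⟩⟩, ?_⟩
    simp only [if_pos hj1]
    exact hy2

end Pool.Agent.Helper969.TS
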