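import Pool.Agent.Helper969.TS.C1
import Pool.Agent.Helper969.TS.C2
set_option autoImplicit false

/-! Averages over time slices in terms of the norms of the slices. -/

namespace Pool.Agent.Helper969.TS

open MeasureTheory Set Filter Topology Complex
open scoped ENNReal NNReal
open Pool.Agent.W771.MD (qe em em_norm em_enorm em_cont em_meas planchM)

variable {m : ℕ}

theorem holder_gen {X : Type*} [MeasurableSpace X] (μ : Measure X) (p q : ℝ)
    (h : p.HolderConjugate q) (f g : X → ℝ≥0∞) (hf : AEMeasurable f μ) (hg : AEMeasurable g μ) :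
    ∫⁻ x, f x * g x ∂μ ≤ (∫⁻ x, f x ^ p ∂μ) ^ (1 / p) * (∫⁻ x, g x ^ q ∂μ) ^ (1 / q) := by
  have h1 := ENNReal.lintegral_mul_le_Lp_mul_Lq μ h hf hg
  simpa only [Pi.mul_apply] using h1

/-- all times, in terms of the norm of the slice -/
theorem near_q {f φ : (Fin m → ℝ) → ℂ} (hf : Measurable f) (h2 : ∫⁻ x, ‖f x‖ₑ ^ 2 ≠ ⊤)
    (hφ : Cut φ) (hcm : Measurable (ch φ)) {u : ℝ → (Fin m → ℝ) → ℂ} (hu : Sol f u) (q : ℝ)
    (hq : 2 < q) (a t : ℝ) :
    ∫⁻ x, ‖X φ u a t x‖ₑ ^ q ≤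
      ((∫⁻ x, ‖ch φ x‖ₑ ^ (q / (q - 1))) ^ (1 / (q / (q - 1)))) ^ (q - 2) *
        (∫⁻ x, ‖ch φ x‖ₑ ^ (2 * (q / (q - 2)))) ^ (1 / (q / (q - 2))) * hh q u a := by
  have hq0 : 0 < q := by linarith
  have hq1 : 0 < q - 1 := by linarith
  have hq2 : 0 < q - 2 := by linarith
  set P := hh q u a with hP
  have hχm : AEStronglyMeasurable (ch φ) volume := hφ.ci.1
  have hua : MemLp (u a) 2 := sq_memLp _ (hu.1 a)
    (ne_top_of_le_ne_top h2 (sol_norm hf h2 hu a))
  have hχL : MemLp (ch φ) 2 := by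
    refine ⟨hχm, ?_⟩
    rw [eLpNorm_lt_top_iff_lintegral_rpow_enorm_lt_top (by norm_num) (by norm_num)]
    simp only [ENNReal.toReal_ofNat, ENNReal.rpow_ofNat]
    exact lt_top_iff_ne_top.2 hφ.cs
  have hpt : ∀ x, ‖X φ u a t x‖ₑ ≤
      (∫⁻ x, ‖ch φ x‖ₑ ^ (q / (q - 1))) ^ (1 / (q / (q - 1))) * P ^ (1 / q) := by
    intro x
    refine (enorm_integral_le_lintegral_enorm _).trans ?_
    simp only [enorm_mul, em_enorm, mul_one]
    exact holder_gen volume (q / (q - 1)) q (Real.HolderConjugate.conjExponent (by linarith)).symm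
      (fun ξ => ‖ch φ ξ‖ₑ) (fun ξ => ‖u a ξ‖ₑ) hχm.enorm (hu.1 a).enorm.aemeasurable
  have hsq : ∫⁻ x, ‖X φ u a t x‖ₑ ^ 2 ≤
      (∫⁻ x, ‖ch φ x‖ₑ ^ (2 * (q / (q - 2)))) ^ (1 / (q / (q - 2))) * P ^ (2 / q) := by
    by_cases hfin : ∫⁻ x, ‖ch φ x * u a x‖ₑ ^ 2 = ⊤
    · have h3 : ∫⁻ x, ‖ch φ x * u a x‖ₑ ^ 2 ≤
          (∫⁻ x, ‖ch φ x‖ₑ ^ (2 * (q / (q - 2)))) ^ (1 / (q / (q - 2))) * P ^ (2 / q) := by
        have hc : (q / (q - 2)).HolderConjugate (q / 2) := by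
          constructor
          · rw [inv_div, inv_div, inv_one]
            field_simp
            ring
          · positivity
          · positivity
        have h4 := holder_gen volume (q / (q - 2)) (q / 2) hc (fun x => ‖ch φ x‖ₑ ^ 2)
          (fun x => ‖u a x‖ₑ ^ 2) (hχm.enorm.pow_const 2) ((hu.1 a).enorm.pow_const 2).aemeasurable
        simp only [enorm_mul, mul_pow]
        refine h4.trans (le_of_eq ?_)
        have e1 : ∀ x, (‖ch φ x‖ₑ ^ 2) ^ (q / (q - 2)) = ‖ch φ x‖ₑ ^ (2 * (q / (q - 2))) := by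
          intro x
          rw [← ENNReal.rpow_natCast, ← ENNReal.rpow_mul]
          norm_num
        have e2 : ∀ x, (‖u a x‖ₑ ^ 2) ^ (q / 2) = ‖u a x‖ₑ ^ q := by
          intro x
          rw [← ENNReal.rpow_natCast, ← ENNReal.rpow_mul]
          congr 1
          push_cast
          ring
        simp only [e1, e2]
        rw [one_div_div q 2]
        rfl
      rw [hfin, top_le_iff] at h3
      rw [h3]
      exact le_top
    · have hg2 : MemLp (fun x => ch φ x * u a x) 2 := by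
        refine ⟨hχm.mul (hu.1 a).aestronglyMeasurable, ?_⟩
        rw [eLpNorm_lt_top_iff_lintegral_rpow_enorm_lt_top (by norm_num) (by norm_num)]
        simp only [ENNReal.toReal_ofNat, ENNReal.rpow_ofNat]
        exact lt_top_iff_ne_top.2 hfin
      have h5 := planchM (fun x => ch φ x * u a x) (hχL.integrable_mul hua) hg2 t
      refine h5.le.trans ?_
      have hc : (q / (q - 2)).HolderConjugate (q / 2) := by
        constructor
        · rw [inv_div, inv_div, inv_one]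
          field_simp
          ring
        · positivity
        · positivity
      have h4 := holder_gen volume (q / (q - 2)) (q / 2) hc (fun x => ‖ch φ x‖ₑ ^ 2)
        (fun x => ‖u a x‖ₑ ^ 2) (hχm.enorm.pow_const 2) ((hu.1 a).enorm.pow_const 2).aemeasurable
      simp only [enorm_mul, mul_pow]
      refine h4.trans (le_of_eq ?_)
      have e1 : ∀ x, (‖ch φ x‖ₑ ^ 2) ^ (q / (q - 2)) = ‖ch φ x‖ₑ ^ (2 * (q / (q - 2))) := by
        intro x
        rw [← ENNReal.rpow_natCast, ← ENNReal.rpow_mul]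
        norm_num
      have e2 : ∀ x, (‖u a x‖ₑ ^ 2) ^ (q / 2) = ‖u a x‖ₑ ^ q := by
        intro x
        rw [← ENNReal.rpow_natCast, ← ENNReal.rpow_mul]
        congr 1
        push_cast
        ring
      simp only [e1, e2]
      rw [one_div_div q 2]
      rfl
  set cA := (∫⁻ x, ‖ch φ x‖ₑ ^ (q / (q - 1))) ^ (1 / (q / (q - 1))) with hcA
  set cB := (∫⁻ x, ‖ch φ x‖ₑ ^ (2 * (q / (q - 2)))) ^ (1 / (q / (q - 2))) with hcB
  calc ∫⁻ x, ‖X φ u a t x‖ₑ ^ q = ∫⁻ x, ‖X φ u a t x‖ₑ ^ (q - 2) * ‖X φ u a t x‖ₑ ^ 2 := by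
        congr 1
        ext x
        rw [← ENNReal.rpow_ofNat, ← ENNReal.rpow_add_of_nonneg _ _ (by linarith) (by norm_num)]
        congr 1
        norm_num
    _ ≤ ∫⁻ x, (cA * P ^ (1 / q)) ^ (q - 2) * ‖X φ u a t x‖ₑ ^ 2 :=
        lintegral_mono fun x => mul_le_mul' (ENNReal.rpow_le_rpow (hpt x) hq2.le) le_rfl
    _ = (cA * P ^ (1 / q)) ^ (q - 2) * ∫⁻ x, ‖X φ u a t x‖ₑ ^ 2 := by
        apply lintegral_const_mul
        have : Measurable fun x => X φ u a t x :=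
          W_meas (f := fun ξ => ch φ ξ * u a ξ) (hcm.mul (hu.1 a)) t
        exact this.enorm.pow_const 2
    _ ≤ (cA * P ^ (1 / q)) ^ (q - 2) * (cB * P ^ (2 / q)) := mul_le_mul' le_rfl hsq
    _ = cA ^ (q - 2) * cB * (P ^ ((q - 2) / q) * P ^ (2 / q)) := by
        rw [ENNReal.mul_rpow_of_nonneg _ _ hq2.le, ← ENNReal.rpow_mul P]
        have : 1 / q * (q - 2) = (q - 2) / q := by ring
        rw [this]
        ring
    _ = cA ^ (q - 2) * cB * P := by
        rw [← ENNReal.rpow_add_of_nonneg _ _ (by positivity) (by positivity)]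
        have : (q - 2) / q + 2 / q = 1 := by
          field_simp
          ring
        rw [this, ENNReal.rpow_one]

/-- integration over an interval of times -/
theorem slide (h : ℝ → ℝ≥0∞) (A s : ℝ) (hs : |s| ≤ 1) :
    ∫⁻ a in Icc A (A + 1), h (a - s) ≤ ∫⁻ a in Icc (A - 1) (A + 2), h a := by
  rw [abs_le] at hs
  calc ∫⁻ a in Icc A (A + 1), h (a - s) =
        ∫⁻ a, (Icc A (A + 1)).indicator (fun a => h (a - s)) a :=
        (lintegral_indicator measurableSet_Icc _).symm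
    _ ≤ ∫⁻ a, (Icc (A - 1) (A + 2)).indicator h (a - s) := by
        refine lintegral_mono fun a => ?_
        by_cases ha : a ∈ Icc A (A + 1)
        · rw [indicator_of_mem ha, indicator_of_mem]
          constructor <;> linarith [ha.1, ha.2, hs.1, hs.2]
        · rw [indicator_of_notMem ha]
          exact zero_le
    _ = ∫⁻ a, (Icc (A - 1) (A + 2)).indicator h a :=
        lintegral_sub_right_eq_self (fun a => (Icc (A - 1) (A + 2)).indicator h a) s
    _ = _ := lintegral_indicator measurableSet_Icc _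

/-- **the average of the norm at a fixed time** -/
theorem decay (m : ℕ) (φ : (Fin m → ℝ) → ℂ) (hφ : Cut φ) (hcm : Measurable (ch φ)) (q : ℝ)
    (hq : 2 < q) (hA : ∫⁻ x, ‖ch φ x‖ₑ ^ (q / (q - 1)) ≠ ⊤)
    (hB : ∫⁻ x, ‖ch φ x‖ₑ ^ (2 * (q / (q - 2))) ≠ ⊤) : ∃ C : ℝ≥0∞, C ≠ ⊤ ∧
    ∀ (f : (Fin m → ℝ) → ℂ) (u : ℝ → (Fin m → ℝ) → ℂ), Measurable f →
      ∫⁻ x, ‖f x‖ₑ ^ 2 ≠ ⊤ → Sol f u → Measurable (hh q u) → ∀ A t : ℝ,
      ∫⁻ a in Icc A (A + 1), ∫⁻ x, ‖X φ u a t x‖ₑ ^ q ≤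
        C * ENNReal.ofReal ((1 + |t|) ^ ((m : ℝ) - m * q / 2)) *
          ∫⁻ a in Icc (A - 1) (A + 2), hh q u a := by
  have hq0 : 0 < q := by linarith
  have hq1 : 0 < q - 1 := by linarith
  have hq2 : 0 < q - 2 := by linarith
  set C1 : ℝ≥0∞ := ((∫⁻ x, ‖ch φ x‖ₑ ^ (q / (q - 1))) ^ (1 / (q / (q - 1)))) ^ (q - 2) *
        (∫⁻ x, ‖ch φ x‖ₑ ^ (2 * (q / (q - 2)))) ^ (1 / (q / (q - 2))) with hC1
  have hC1t : C1 ≠ ⊤ := ENNReal.mul_ne_top
    (ENNReal.rpow_ne_top_of_nonneg hq2.le (ENNReal.rpow_ne_top_of_nonneg (by positivity) hA))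
    (ENNReal.rpow_ne_top_of_nonneg (by positivity) hB)
  have hΦp : (∫⁻ z, ‖φ z‖ₑ) ^ q ≠ ⊤ := ENNReal.rpow_ne_top_of_nonneg hq0.le hφ.i.2.ne
  set e : ℝ := (m : ℝ) - m * q / 2 with he
  have he0 : e ≤ 0 := by
    have : (0 : ℝ) ≤ m := Nat.cast_nonneg m
    rw [he]
    nlinarith
  refine ⟨C1 * ENNReal.ofReal ((2 : ℝ) ^ (-e)) + (∫⁻ z, ‖φ z‖ₑ) ^ q, ENNReal.add_ne_top.2
    ⟨ENNReal.mul_ne_top hC1t ENNReal.ofReal_ne_top, hΦp⟩, ?_⟩
  intro f u hf h2 hu hm A t
  set J := ∫⁻ a in Icc (A - 1) (A + 2), hh q u a with hJ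
  by_cases ht : |t| ≤ 1
  · calc ∫⁻ a in Icc A (A + 1), ∫⁻ x, ‖X φ u a t x‖ₑ ^ q ≤ ∫⁻ a in Icc A (A + 1), C1 * hh q u a :=
          lintegral_mono fun a => near_q hf h2 hφ hcm hu q hq a t
      _ = C1 * ∫⁻ a in Icc A (A + 1), hh q u a := lintegral_const_mul _ hm
      _ ≤ C1 * J := mul_le_mul' le_rfl (lintegral_mono_set (Icc_subset_Icc (by linarith) (by linarith)))
      _ = C1 * 1 * J := by rw [mul_one]
      _ ≤ C1 * (ENNReal.ofReal ((2 : ℝ) ^ (-e)) * ENNReal.ofReal ((1 + |t|) ^ e)) * J := by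
          refine mul_le_mul' (mul_le_mul' le_rfl ?_) le_rfl
          rw [← ENNReal.ofReal_mul (by positivity), ← ENNReal.ofReal_one]
          apply ENNReal.ofReal_le_ofReal
          have h3 : (2 : ℝ) ^ e ≤ (1 + |t|) ^ e :=
            Real.rpow_le_rpow_of_nonpos (by positivity) (by linarith) he0
          calc (1 : ℝ) = (2 : ℝ) ^ (-e) * (2 : ℝ) ^ e := by
                rw [← Real.rpow_add (by norm_num)]
                norm_num
            _ ≤ _ := mul_le_mul_of_nonneg_left h3 (by positivity)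
      _ = C1 * ENNReal.ofReal ((2 : ℝ) ^ (-e)) * ENNReal.ofReal ((1 + |t|) ^ e) * J := by ring
      _ ≤ _ := by
          refine mul_le_mul' (mul_le_mul' le_self_add le_rfl) le_rfl
  · have ht1 : 1 < |t| := not_le.1 ht
    have ht0 : t ≠ 0 := by
      rintro rfl
      rw [abs_zero] at ht1
      linarith
    have hs : |(4 * t)⁻¹| ≤ 1 := by
      rw [abs_inv, abs_mul, show |(4 : ℝ)| = 4 by norm_num]
      apply inv_le_one_of_one_le₀
      linarith
    calc ∫⁻ a in Icc A (A + 1), ∫⁻ x, ‖X φ u a t x‖ₑ ^ q ≤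
          ∫⁻ a in Icc A (A + 1), ENNReal.ofReal (|2 * t| ^ e) * (∫⁻ z, ‖φ z‖ₑ) ^ q *
            hh q u (a - (4 * t)⁻¹) :=
          lintegral_mono fun a => far_t hf h2 hφ hu q (by linarith) a t ht0
      _ = ENNReal.ofReal (|2 * t| ^ e) * (∫⁻ z, ‖φ z‖ₑ) ^ q *
            ∫⁻ a in Icc A (A + 1), hh q u (a - (4 * t)⁻¹) :=
          lintegral_const_mul' _ _ (ENNReal.mul_ne_top ENNReal.ofReal_ne_top hΦp)
      _ ≤ ENNReal.ofReal ((1 + |t|) ^ e) * (∫⁻ z, ‖φ z‖ₑ) ^ q * J := by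
          refine mul_le_mul' (mul_le_mul' (ENNReal.ofReal_le_ofReal ?_) le_rfl)
            (slide _ A _ hs)
          refine Real.rpow_le_rpow_of_nonpos (by positivity) ?_ he0
          rw [abs_mul, show |(2 : ℝ)| = 2 by norm_num]
          linarith
      _ = (∫⁻ z, ‖φ z‖ₑ) ^ q * ENNReal.ofReal ((1 + |t|) ^ e) * J := by ring
      _ ≤ _ := mul_le_mul' (mul_le_mul' le_add_self le_rfl) le_rfl

theorem tail_fin (e : ℝ) (he : e < -1) : ∫⁻ t : ℝ, ENNReal.ofReal ((1 + |t|) ^ e) ≠ ⊤ := by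
  have h := (integrable_one_add_norm (E := ℝ) (μ := volume) (r := -e) (by
    rw [Module.finrank_self]
    push_cast
    linarith)).2.ne
  refine ne_top_of_le_ne_top h (lintegral_mono fun t => ?_)
  simp only [neg_neg, Real.norm_eq_abs]
  exact Real.ofReal_le_enorm _

theorem log_bound (R : ℝ) (hR : 2 ≤ R) :
    ∫⁻ t in Icc (-R) R, ENNReal.ofReal ((1 + |t|) ^ (-1 : ℝ)) ≤ ENNReal.ofReal (4 * Real.log R) := by
  have hcont : Continuous fun t : ℝ => (1 + |t|) ^ (-1 : ℝ) := by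
    refine Continuous.rpow_const (by fun_prop) fun t => Or.inl ?_
    positivity
  have hpos : ∀ t : ℝ, 0 ≤ (1 + |t|) ^ (-1 : ℝ) := fun t => by positivity
  rw [← ofReal_integral_eq_lintegral_ofReal (hcont.integrableOn_Icc) (ae_of_all _ hpos)]
  apply ENNReal.ofReal_le_ofReal
  rw [integral_Icc_eq_integral_Ioc, ← intervalIntegral.integral_of_le (by linarith),
    ← intervalIntegral.integral_add_adjacent_intervals (b := 0) (hcont.intervalIntegrable _ _)
      (hcont.intervalIntegrable _ _)]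
  have h1 : ∫ t in (0 : ℝ)..R, (1 + |t|) ^ (-1 : ℝ) = Real.log (1 + R) := by
    have e1 : ∫ t in (0 : ℝ)..R, (1 + |t|) ^ (-1 : ℝ) = ∫ t in (0 : ℝ)..R, (1 + t)⁻¹ := by
      refine intervalIntegral.integral_congr fun t ht => ?_
      rw [uIcc_of_le (by linarith)] at ht
      rw [abs_of_nonneg ht.1, Real.rpow_neg_one]
    rw [e1, intervalIntegral.integral_comp_add_left (fun t => t⁻¹) 1, integral_inv_of_pos
      (by norm_num) (by linarith)]
    norm_num
  have h2 : ∫ t in (-R)..0, (1 + |t|) ^ (-1 : ℝ) = Real.log (1 + R) := by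
    have e1 := intervalIntegral.integral_comp_neg (a := 0) (b := R)
      (fun t : ℝ => (1 + |t|) ^ (-1 : ℝ))
    rw [neg_zero] at e1
    rw [← e1, ← h1]
    simp only [abs_neg]
  rw [h1, h2]
  have h3 : Real.log (1 + R) ≤ Real.log (R ^ 2) := Real.log_le_log (by linarith) (by nlinarith)
  rw [Real.log_pow] at h3
  push_cast at h3
  linarith

end Pool.Agent.Helper969.TS
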