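import Pool.Agent.Helper969.TS.C3
import Pool.Agent.Helper969.TS.E1
set_option autoImplicit false

/-! Almost every slice. -/

namespace Pool.Agent.Helper969.TS

open MeasureTheory Set Filter Topology Complex Metric
open scoped ENNReal NNReal
open Pool.Agent.W771.MD (qe em em_norm em_enorm em_cont em_meas planchM)

variable {m : ℕ}

theorem hh_smul (q : ℝ) (hq : 0 ≤ q) (u : ℝ → (Fin m → ℝ) → ℂ) (c : ℂ) (T : ℝ) :
    hh q (fun a x => c * u a x) T = ‖c‖ₑ ^ q * hh q u T := by
  unfold hh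
  rw [← lintegral_const_mul' _ _ (ENNReal.rpow_ne_top_of_nonneg hq enorm_ne_top)]
  simp only [enorm_mul, ENNReal.mul_rpow_of_nonneg _ _ hq]

/-- the norms of the slices are locally integrable -/
theorem hh_loc (hm : 0 < m) (q : ℝ) (hq : 2 < q) (hq2 : q < 2 * ((m : ℝ) + 2) / m)
    (f : (Fin m → ℝ) → ℂ) (hf : Measurable f) (h : ∫⁻ x, ‖f x‖ₑ ^ 2 ≠ ⊤)
    {u : ℝ → (Fin m → ℝ) → ℂ} (hu : Sol f u) (K : ℝ) (hK0 : 0 ≤ K) :
    ∫⁻ T in Icc (-K) K, hh q u T ≠ ⊤ := by
  have hq0 : 0 < q := by linarith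
  set L : ℝ := (∫⁻ x, ‖f x‖ₑ ^ 2).toReal with hL
  have hL0 : 0 ≤ L := ENNReal.toReal_nonneg
  set k : ℝ := 1 / (1 + L) with hk
  have hk0 : 0 < k := by positivity
  have hsq : ∫⁻ x, ‖(k : ℂ) * f x‖ₑ ^ 2 ≤ 1 := by
    rw [sq_smul, enorm_real k hk0.le, ← ENNReal.ofReal_toReal h, ← hL,
      ← ENNReal.ofReal_pow hk0.le, ← ENNReal.ofReal_mul (by positivity), ← ENNReal.ofReal_one]
    apply ENNReal.ofReal_le_ofReal
    rw [hk, div_pow, one_pow, one_div, inv_mul_eq_div, div_le_one (by positivity)]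
    nlinarith
  obtain ⟨H, hH1, hH2, hH3⟩ := majorant hm q hq (fun x => (k : ℂ) * f x) (hf.const_mul _) hsq
    (sol_smul hu (k : ℂ))
  obtain ⟨Q, hQ1, hQ2, -⟩ := expo m hm q hq hq2 1 one_pos
  have h3 := hH3 (2 * K) Q (-K) (by linarith) hQ1
  have e : -K + 2 * K = K := by ring
  rw [e] at h3
  have hCr := Cr_top m (2 * K) (2 + Q * (q - 2)) (by
    have : 0 < Q * (q - 2) := mul_pos (by linarith) (by linarith)
    linarith) hQ2
  have h4 : ∫⁻ T in Icc (-K) K, hh q (fun a x => (k : ℂ) * u a x) T ≠ ⊤ := by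
    refine ne_top_of_le_ne_top (b := ∫⁻ T in Icc (-K) K, (1 + H T ^ Q)) ?_
      (lintegral_mono fun T => (hH2 T).trans (le_one_add _ Q hQ1))
    rw [lintegral_add_left measurable_const]
    refine ENNReal.add_ne_top.2 ⟨?_, ne_top_of_le_ne_top hCr h3⟩
    rw [lintegral_const, Measure.restrict_apply_univ, one_mul, Real.volume_Icc]
    exact ENNReal.ofReal_ne_top
  have hkq : ‖((k : ℝ) : ℂ)‖ₑ ^ q ≠ ⊤ := ENNReal.rpow_ne_top_of_nonneg hq0.le enorm_ne_top
  simp only [hh_smul q hq0.le] at h4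
  rw [lintegral_const_mul' _ _ hkq] at h4
  intro h5
  rw [h5, ENNReal.mul_top] at h4
  · exact h4 rfl
  · intro h0
    rw [ENNReal.rpow_eq_zero_iff, enorm_real k hk0.le] at h0
    rcases h0 with h0 | h0
    · rw [ENNReal.ofReal_eq_zero] at h0
      linarith [h0.1]
    · exact ENNReal.ofReal_ne_top h0.1

/-- differentiation of integrals -/
theorem leb (h : ℝ → ℝ≥0∞) (hm : Measurable h) (hloc : ∀ K : ℝ, 0 ≤ K → ∫⁻ T in Icc (-K) K, h T ≠ ⊤) :
    ∀ᵐ a : ℝ, Tendsto (fun r : ℝ => (∫⁻ T in closedBall a r, h T) / volume (closedBall a r))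
      (𝓝[>] 0) (𝓝 (h a)) := by
  have h1 : ∀ K : ℕ, ∀ᵐ a : ℝ, Tendsto (fun r : ℝ => (∫⁻ T in closedBall a r,
      (Icc (-(K : ℝ)) K).indicator h T) / volume (closedBall a r))
      (𝓝[>] 0) (𝓝 ((Icc (-(K : ℝ)) K).indicator h a)) := by
    intro K
    have h2 := (Besicovitch.vitaliFamily (volume : Measure ℝ)).ae_tendsto_lintegral_div
      (f := (Icc (-(K : ℝ)) K).indicator h) (hm.indicator measurableSet_Icc).aemeasurable (by
        rw [lintegral_indicator measurableSet_Icc]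
        exact hloc K (Nat.cast_nonneg K))
    filter_upwards [h2] with a ha
    exact ha.comp (Besicovitch.tendsto_filterAt volume a)
  filter_upwards [ae_all_iff.2 h1] with a ha
  obtain ⟨K, hK⟩ := exists_nat_gt |a|
  have h3 := ha K
  have hmem : a ∈ Ioo (-(K : ℝ)) K := abs_lt.1 hK
  rw [indicator_of_mem (Ioo_subset_Icc_self hmem)] at h3
  refine h3.congr' ?_
  obtain ⟨ε, hε, hε2⟩ := Metric.isOpen_iff.1 isOpen_Ioo a hmem
  filter_upwards [Ioo_mem_nhdsGT hε] with r hr
  congr 1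
  refine setLIntegral_congr_fun measurableSet_closedBall fun T hT => ?_
  refine indicator_of_mem (Ioo_subset_Icc_self (hε2 ?_)) h
  rw [mem_ball]
  rw [mem_closedBall] at hT
  exact lt_of_le_of_lt hT hr.2

/-- the dyadic shell of times -/
def Dy (R : ℝ) : Set ℝ := {t | R ≤ |t| ∧ |t| ≤ 2 * R}

theorem Dy_meas (R : ℝ) : MeasurableSet (Dy R) :=
  (measurableSet_le measurable_const continuous_abs.measurable).inter
    (measurableSet_le continuous_abs.measurable measurable_const)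

/-- a dyadic shell of times -/
theorem shell_bd {f φ : (Fin m → ℝ) → ℂ} (hf : Measurable f) (h2 : ∫⁻ x, ‖f x‖ₑ ^ 2 ≠ ⊤)
    (hφ : Cut φ) {u : ℝ → (Fin m → ℝ) → ℂ} (hu : Sol f u) (q : ℝ) (hq : 2 < q) (a R : ℝ)
    (hR : 1 < R) :
    ENNReal.ofReal (R ^ ((m : ℝ) * (q / 2 - 1) - 1)) * ∫⁻ t in Dy R, ∫⁻ x, ‖X φ u a t x‖ₑ ^ q ≤
      8 * (∫⁻ z, ‖φ z‖ₑ) ^ q * ((∫⁻ T in closedBall a (1 / (4 * R)), hh q u T) /
        volume (closedBall a (1 / (4 * R)))) := by
  have hq0 : 0 < q := by linarith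
  have hR0 : 0 < R := by linarith
  have hΦp : (∫⁻ z, ‖φ z‖ₑ) ^ q ≠ ⊤ := ENNReal.rpow_ne_top_of_nonneg hq0.le hφ.i.2.ne
  set e : ℝ := (m : ℝ) * (q / 2 - 1) with he
  have he0 : 0 ≤ e := by
    have : (0 : ℝ) ≤ m := Nat.cast_nonneg m
    rw [he]
    apply mul_nonneg this
    linarith
  have hee : (m : ℝ) - m * q / 2 = -e := by
    rw [he]
    ring
  -- the integral over the shell
  have h3 : ∫⁻ t in Dy R, ∫⁻ x, ‖X φ u a t x‖ₑ ^ q ≤
      ENNReal.ofReal ((2 * R) ^ (-e)) * (∫⁻ z, ‖φ z‖ₑ) ^ q *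
        ∫⁻ t in Dy R, hh q u (a - (4 * t)⁻¹) := by
    rw [← lintegral_const_mul' _ _ (ENNReal.mul_ne_top ENNReal.ofReal_ne_top hΦp)]
    refine setLIntegral_mono' (Dy_meas R) fun t ht => ?_
    have ht0 : t ≠ 0 := by
      rintro rfl
      have := ht.1
      rw [abs_zero] at this
      linarith
    refine (far_t hf h2 hφ hu q (by linarith) a t ht0).trans ?_
    refine mul_le_mul' (mul_le_mul' (ENNReal.ofReal_le_ofReal ?_) le_rfl) le_rfl
    rw [hee]
    refine Real.rpow_le_rpow_of_nonpos (by positivity) ?_ (by linarith)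
    rw [abs_mul, show |(2 : ℝ)| = 2 by norm_num]
    linarith [ht.1]
  have h4 : ∫⁻ t in Dy R, hh q u (a - (4 * t)⁻¹) ≤
      ENNReal.ofReal (16 * R ^ 2) * ∫⁻ T in closedBall a (1 / (4 * R)), hh q u T := by
    calc ∫⁻ t in Dy R, hh q u (a - (4 * t)⁻¹) ≤
          ∫⁻ t in (Icc (-1 : ℝ) 1)ᶜ, (Dy R).indicator (fun t => hh q u (a - (4 * t)⁻¹)) t := by
          rw [← lintegral_indicator (Dy_meas R),
            ← lintegral_indicator measurableSet_Icc.compl]
          refine lintegral_mono fun t => ?_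
          by_cases ht : t ∈ Dy R
          · rw [indicator_of_mem (s := (Icc (-1 : ℝ) 1)ᶜ), indicator_of_mem ht]
            intro ht2
            have := abs_le.2 ht2
            linarith [ht.1]
          · rw [indicator_of_notMem ht]
            exact zero_le
      _ ≤ ∫⁻ s in Ioo (-(1 / 4) : ℝ) (1 / 4), ENNReal.ofReal ((2 * |s|) ^ (-2 : ℝ)) *
            (Dy R).indicator (fun t => hh q u (a - (4 * t)⁻¹)) ((4 * s)⁻¹) := cov _
      _ ≤ ∫⁻ s in Ioo (-(1 / 4) : ℝ) (1 / 4), ENNReal.ofReal (16 * R ^ 2) *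
            (closedBall a (1 / (4 * R))).indicator (hh q u) (a - s) := by
          refine lintegral_mono fun s => ?_
          by_cases hs : (4 * s)⁻¹ ∈ Dy R
          · have hs1 := hs.1
            have hs2 := hs.2
            rw [abs_inv, abs_mul, show |(4 : ℝ)| = 4 by norm_num] at hs1 hs2
            have hs0 : 0 < |s| := by
              rcases eq_or_ne s 0 with h0 | h0
              · exfalso
                rw [h0, abs_zero, mul_zero, inv_zero] at hs1
                linarith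
              · exact abs_pos.2 h0
            have hs3 : R * (4 * |s|) ≤ 1 := by
              rwa [← le_div_iff₀ (by positivity), one_div]
            have hs4 : 1 ≤ 2 * R * (4 * |s|) := by
              rwa [← div_le_iff₀ (by positivity), one_div]
            have e1 : (4 * (4 * s)⁻¹)⁻¹ = s := by
              have : s ≠ 0 := abs_pos.1 hs0
              field_simp
            rw [indicator_of_mem hs, e1, indicator_of_mem]
            · refine mul_le_mul' (ENNReal.ofReal_le_ofReal ?_) le_rfl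
              rw [Real.rpow_neg (by positivity), Real.rpow_two]
              rw [inv_le_comm₀ (by positivity) (by positivity)]
              rw [inv_le_iff_one_le_mul₀ (by positivity)]
              nlinarith
            · rw [mem_closedBall, Real.dist_eq]
              have : a - s - a = -s := by ring
              rw [this, abs_neg, le_div_iff₀ (by positivity)]
              linarith
          · rw [indicator_of_notMem hs, mul_zero]
            exact zero_le
      _ ≤ ∫⁻ s, ENNReal.ofReal (16 * R ^ 2) *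
            (closedBall a (1 / (4 * R))).indicator (hh q u) (a - s) := setLIntegral_le_lintegral _ _
      _ = ENNReal.ofReal (16 * R ^ 2) * ∫⁻ s,
            (closedBall a (1 / (4 * R))).indicator (hh q u) (a - s) :=
          lintegral_const_mul' _ _ ENNReal.ofReal_ne_top
      _ = _ := by
          rw [lintegral_sub_left_eq_self (fun s => (closedBall a (1 / (4 * R))).indicator (hh q u) s) a,
            lintegral_indicator measurableSet_closedBall]
  set I := ∫⁻ T in closedBall a (1 / (4 * R)), hh q u T with hI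
  have hv : volume (closedBall a (1 / (4 * R))) = ENNReal.ofReal (2 * (1 / (4 * R))) :=
    Real.volume_closedBall _ _
  rw [hv, div_eq_mul_inv I, ← ENNReal.ofReal_inv_of_pos (by positivity)]
  calc _ ≤ ENNReal.ofReal (R ^ (e - 1)) * (ENNReal.ofReal ((2 * R) ^ (-e)) * (∫⁻ z, ‖φ z‖ₑ) ^ q *
        (ENNReal.ofReal (16 * R ^ 2) * I)) :=
        mul_le_mul' le_rfl (h3.trans (mul_le_mul' le_rfl h4))
    _ = ENNReal.ofReal (R ^ (e - 1) * (2 * R) ^ (-e) * (16 * R ^ 2)) * (∫⁻ z, ‖φ z‖ₑ) ^ q * I := by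
        have e6 : ENNReal.ofReal (R ^ (e - 1) * (2 * R) ^ (-e) * (16 * R ^ 2)) =
            ENNReal.ofReal (R ^ (e - 1)) * ENNReal.ofReal ((2 * R) ^ (-e)) *
              ENNReal.ofReal (16 * R ^ 2) := by
          rw [ENNReal.ofReal_mul (p := R ^ (e - 1) * (2 * R) ^ (-e)) (by positivity),
            ENNReal.ofReal_mul (p := R ^ (e - 1)) (by positivity)]
        rw [e6]
        ring
    _ ≤ ENNReal.ofReal (8 * (2 * (1 / (4 * R)))⁻¹) * (∫⁻ z, ‖φ z‖ₑ) ^ q * I := by
        refine mul_le_mul' (mul_le_mul' (ENNReal.ofReal_le_ofReal ?_) le_rfl) le_rfl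
        have e5 : (2 * R) ^ (-e) ≤ R ^ (-e) :=
          Real.rpow_le_rpow_of_nonpos hR0 (by linarith) (by linarith)
        calc R ^ (e - 1) * (2 * R) ^ (-e) * (16 * R ^ 2) ≤ R ^ (e - 1) * R ^ (-e) * (16 * R ^ 2) := by
              gcongr
          _ = R ^ (-1 : ℝ) * (16 * R ^ 2) := by
              rw [← Real.rpow_add hR0]
              congr 2
              ring
          _ = 8 * (2 * (1 / (4 * R)))⁻¹ := by
              rw [Real.rpow_neg_one]
              field_simp
              ring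
    _ = _ := by
        rw [ENNReal.ofReal_mul (by norm_num), ENNReal.ofReal_ofNat]
        ring

/-- **almost every slice** -/
theorem ae_slice (hm : 0 < m) (φ : (Fin m → ℝ) → ℂ) (hφ : Cut φ) (q : ℝ) (hq : 2 < q)
    (hq2 : q < 2 * ((m : ℝ) + 2) / m) (f : (Fin m → ℝ) → ℂ) (hf : Measurable f)
    (h : ∫⁻ x, ‖f x‖ₑ ^ 2 ≠ ⊤) {u : ℝ → (Fin m → ℝ) → ℂ} (hu : Sol f u)
    (hhm : Measurable (hh q u)) :
    ∀ᵐ a : ℝ, limsup (fun R : ℝ => ENNReal.ofReal (R ^ ((m : ℝ) * (q / 2 - 1) - 1)) *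
      ∫⁻ t in Dy R, ∫⁻ x, ‖X φ u a t x‖ₑ ^ q) atTop ≤ 8 * (∫⁻ z, ‖φ z‖ₑ) ^ q * hh q u a := by
  have hΦp : (∫⁻ z, ‖φ z‖ₑ) ^ q ≠ ⊤ := ENNReal.rpow_ne_top_of_nonneg (by linarith) hφ.i.2.ne
  filter_upwards [leb (hh q u) hhm fun K hK => hh_loc hm q hq hq2 f hf h hu K hK] with a ha
  have hr : Tendsto (fun R : ℝ => 1 / (4 * R)) atTop (𝓝[>] 0) := by
    rw [tendsto_nhdsWithin_iff]
    constructor
    · have h1 : Tendsto (fun R : ℝ => 4 * R) atTop atTop :=
        tendsto_id.const_mul_atTop (by norm_num)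
      have h2 := tendsto_inv_atTop_zero.comp h1
      refine h2.congr fun R => ?_
      simp only [Function.comp_apply, one_div]
    · filter_upwards [eventually_gt_atTop 0] with R hR
      rw [mem_Ioi]
      positivity
  have h1 := ENNReal.Tendsto.const_mul (a := 8 * (∫⁻ z, ‖φ z‖ₑ) ^ q) (ha.comp hr)
    (Or.inr (ENNReal.mul_ne_top (by norm_num) hΦp))
  rw [← h1.limsup_eq]
  refine limsup_le_limsup ?_
  filter_upwards [eventually_gt_atTop 1] with R hR
  exact shell_bd hf h hφ hu q hq a R hR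

end Pool.Agent.Helper969.TS
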